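import Mathlib

/-!
# Newton polygons by valuation rings of `ℂ`

`T` is a finite set of letters, `α l` the roots of a polynomial of degree `|T|`, `esy α j` their
elementary symmetric polynomials; `v` is a valuation of `ℂ`, `n` a convex function (the polygon).
* `prod_le`   : if `v (esy α r) ≤ v q ^ n r` for all `r`, then `v (∏_S α) ≤ v q ^ n |S|` for all `S`.
* `prod_lt`   : at a break `j` of `n`, if `v (esy α j) < v q ^ n j`, then `v (∏_S α) < v q ^ n j` for
                all `S` of cardinality `j`.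
-/

set_option autoImplicit false

namespace Pool.Agent.Helper35.GT

open Finset

/-- A complex number is an algebraic integer if and only if it is in all valuation rings of `ℂ`. -/
theorem isIntegral_iff {x : ℂ} : IsIntegral ℤ x ↔ ∀ A : ValuationSubring ℂ, A.valuation x ≤ 1 := by
  have h := iInf_valuationSubring_superset (K := ℂ) (s := ∅)
  have h1 : x ∈ (⨅ V : {V : ValuationSubring ℂ // (∅ : Set ℂ) ⊆ V.toSubring}, V.1.toSubring) ↔
      ∀ A : ValuationSubring ℂ, A.valuation x ≤ 1 := by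
    rw [Subring.mem_iInf]
    constructor
    · intro h A
      exact (A.valuation_le_one_iff x).2 (h ⟨A, Set.empty_subset _⟩)
    · intro h A
      exact (A.1.valuation_le_one_iff x).1 (h A.1)
  rw [← h1, h]
  constructor
  · intro hx
    change IsIntegral _ x
    exact hx.tower_top
  · intro hx
    have hx' : IsIntegral (Subring.closure (∅ : Set ℂ)) x := hx
    have : Algebra.IsIntegral ℤ (Subring.closure (∅ : Set ℂ)) := by
      refine ⟨fun y => ?_⟩
      have hy : (y : ℂ) ∈ (⊥ : Subring ℂ) := by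
        rw [← Subring.closure_empty]; exact y.2
      obtain ⟨z, hz⟩ := Subring.mem_bot.1 hy
      have : y = algebraMap ℤ (Subring.closure (∅ : Set ℂ)) z := Subtype.ext (by simp [← hz])
      rw [this]
      exact isIntegral_algebraMap
    exact isIntegral_trans (R := ℤ) x hx'

section

variable {Γ : Type*} [LinearOrderedCommGroupWithZero Γ] (v : Valuation ℂ Γ)
variable {T : Type*} [Fintype T] [DecidableEq T]

/-- The elementary symmetric polynomials. -/
noncomputable def esy (α : T → ℂ) (j : ℕ) : ℂ :=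
  ∑ S ∈ powersetCard j (univ : Finset T), ∏ l ∈ S, α l

omit [Fintype T] in
lemma prod_le_pow {α : T → ℂ} {t : Γ} {K : Finset T} (h : ∀ l ∈ K, v (α l) ≤ t) :
    v (∏ l ∈ K, α l) ≤ t ^ K.card := by
  rw [map_prod]
  exact Finset.prod_le_pow_card _ _ _ h

omit [Fintype T] in
lemma pow_le_prod {α : T → ℂ} {t : Γ} {K : Finset T} (h : ∀ l ∈ K, t ≤ v (α l)) :
    t ^ K.card ≤ v (∏ l ∈ K, α l) := by
  rw [map_prod]
  exact Finset.pow_card_le_prod _ _ _ h

omit [Fintype T] in
lemma pow_lt_prod {α : T → ℂ} {t : Γ} {K : Finset T} (hK : K.Nonempty) (h : ∀ l ∈ K, t < v (α l)) :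
    t ^ K.card < v (∏ l ∈ K, α l) := by
  obtain ⟨l, hl⟩ := hK
  have h1 : v (∏ l ∈ K, α l) = v (α l) * v (∏ l ∈ K.erase l, α l) := by
    rw [← Finset.mul_prod_erase K α hl, map_mul]
  have h2 : K.card = (K.erase l).card + 1 := by rw [Finset.card_erase_add_one hl]
  have h3 := pow_le_prod v (K := K.erase l) (t := t) fun r hr => (h r (Finset.mem_of_mem_erase hr)).le
  have h0 : ∀ r ∈ K, 0 < v (α r) := fun r hr => lt_of_le_of_lt zero_le (h r hr)
  have h4 : 0 < v (∏ l ∈ K.erase l, α l) := by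
    rw [map_prod]
    exact Finset.prod_pos fun r hr => h0 r (Finset.mem_of_mem_erase hr)
  rw [h1, h2, pow_succ']
  calc t * t ^ (K.erase l).card ≤ t * v (∏ l ∈ K.erase l, α l) := by gcongr
    _ < v (α l) * v (∏ l ∈ K.erase l, α l) := by
        exact mul_lt_mul_of_pos_right (h l hl) h4

omit [Fintype T] in
lemma prod_exchange (α : T → ℂ) (S R : Finset T) :
    (∏ l ∈ S, α l) * ∏ l ∈ R \ S, α l = (∏ l ∈ R, α l) * ∏ l ∈ S \ R, α l := by
  have h1 : (∏ l ∈ S, α l) * ∏ l ∈ R \ S, α l = ∏ l ∈ S ∪ R, α l := by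
    rw [← Finset.prod_union (Finset.disjoint_sdiff), Finset.union_sdiff_self_eq_union]
  have h2 : (∏ l ∈ R, α l) * ∏ l ∈ S \ R, α l = ∏ l ∈ R ∪ S, α l := by
    rw [← Finset.prod_union (Finset.disjoint_sdiff), Finset.union_sdiff_self_eq_union]
  rw [h1, h2, Finset.union_comm]

lemma sum_eq_of_dominant {α : T → ℂ} {R : Finset T}
    (h : ∀ S : Finset T, S.card = R.card → S ≠ R → v (∏ l ∈ S, α l) < v (∏ l ∈ R, α l)) :
    v (esy α R.card) = v (∏ l ∈ R, α l) := by
  have hR : R ∈ powersetCard R.card (univ : Finset T) := by simp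
  rw [esy, ← Finset.add_sum_erase _ _ hR]
  by_cases h0 : (powersetCard R.card (univ : Finset T)).erase R = ∅
  · rw [h0, Finset.sum_empty, add_zero]
  · obtain ⟨S, hS⟩ := Finset.nonempty_iff_ne_empty.2 h0
    have hS' := Finset.mem_erase.1 hS
    have hpos : 0 < v (∏ l ∈ R, α l) :=
      lt_of_le_of_lt zero_le (h S (Finset.mem_powersetCard.1 hS'.2).2 hS'.1)
    refine Valuation.map_add_eq_of_lt_left v ?_
    refine Valuation.map_sum_lt v hpos.ne' fun S hS => ?_
    have hS' := Finset.mem_erase.1 hS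
    exact h S (Finset.mem_powersetCard.1 hS'.2).2 hS'.1

/-- The Newton polygon is above a convex polygon if the coefficients are. -/
theorem prod_le {α : T → ℂ} (hα : ∀ l, α l ≠ 0) {n : ℕ → ℕ} {q : ℂ} (hq0 : q ≠ 0) (hq : v q ≤ 1)
    (hn : ∀ j ≤ Fintype.card T, ∃ s : ℕ, ∀ r ≤ Fintype.card T, n j + s * r ≤ n r + s * j)
    (hc : ∀ r ≤ Fintype.card T, v (esy α r) ≤ v q ^ n r) (S : Finset T) :
    v (∏ l ∈ S, α l) ≤ v q ^ n S.card := by
  classical
  obtain ⟨s, hs⟩ := hn S.card (Finset.card_le_univ S)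
  have hq' : v q ≠ 0 := (Valuation.ne_zero_iff v).2 hq0
  set R : Finset T := univ.filter fun l => v q ^ s < v (α l) with hR
  have hpos : ∀ K : Finset T, 0 < v (∏ l ∈ K, α l) := fun K =>
    zero_lt_iff.2 ((Valuation.ne_zero_iff v).2 (Finset.prod_ne_zero_iff.2 fun l _ => hα l))
  have hRS : ∀ l ∈ R \ S, v q ^ s < v (α l) := fun l hl => by
    have := (Finset.mem_sdiff.1 hl).1
    rw [hR, Finset.mem_filter] at this
    exact this.2
  have hSR : ∀ (S : Finset T), ∀ l ∈ S \ R, v (α l) ≤ v q ^ s := fun S l hl => by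
    by_contra hcon
    exact (Finset.mem_sdiff.1 hl).2 (by rw [hR, Finset.mem_filter]; exact ⟨mem_univ _, not_le.1 hcon⟩)
  have hdom : v (esy α R.card) = v (∏ l ∈ R, α l) := by
    refine sum_eq_of_dominant v fun S' hS' hne => ?_
    have h1 : v (∏ l ∈ S', α l) * v (∏ l ∈ R \ S', α l) =
        v (∏ l ∈ R, α l) * v (∏ l ∈ S' \ R, α l) := by
      rw [← map_mul, ← map_mul, prod_exchange]
    have hcard : (R \ S').card = (S' \ R).card := by
      have h2 := Finset.card_sdiff_add_card_inter R S'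
      have h3 := Finset.card_sdiff_add_card_inter S' R
      rw [Finset.inter_comm] at h3
      omega
    have hne' : (R \ S').Nonempty := by
      rw [Finset.nonempty_iff_ne_empty]
      intro h0
      rw [Finset.sdiff_eq_empty_iff_subset] at h0
      exact hne (Finset.eq_of_subset_of_card_le h0 hS'.le).symm
    have h4 : (v q ^ s) ^ (R \ S').card < v (∏ l ∈ R \ S', α l) :=
      pow_lt_prod v hne' fun l hl => by
        have := (Finset.mem_sdiff.1 hl).1
        rw [hR, Finset.mem_filter] at this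
        exact this.2
    have h5 : v (∏ l ∈ S' \ R, α l) ≤ (v q ^ s) ^ (S' \ R).card := prod_le_pow v (hSR S')
    by_contra hcon
    push Not at hcon
    have h6 : v (∏ l ∈ R, α l) * v (∏ l ∈ R \ S', α l) ≤ v (∏ l ∈ R, α l) * v (∏ l ∈ S' \ R, α l) := by
      rw [← h1]
      gcongr
    have h7 := le_of_mul_le_mul_left h6 (hpos R)
    rw [hcard] at h4
    exact absurd (lt_of_lt_of_le h4 (h7.trans h5)) (lt_irrefl _)
  have hRc := hc R.card (Finset.card_le_univ R)
  rw [hdom] at hRc
  have h1 : v (∏ l ∈ S, α l) * v (∏ l ∈ R \ S, α l) =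
      v (∏ l ∈ R, α l) * v (∏ l ∈ S \ R, α l) := by
    rw [← map_mul, ← map_mul, prod_exchange]
  have h2 : (v q ^ s) ^ (R \ S).card ≤ v (∏ l ∈ R \ S, α l) :=
    pow_le_prod v fun l hl => (hRS l hl).le
  have h3 : v (∏ l ∈ S \ R, α l) ≤ (v q ^ s) ^ (S \ R).card := prod_le_pow v (hSR S)
  have h4 : v (∏ l ∈ S, α l) * (v q ^ s) ^ (R \ S).card ≤ v q ^ n R.card * (v q ^ s) ^ (S \ R).card := by
    calc v (∏ l ∈ S, α l) * (v q ^ s) ^ (R \ S).card ≤ v (∏ l ∈ S, α l) * v (∏ l ∈ R \ S, α l) := by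
          gcongr
      _ = v (∏ l ∈ R, α l) * v (∏ l ∈ S \ R, α l) := h1
      _ ≤ v q ^ n R.card * (v q ^ s) ^ (S \ R).card := by gcongr
  have h5 : v (∏ l ∈ S, α l) * v q ^ (s * R.card) ≤ v q ^ (n R.card + s * S.card) := by
    have h6 : R.card = (R \ S).card + (R ∩ S).card := (Finset.card_sdiff_add_card_inter R S).symm
    have h7 : S.card = (S \ R).card + (R ∩ S).card := by
      rw [Finset.inter_comm]; exact (Finset.card_sdiff_add_card_inter S R).symm
    have e1 : v q ^ (s * R.card) = (v q ^ s) ^ (R \ S).card * v q ^ (s * (R ∩ S).card) := by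
      rw [← pow_mul, ← pow_add, ← mul_add, ← h6]
    have e2 : v q ^ (n R.card + s * S.card) =
        v q ^ n R.card * (v q ^ s) ^ (S \ R).card * v q ^ (s * (R ∩ S).card) := by
      rw [← pow_mul, ← pow_add, ← pow_add, add_assoc, ← mul_add, ← h7]
    rw [e1, e2, ← mul_assoc]
    gcongr
  have h6 : v q ^ (n R.card + s * S.card) ≤ v q ^ (n S.card + s * R.card) :=
    pow_le_pow_right_of_le_one' hq (hs R.card (Finset.card_le_univ R))
  have h7 := h5.trans h6
  rw [pow_add _ (n S.card)] at h7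
  exact le_of_mul_le_mul_right h7 (zero_lt_iff.2 (pow_ne_zero _ hq'))

omit [Fintype T] in
lemma prod_union_inter' (α : T → ℂ) (S R : Finset T) :
    (∏ l ∈ S, α l) * ∏ l ∈ R, α l = (∏ l ∈ S ∪ R, α l) * ∏ l ∈ S ∩ R, α l :=
  (Finset.prod_union_inter).symm

/-- At a break of the polygon the products are strictly smaller if the coefficient is. -/
theorem prod_lt {α : T → ℂ} {n : ℕ → ℕ} {q : ℂ} (hq0 : q ≠ 0) (hq : v q < 1)
    (hle : ∀ S : Finset T, v (∏ l ∈ S, α l) ≤ v q ^ n S.card) {j : ℕ}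
    (hb : ∀ k, 1 ≤ k → k ≤ j → j + k ≤ Fintype.card T → 2 * n j + 1 ≤ n (j + k) + n (j - k))
    (hc : v (esy α j) < v q ^ n j) (S : Finset T) (hS : S.card = j) :
    v (∏ l ∈ S, α l) < v q ^ n j := by
  have hq' : v q ≠ 0 := (Valuation.ne_zero_iff v).2 hq0
  rcases (hle S).lt_or_eq with h | h
  · rwa [hS] at h
  · exfalso
    rw [hS] at h
    have hdom : v (esy α S.card) = v (∏ l ∈ S, α l) := by
      refine sum_eq_of_dominant v fun R hR hne => ?_
      have h1 : v (∏ l ∈ S, α l) * v (∏ l ∈ R, α l) =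
          v (∏ l ∈ S ∪ R, α l) * v (∏ l ∈ S ∩ R, α l) := by
        rw [← map_mul, ← map_mul, prod_union_inter']
      have hk : (S ∪ R).card = j + (R \ S).card := by
        rw [← Finset.union_sdiff_self_eq_union, Finset.card_union_of_disjoint Finset.disjoint_sdiff, hS]
      have hk2 : (S ∩ R).card + (R \ S).card = j := by
        rw [Finset.inter_comm, add_comm, Finset.card_sdiff_add_card_inter, hR, hS]
      have hk1 : 1 ≤ (R \ S).card := by
        rw [Nat.one_le_iff_ne_zero, Ne, Finset.card_eq_zero, Finset.sdiff_eq_empty_iff_subset]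
        intro h0
        exact hne (Finset.eq_of_subset_of_card_le h0 hR.ge)
      have h2 := hb (R \ S).card hk1 (by omega) (by rw [← hk]; exact Finset.card_le_univ _)
      have h3 : v (∏ l ∈ S, α l) * v (∏ l ∈ R, α l) ≤ v q ^ (2 * n j + 1) := by
        rw [h1]
        calc v (∏ l ∈ S ∪ R, α l) * v (∏ l ∈ S ∩ R, α l)
            ≤ v q ^ n (S ∪ R).card * v q ^ n (S ∩ R).card := by
              gcongr
              · exact hle _
              · exact hle _
          _ = v q ^ (n (j + (R \ S).card) + n (j - (R \ S).card)) := by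
              rw [← pow_add, hk]
              congr 3
              omega
          _ ≤ v q ^ (2 * n j + 1) := pow_le_pow_right_of_le_one' hq.le h2
      rw [h, show 2 * n j + 1 = n j + (n j + 1) by ring, pow_add] at h3
      have h4 := le_of_mul_le_mul_left h3 (zero_lt_iff.2 (pow_ne_zero _ hq'))
      refine lt_of_le_of_lt h4 ?_
      rw [h, pow_succ]
      calc v q ^ n j * v q < v q ^ n j * 1 := by
            exact mul_lt_mul_of_pos_left hq (zero_lt_iff.2 (pow_ne_zero _ hq'))
        _ = v q ^ n j := mul_one _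
    rw [hS, h] at hdom
    exact absurd hc (by rw [hdom]; exact lt_irrefl _)

end

end Pool.Agent.Helper35.GT
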