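import Mathlib

/-!
# The decomposition of a space by the valuations of the eigenvalues
-/

set_option autoImplicit false

namespace Pool.Agent.Helper35.GT

open Finset Module Polynomial

section

variable {V : Type} [AddCommGroup V] [Module ℂ V] [FiniteDimensional ℂ V]
variable {Γ : Type*} [LinearOrderedCommGroupWithZero Γ] (v : Valuation ℂ Γ)
variable {T : Type} [Fintype T]

/-- the eigenvalues of valuation `t ^ s` -/
noncomputable def lam (α : T → ℂ) (t : Γ) (s : ℕ) : Finset ℂ := by
  classical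
  exact (univ.filter fun x => v (α x) = t ^ s).image α

lemma mem_lam {α : T → ℂ} {t : Γ} {s : ℕ} {μ : ℂ} :
    μ ∈ lam v α t s ↔ (∃ x, α x = μ) ∧ v μ = t ^ s := by
  classical
  unfold lam
  rw [Finset.mem_image]
  constructor
  · rintro ⟨x, hx, rfl⟩
    exact ⟨⟨x, rfl⟩, (Finset.mem_filter.1 hx).2⟩
  · rintro ⟨⟨x, rfl⟩, h⟩
    exact ⟨x, Finset.mem_filter.2 ⟨mem_univ _, h⟩, rfl⟩

/-- The sum of the generalized eigenspaces with eigenvalues of valuation `t ^ s`. -/
noncomputable def wSub (f : Module.End ℂ V) (α : T → ℂ) (t : Γ) (s : ℕ) : Submodule ℂ V :=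
  ⨆ μ ∈ lam v α t s, f.maxGenEigenspace μ

lemma finrank_biSup (f : Module.End ℂ V) (Λ : Finset ℂ) :
    finrank ℂ (⨆ μ ∈ Λ, f.maxGenEigenspace μ : Submodule ℂ V) =
      ∑ μ ∈ Λ, finrank ℂ (f.maxGenEigenspace μ) := by
  classical
  induction Λ using Finset.induction_on with
  | empty => simp
  | insert a Λ ha ih =>
    rw [Finset.sum_insert ha, ← ih, Finset.iSup_insert]
    have h1 := (f.independent_maxGenEigenspace).disjoint_biSup (x := a) (y := (Λ : Set ℂ)) (by simpa using ha)
    have h2 := Submodule.finrank_sup_add_finrank_inf_eq (f.maxGenEigenspace a)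
      (⨆ μ ∈ Λ, f.maxGenEigenspace μ)
    have h3 : f.maxGenEigenspace a ⊓ (⨆ μ ∈ Λ, f.maxGenEigenspace μ) = ⊥ := by
      have := h1.eq_bot
      simpa using this
    rw [h3, finrank_bot, add_zero] at h2
    exact h2

lemma rootMultiplicity_prod (α : T → ℂ) (μ : ℂ) [DecidableEq ℂ] :
    (∏ x, (X - C (α x))).rootMultiplicity μ = (univ.filter fun x => μ = α x).card := by
  rw [← Polynomial.count_roots]
  have h1 : (∏ x, (X - C (α x))) = ((univ.val.map α).map fun a => X - C a).prod := by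
    rw [Multiset.map_map]
    rfl
  rw [h1, Polynomial.roots_multiset_prod_X_sub_C, Multiset.count_map]
  rfl

variable {f : Module.End ℂ V} {α : T → ℂ} (hf : f.charpoly = ∏ x, (X - C (α x))) {t : Γ}

include hf in
lemma finrank_wSub (s : ℕ) :
    finrank ℂ (wSub v f α t s) = (univ.filter fun x => v (α x) = t ^ s).card := by
  classical
  unfold wSub
  rw [finrank_biSup]
  have h1 : ∀ μ ∈ lam v α t s, finrank ℂ (f.maxGenEigenspace μ) =
      ((univ.filter fun x => v (α x) = t ^ s).filter fun x => α x = μ).card := by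
    intro μ hμ
    rw [LinearMap.finrank_maxGenEigenspace_eq, hf, rootMultiplicity_prod]
    congr 1
    ext x
    simp only [Finset.mem_filter, Finset.mem_univ, true_and]
    constructor
    · rintro rfl
      exact ⟨(mem_lam v).1 hμ |>.2, rfl⟩
    · rintro ⟨_, h⟩
      exact h.symm
  rw [Finset.sum_congr rfl h1]
  symm
  refine Finset.card_eq_sum_card_fiberwise fun x hx => ?_
  exact (mem_lam v).2 ⟨⟨x, rfl⟩, (Finset.mem_filter.1 hx).2⟩

include hf in
lemma iSup_wSub (h : ∀ x, ∃ s, v (α x) = t ^ s) : ⨆ s, wSub v f α t s = ⊤ := by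
  classical
  rw [eq_top_iff, ← Module.End.iSup_maxGenEigenspace_eq_top f]
  refine iSup_le fun μ => ?_
  by_cases hμ : ∃ x, α x = μ
  · obtain ⟨x, rfl⟩ := hμ
    obtain ⟨s, hs⟩ := h x
    refine le_iSup_of_le s ?_
    exact le_iSup₂_of_le (f := fun μ (_ : μ ∈ lam v α t s) => f.maxGenEigenspace μ) (α x)
      ((mem_lam v).2 ⟨⟨x, rfl⟩, hs⟩) le_rfl
  · have h1 : finrank ℂ (f.maxGenEigenspace μ) = 0 := by
      rw [LinearMap.finrank_maxGenEigenspace_eq, hf, rootMultiplicity_prod, Finset.card_eq_zero,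
        Finset.filter_eq_empty_iff]
      exact fun x _ hx => hμ ⟨x, hx.symm⟩
    rw [Submodule.finrank_eq_zero.1 h1]
    exact bot_le

omit [FiniteDimensional ℂ V] in
lemma wSub_stable {s : ℕ} {x : V} (hx : x ∈ wSub v f α t s) : f x ∈ wSub v f α t s := by
  have h : wSub v f α t s ≤ (wSub v f α t s).comap f := by
    refine iSup₂_le fun μ hμ x hx => ?_
    have h1 := Module.End.mapsTo_maxGenEigenspace_of_comm (Commute.refl f) μ hx
    exact (le_iSup₂_of_le (f := fun μ (_ : μ ∈ lam v α t s) => f.maxGenEigenspace μ) μ hμ le_rfl :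
      f.maxGenEigenspace μ ≤ _) h1
  exact h hx

include hf in
lemma wSub_eigen {s : ℕ} {x : V} (hx : x ∈ wSub v f α t s) (hx0 : x ≠ 0) {c : ℂ} (hc : f x = c • x) :
    v c = t ^ s := by
  classical
  by_contra hcon
  have h1 : c ∉ lam v α t s := fun h => hcon ((mem_lam v).1 h).2
  have h2 := (f.independent_maxGenEigenspace).disjoint_biSup (x := c) (y := (lam v α t s : Set ℂ))
    (by simpa using h1)
  have h3 : x ∈ f.maxGenEigenspace c := by
    rw [Module.End.mem_maxGenEigenspace]
    refine ⟨1, ?_⟩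
    rw [pow_one, LinearMap.sub_apply, hc, LinearMap.smul_apply, Module.End.one_apply, sub_self]
  have h4 := h2.le_bot
  have h5 : x ∈ (⊥ : Submodule ℂ V) := h4 ⟨h3, by unfold wSub at hx; simpa using hx⟩
  exact hx0 ((Submodule.mem_bot ℂ).1 h5)

omit [FiniteDimensional ℂ V] in
lemma gen_orth {β : V →ₗ[ℂ] V →ₗ[ℂ] ℂ} {Q : ℂ} (hfβ : ∀ x y, β (f x) (f y) = Q * β x y) {c d : ℂ}
    (h : c * d ≠ Q) : ∀ (n a b : ℕ) (x y : V), a + b ≤ n → ((f - c • 1) ^ a) x = 0 →
      ((f - d • 1) ^ b) y = 0 → β x y = 0 := by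
  intro n
  induction n with
  | zero =>
    intro a b x y hab hx hy
    obtain rfl : a = 0 := by omega
    rw [pow_zero, Module.End.one_apply] at hx
    rw [hx, map_zero, LinearMap.zero_apply]
  | succ n ih =>
    intro a b x y hab hx hy
    rcases a with _ | a
    · rw [pow_zero, Module.End.one_apply] at hx
      rw [hx, map_zero, LinearMap.zero_apply]
    rcases b with _ | b
    · rw [pow_zero, Module.End.one_apply] at hy
      rw [hy, map_zero]
    have hx' : ((f - c • 1) ^ a) ((f - c • 1) x) = 0 := by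
      rwa [pow_succ, Module.End.mul_apply] at hx
    have hy' : ((f - d • 1) ^ b) ((f - d • 1) y) = 0 := by
      rwa [pow_succ, Module.End.mul_apply] at hy
    have e1 : f x = c • x + (f - c • 1) x := by
      rw [LinearMap.sub_apply, LinearMap.smul_apply, Module.End.one_apply]; abel
    have e2 : f y = d • y + (f - d • 1) y := by
      rw [LinearMap.sub_apply, LinearMap.smul_apply, Module.End.one_apply]; abel
    have i1 := ih a (b + 1) ((f - c • 1) x) y (by omega) hx' hy
    have i2 := ih (a + 1) b x ((f - d • 1) y) (by omega) hx hy'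
    have i3 := ih a b ((f - c • 1) x) ((f - d • 1) y) (by omega) hx' hy'
    have h1 := hfβ x y
    rw [e1, e2] at h1
    simp only [map_add, map_smul, LinearMap.add_apply, LinearMap.smul_apply, smul_eq_mul, i1, i2, i3,
      mul_zero, add_zero] at h1
    have h2 : (c * d - Q) * β x y = 0 := by linear_combination h1
    exact (mul_eq_zero.1 h2).resolve_left (sub_ne_zero.2 h)

omit [FiniteDimensional ℂ V] in
lemma wSub_orth {β : V →ₗ[ℂ] V →ₗ[ℂ] ℂ} {Q : ℂ} (hfβ : ∀ x y, β (f x) (f y) = Q * β x y) {w : ℕ}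
    (ht0 : t ≠ 0) (ht : t < 1) (hQ : v Q = t ^ w) {a b : ℕ} (hab : a + b ≠ w) {x y : V}
    (hx : x ∈ wSub v f α t a) (hy : y ∈ wSub v f α t b) : β x y = 0 := by
  have hcd : ∀ c ∈ lam v α t a, ∀ d ∈ lam v α t b, c * d ≠ Q := by
    intro c hc d hd h
    have h1 : v (c * d) = t ^ (a + b) := by
      rw [map_mul, ((mem_lam v).1 hc).2, ((mem_lam v).1 hd).2, pow_add]
    rw [h, hQ] at h1
    have h2 : StrictAnti fun n : ℕ => t ^ n := fun m n hmn =>
      pow_lt_pow_right_of_lt_one₀ (zero_lt_iff.2 ht0) ht hmn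
    exact hab (h2.injective h1).symm
  have h1 : ∀ c ∈ lam v α t a, ∀ x ∈ f.maxGenEigenspace c, ∀ y ∈ wSub v f α t b, β x y = 0 := by
    intro c hc x hx y hy
    have h2 : wSub v f α t b ≤ LinearMap.ker (β x) := by
      refine iSup₂_le fun d hd y hy => ?_
      obtain ⟨m, hm⟩ := (Module.End.mem_maxGenEigenspace f c x).1 hx
      obtain ⟨n, hn⟩ := (Module.End.mem_maxGenEigenspace f d y).1 hy
      exact gen_orth hfβ (hcd c hc d hd) (m + n) m n x y le_rfl hm hn
    exact h2 hy
  have h2 : wSub v f α t a ≤ LinearMap.ker (β.flip y) := by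
    refine iSup₂_le fun c hc x hx => ?_
    exact h1 c hc x hx y hy
  exact h2 hx

end

end Pool.Agent.Helper35.GT
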