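import Pool.Agent.Helper35.GT.Defs

/-!
# The polygon of the slopes
-/

set_option autoImplicit false

namespace Pool.Agent.Helper35.GT

open Pool.Agent.Helper48.SP Finset

variable {k : Blk}

lemma _root_.Pool.Agent.Helper48.SP.Blk.Ok.sym (hk : k.Ok) : IsSym k := ⟨hk.mono, hk.dual⟩

lemma nu_eq (k : Blk) (j : ℕ) : k.nu j = ∑ i : Fin k.dim, if (i : ℕ) < j then k.slope i else 0 := rfl

lemma nu_zero (k : Blk) : k.nu 0 = 0 := by
  rw [nu_eq]
  exact Finset.sum_eq_zero fun i _ => if_neg (Nat.not_lt_zero _)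

lemma card_lt {d r : ℕ} (hr : r ≤ d) : ∑ i : Fin d, (if (i : ℕ) < r then 1 else 0) = r := by
  rw [Finset.sum_boole, Nat.cast_id]
  have : (univ.filter fun i : Fin d => (i : ℕ) < r).card = (univ : Finset (Fin r)).card := by
    symm
    refine Finset.card_bij (fun i _ => Fin.castLE hr i) ?_ ?_ ?_
    · intro i _
      simp
    · intro i _ j _ h
      exact Fin.castLE_injective hr h
    · intro i hi
      exact ⟨⟨i, by simpa using hi⟩, mem_univ _, rfl⟩
  rw [this, card_univ, Fintype.card_fin]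

/-- The supporting line with slope `s` at `j`. -/
lemma nu_line {j s : ℕ} (hj : j ≤ k.dim) (h1 : ∀ i : Fin k.dim, (i : ℕ) < j → k.slope i ≤ s)
    (h2 : ∀ i : Fin k.dim, j ≤ (i : ℕ) → s ≤ k.slope i) {r : ℕ} (hr : r ≤ k.dim) :
    k.nu j + s * r ≤ k.nu r + s * j := by
  have e1 : s * r = ∑ i : Fin k.dim, if (i : ℕ) < r then s else 0 := by
    conv_lhs => rw [← card_lt hr, Finset.mul_sum]
    exact Finset.sum_congr rfl fun i _ => by split_ifs <;> simp
  have e2 : s * j = ∑ i : Fin k.dim, if (i : ℕ) < j then s else 0 := by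
    conv_lhs => rw [← card_lt hj, Finset.mul_sum]
    exact Finset.sum_congr rfl fun i _ => by split_ifs <;> simp
  rw [e1, e2, nu_eq, nu_eq, ← Finset.sum_add_distrib, ← Finset.sum_add_distrib]
  refine Finset.sum_le_sum fun i _ => ?_
  by_cases hij : (i : ℕ) < j <;> by_cases hir : (i : ℕ) < r
  · simp only [hij, hir, if_true]; exact le_rfl
  · simp only [hij, hir, if_true, if_false]; have := h1 i hij; omega
  · simp only [hij, hir, if_true, if_false]; have := h2 i (by omega); omega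
  · simp only [hij, hir, if_false]; exact le_rfl

lemma nu_support (hm : Monotone k.slope) {j : ℕ} (hj : j ≤ k.dim) :
    ∃ s : ℕ, ∀ r ≤ k.dim, k.nu j + s * r ≤ k.nu r + s * j := by
  rcases Nat.eq_zero_or_pos j with rfl | h0
  · exact ⟨0, fun r _ => by rw [nu_zero]; omega⟩
  · refine ⟨k.slope ⟨j - 1, by omega⟩, fun r hr => nu_line hj (fun i hi => hm ?_) (fun i hi => hm ?_) hr⟩
    · rw [Fin.le_def]; simp only; omega
    · rw [Fin.le_def]; simp only; omega

lemma nu_break (hm : Monotone k.slope) {j : ℕ} (hb : IsBreak k j) {a : ℕ} (h1 : 1 ≤ a) (ha : a ≤ j)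
    (hja : j + a ≤ k.dim) : 2 * k.nu j + 1 ≤ k.nu (j + a) + k.nu (j - a) := by
  obtain ⟨h0, h, hs⟩ := hb
  set s := k.slope ⟨j - 1, by omega⟩ with hs1
  set s' := k.slope ⟨j, h⟩ with hs2
  have e1 : k.nu j + s * (j - a) ≤ k.nu (j - a) + s * j :=
    nu_line h.le (fun i hi => hm (by rw [Fin.le_def]; simp only; omega))
      (fun i hi => hm (by rw [Fin.le_def]; simp only; omega)) (by omega)
  have e2 : k.nu j + s' * (j + a) ≤ k.nu (j + a) + s' * j :=
    nu_line h.le (fun i hi => hm (by rw [Fin.le_def]; simp only; omega))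
      (fun i hi => hm (by rw [Fin.le_def]; exact hi)) (by omega)
  have e3 : s * j = s * (j - a) + s * a := by rw [← Nat.mul_add, Nat.sub_add_cancel ha]
  have e4 : s' * (j + a) = s' * j + s' * a := Nat.mul_add _ _ _
  have e5 : (s + 1) * a ≤ s' * a := Nat.mul_le_mul_right a hs
  have e6 : (s + 1) * a = s * a + a := by ring
  omega

lemma nu_dim (hk : IsSym k) : 2 * k.nu k.dim = k.dim * k.wt := by
  have e1 : k.nu k.dim = ∑ i, k.slope i := by
    rw [nu_eq]
    exact Finset.sum_congr rfl fun i _ => if_pos i.2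
  have e2 : ∑ i : Fin k.dim, k.slope i.rev = ∑ i : Fin k.dim, k.slope i :=
    Equiv.sum_comp Fin.revPerm k.slope
  have e3 : ∑ i : Fin k.dim, k.slope i + ∑ i : Fin k.dim, k.slope i.rev = k.dim * k.wt := by
    rw [← Finset.sum_add_distrib, Finset.sum_congr rfl fun i _ => hk.dual i]
    simp
  rw [e2] at e3
  omega

lemma nu_le_half (hk : IsSym k) {j : ℕ} (hj : j ≤ k.dim) : 2 * k.nu j ≤ j * k.wt := by
  obtain ⟨s, hs⟩ := nu_support hk.mono hj
  have h1 := hs 0 (Nat.zero_le _)
  have h2 := hs k.dim le_rfl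
  have h3 := nu_dim hk
  rw [nu_zero] at h1
  simp only [Nat.mul_zero, Nat.add_zero, Nat.zero_add] at h1
  rcases Nat.eq_zero_or_pos k.dim with h0 | h0
  · have : j = 0 := by omega
    rw [this, nu_zero]; omega
  · obtain ⟨c, hc⟩ : ∃ c, k.dim = j + c := ⟨k.dim - j, by omega⟩
    have h4 : k.nu j + s * c ≤ k.nu k.dim := by
      rw [hc, Nat.mul_add] at h2
      rw [hc]
      omega
    -- nu j * c ≤ s j c ≤ j (nu d - nu j)
    have h5 : k.nu j * c ≤ s * j * c := Nat.mul_le_mul_right c h1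
    have h6 : j * (k.nu j + s * c) ≤ j * k.nu k.dim := Nat.mul_le_mul_left j h4
    have h7 : k.nu j * k.dim ≤ j * k.nu k.dim := by
      rw [hc, Nat.mul_add, ← hc]
      have : j * (k.nu j + s * c) = k.nu j * j + s * j * c := by ring
      omega
    have h8 : k.dim * (2 * k.nu j) ≤ k.dim * (j * k.wt) := by
      calc k.dim * (2 * k.nu j) = 2 * (k.nu j * k.dim) := by ring
        _ ≤ 2 * (j * k.nu k.dim) := by omega
        _ = j * (2 * k.nu k.dim) := by ring
        _ = k.dim * (j * k.wt) := by rw [h3]; ring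
    exact Nat.le_of_mul_le_mul_left h8 h0

lemma nu_lt_half (hk : IsSym k) {j : ℕ} (hb : IsBreak k j) : 2 * k.nu j + 1 ≤ j * k.wt := by
  have hb' := hb
  obtain ⟨h0, h, hs⟩ := hb
  set s := k.slope ⟨j - 1, by omega⟩ with hs1
  set s' := k.slope ⟨j, h⟩ with hs2
  have hm := hk.mono
  have h1 : k.nu j + s * 0 ≤ k.nu 0 + s * j :=
    nu_line h.le (fun i hi => hm (by rw [Fin.le_def]; simp only; omega))
      (fun i hi => hm (by rw [Fin.le_def]; simp only; omega)) (by omega)
  have h2 : k.nu j + s' * k.dim ≤ k.nu k.dim + s' * j :=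
    nu_line h.le (fun i hi => hm (by rw [Fin.le_def]; simp only; omega))
      (fun i hi => hm (by rw [Fin.le_def]; exact hi)) le_rfl
  have h3 := nu_dim hk
  rw [nu_zero] at h1
  simp only [Nat.mul_zero, Nat.add_zero, Nat.zero_add] at h1
  obtain ⟨c, hc⟩ : ∃ c, k.dim = j + c := ⟨k.dim - j, by omega⟩
  have hc0 : 0 < c := by omega
  have h4 : k.nu j + s' * c ≤ k.nu k.dim := by
    rw [hc, Nat.mul_add] at h2
    rw [hc]
    omega
  have h5 : k.nu j * c ≤ s * j * c := Nat.mul_le_mul_right c h1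
  have h6 : j * (k.nu j + s' * c) ≤ j * k.nu k.dim := Nat.mul_le_mul_left j h4
  have h7 : k.nu j * k.dim + 1 ≤ j * k.nu k.dim := by
    rw [hc, Nat.mul_add, ← hc]
    have e1 : j * (k.nu j + s' * c) = k.nu j * j + s' * j * c := by ring
    have e2 : (s + 1) * (j * c) ≤ s' * (j * c) := Nat.mul_le_mul_right _ hs
    have e3 : (s + 1) * (j * c) = s * j * c + j * c := by ring
    have e4 : s' * (j * c) = s' * j * c := by ring
    have e5 : 0 < j * c := Nat.mul_pos h0 hc0
    omega
  have h8 : k.dim * (2 * k.nu j) < k.dim * (j * k.wt) := by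
    calc k.dim * (2 * k.nu j) = 2 * (k.nu j * k.dim) := by ring
      _ < 2 * (j * k.nu k.dim) := by omega
      _ = j * (2 * k.nu k.dim) := by ring
      _ = k.dim * (j * k.wt) := by rw [h3]; ring
  exact Nat.lt_of_mul_lt_mul_left h8

end Pool.Agent.Helper35.GT
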