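import Pool.Agent.Helper35.GT.Iso
import Pool.Agent.Helper35.GT.Dec
import Pool.Agent.Helper35.GT.Nu

/-!
# One block: an isometry which makes a similitude diagonal for the slopes
-/

set_option autoImplicit false

namespace Pool.Agent.Helper35.GT

open Finset Module Polynomial Pool.Agent.Helper48.SP Matrix

variable (k : Blk)

/-- the value of the form at `(i, rev i)` -/
def eta (i : Fin k.dim) : ℂ := if Even k.wt then 1 else if i < i.rev then 1 else -1

/-- the sign of the form -/
def sgn : ℂ := if Even k.wt then 1 else -1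

/-- the matrix of the form -/
def jm : Matrix (Fin k.dim) (Fin k.dim) ℂ := Matrix.of fun i j => if j = i.rev then eta k i else 0

variable {k}

lemma eta_ne (i : Fin k.dim) : eta k i ≠ 0 := by
  unfold eta
  split_ifs <;> norm_num

lemma eta_sq (i : Fin k.dim) : eta k i * eta k i = 1 := by
  unfold eta
  split_ifs <;> norm_num

lemma rev_ne (hk : k.Ok) (hw : ¬ Even k.wt) (i : Fin k.dim) : i.rev ≠ i := by
  intro h
  have h1 := hk.even (Nat.not_even_iff_odd.1 hw)
  have h2 := congrArg Fin.val h
  rw [Fin.val_rev] at h2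
  obtain ⟨n, hn⟩ := h1
  have := i.2
  omega

lemma eta_rev (hk : k.Ok) (i : Fin k.dim) : eta k i.rev = sgn k * eta k i := by
  unfold eta sgn
  by_cases hw : Even k.wt
  · rw [if_pos hw, if_pos hw, if_pos hw, one_mul]
  · rw [if_neg hw, if_neg hw, if_neg hw, Fin.rev_rev]
    have h1 := rev_ne hk hw i
    rcases lt_trichotomy i i.rev with h | h | h
    · rw [if_pos h, if_neg (not_lt.2 h.le)]; norm_num
    · exact absurd h.symm h1
    · rw [if_pos h, if_neg (not_lt.2 h.le)]; norm_num

variable (k) in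
/-- the form -/
noncomputable def bf : (Fin k.dim → ℂ) →ₗ[ℂ] (Fin k.dim → ℂ) →ₗ[ℂ] ℂ :=
  LinearMap.mk₂ ℂ (fun x y => x ⬝ᵥ (jm k *ᵥ y)) (fun x y z => add_dotProduct x y _)
    (fun c x y => smul_dotProduct c x _) (fun x y z => by rw [mulVec_add, dotProduct_add])
    (fun c x y => by rw [mulVec_smul, dotProduct_smul])

lemma bf_apply (x y : Fin k.dim → ℂ) : bf k x y = x ⬝ᵥ (jm k *ᵥ y) := rfl

lemma jm_mulVec (y : Fin k.dim → ℂ) (i : Fin k.dim) : (jm k *ᵥ y) i = eta k i * y i.rev := by
  change ∑ j, jm k i j * y j = _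
  rw [Finset.sum_eq_single i.rev]
  · change (if i.rev = i.rev then eta k i else 0) * _ = _
    rw [if_pos rfl]
  · intro j _ hj
    change (if j = i.rev then eta k i else 0) * _ = _
    rw [if_neg hj, zero_mul]
  · intro h
    exact absurd (mem_univ _) h

lemma bf_sum (x y : Fin k.dim → ℂ) : bf k x y = ∑ i, x i * (eta k i * y i.rev) := by
  rw [bf_apply]
  exact Finset.sum_congr rfl fun i _ => by rw [jm_mulVec]

lemma bf_symm (hk : k.Ok) (x y : Fin k.dim → ℂ) : bf k y x = sgn k * bf k x y := by
  rw [bf_sum, bf_sum, Finset.mul_sum, ← Equiv.sum_comp Fin.revPerm]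
  refine Finset.sum_congr rfl fun i _ => ?_
  simp only [Fin.revPerm_apply, Fin.rev_rev]
  rw [eta_rev hk]
  ring

lemma bf_mul (A A' : Matrix (Fin k.dim) (Fin k.dim) ℂ) (i j : Fin k.dim) :
    (Aᵀ * jm k * A') i j = bf k (fun l => A l i) (fun l => A' l j) := by
  rw [bf_apply, Matrix.mul_assoc]
  rfl

lemma bf_mulVec {M : Matrix (Fin k.dim) (Fin k.dim) ℂ} {Q : ℂ} (hM : Mᵀ * jm k * M = Q • jm k)
    (x y : Fin k.dim → ℂ) : bf k (M *ᵥ x) (M *ᵥ y) = Q * bf k x y := by
  rw [bf_apply, bf_apply, ← Matrix.vecMul_transpose, ← Matrix.dotProduct_mulVec, Matrix.mulVec_mulVec,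
    Matrix.mulVec_mulVec, hM, Matrix.smul_mulVec, dotProduct_smul, smul_eq_mul]

lemma bf_nondeg {x : Fin k.dim → ℂ} (h : ∀ y, bf k x y = 0) : x = 0 := by
  funext i
  have h1 := h (Pi.single i.rev 1)
  rw [bf_sum, Finset.sum_eq_single i] at h1
  · rw [Pi.single_eq_same, mul_one] at h1
    exact (mul_eq_zero.1 h1).resolve_right (eta_ne i)
  · intro j _ hj
    rw [Pi.single_eq_of_ne fun h => hj (Fin.rev_injective h), mul_zero, mul_zero]
  · intro h
    exact absurd (mem_univ _) h

lemma jm_sq (hk : k.Ok) : jm k * jm k = sgn k • (1 : Matrix (Fin k.dim) (Fin k.dim) ℂ) := by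
  ext i j
  have h1 : (jm k * jm k) i j = (jm k *ᵥ (fun l => jm k l j)) i := rfl
  rw [h1, jm_mulVec, Matrix.smul_apply, Matrix.one_apply, smul_eq_mul]
  change eta k i * (if j = i.rev.rev then eta k i.rev else 0) = _
  rw [Fin.rev_rev]
  by_cases h : i = j
  · rw [if_pos h.symm, if_pos h, eta_rev hk, mul_one]
    linear_combination sgn k * eta_sq i
  · rw [if_neg (Ne.symm h), if_neg h, mul_zero, mul_zero]

lemma det_jm (hk : k.Ok) : (jm k).det ≠ 0 := by
  intro h
  have h1 := congrArg Matrix.det (jm_sq hk)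
  rw [Matrix.det_mul, h, zero_mul, Matrix.det_smul, Matrix.det_one, mul_one] at h1
  have h2 : sgn k ≠ 0 := by unfold sgn; split_ifs <;> norm_num
  exact pow_ne_zero _ h2 h1.symm

lemma det_iso (hk : k.Ok) {h : Matrix (Fin k.dim) (Fin k.dim) ℂ} (hh : hᵀ * jm k * h = jm k) :
    h.det = 1 ∨ h.det = -1 := by
  have h1 := congrArg Matrix.det hh
  rw [Matrix.det_mul, Matrix.det_mul, Matrix.det_transpose] at h1
  have h2 : (h.det - 1) * (h.det + 1) = 0 := by
    have h3 : (jm k).det * ((h.det - 1) * (h.det + 1)) = 0 := by linear_combination h1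
    exact (mul_eq_zero.1 h3).resolve_left (det_jm hk)
  rcases mul_eq_zero.1 h2 with h3 | h3
  · exact Or.inl (by linear_combination h3)
  · exact Or.inr (by linear_combination h3)

lemma det_symp (hk : k.Ok) (hw : ¬ Even k.wt) {h : Matrix (Fin k.dim) (Fin k.dim) ℂ}
    (hh : hᵀ * jm k * h = jm k) : h.det = 1 := by
  obtain ⟨n, hn⟩ := hk.even (Nat.not_even_iff_odd.1 hw)
  let ca : Fin n → Fin k.dim := fun a => ⟨a, by omega⟩
  have hca : ∀ a b, ca a = ca b → a = b := fun a b h => Fin.ext (Fin.mk.inj_iff.1 h)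
  have hlt : ∀ a, ca a < (ca a).rev := by
    intro a
    rw [Fin.lt_def, Fin.val_rev]
    have := a.2
    change (a : ℕ) < k.dim - (a + 1)
    omega
  have hne : ∀ a b, ca a ≠ (ca b).rev := by
    intro a b h
    have h1 := congrArg Fin.val h
    rw [Fin.val_rev] at h1
    have := a.2
    have := b.2
    change (a : ℕ) = k.dim - (b + 1) at h1
    omega
  let F : Fin n ⊕ Fin n → Fin k.dim := Sum.elim (fun a => (ca a).rev) ca
  have hF : Function.Bijective F := by
    rw [Fintype.bijective_iff_injective_and_card]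
    constructor
    · rintro (a | a) (b | b) hab
      · exact congrArg Sum.inl (hca a b (Fin.rev_injective hab))
      · exact absurd (Eq.symm hab) (hne b a)
      · exact absurd hab (hne a b)
      · exact congrArg Sum.inr (hca a b hab)
    · rw [Fintype.card_sum, Fintype.card_fin, Fintype.card_fin, hn]
  let e : Fin n ⊕ Fin n ≃ Fin k.dim := Equiv.ofBijective F hF
  have he1 : ∀ a, e (Sum.inl a) = (ca a).rev := fun a => rfl
  have he2 : ∀ a, e (Sum.inr a) = ca a := fun a => rfl
  have hJ : (jm k).submatrix e e = Matrix.J (Fin n) ℂ := by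
    ext x y
    rw [Matrix.submatrix_apply]
    change (if e y = (e x).rev then eta k (e x) else 0) = _
    unfold Matrix.J
    rcases x with a | a <;> rcases y with b | b
    · rw [he1, he1, Fin.rev_rev, if_neg fun h => hne a b h.symm, Matrix.fromBlocks_apply₁₁,
        Matrix.zero_apply]
    · rw [he1, he2, Fin.rev_rev, Matrix.fromBlocks_apply₁₂, Matrix.neg_apply, Matrix.one_apply]
      by_cases h : a = b
      · rw [if_pos (by rw [h]), if_pos h]
        unfold eta
        rw [if_neg hw, Fin.rev_rev, if_neg (not_lt.2 (hlt a).le)]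
      · rw [if_neg fun h' => h (hca _ _ h').symm, if_neg h, neg_zero]
    · rw [he1, he2, Matrix.fromBlocks_apply₂₁, Matrix.one_apply]
      by_cases h : a = b
      · rw [if_pos (by rw [h]), if_pos h]
        unfold eta
        rw [if_neg hw, if_pos (hlt a)]
      · rw [if_neg fun h' => h (hca _ _ (Fin.rev_injective h')).symm, if_neg h]
    · rw [he2, he2, if_neg (hne b a), Matrix.fromBlocks_apply₂₂, Matrix.zero_apply]
  have h1 : h.submatrix e e ∈ Matrix.symplecticGroup (Fin n) ℂ := by
    rw [SymplecticGroup.mem_iff', ← hJ, Matrix.transpose_submatrix, Matrix.submatrix_mul_equiv,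
      Matrix.submatrix_mul_equiv, hh]
  have h2 := SymplecticGroup.det_eq_one h1
  rwa [Matrix.det_submatrix_equiv_self] at h2

lemma rev_swap (a i : Fin k.dim) : Equiv.swap a a.rev i.rev = (Equiv.swap a a.rev i).rev := by
  have h := Fin.rev_injective.swap_apply a a.rev i
  rw [Fin.rev_rev] at h
  rw [← h, Equiv.swap_comm]

/-- correction of the determinant -/
lemma exists_det_one (hk : k.Ok) {W : ℕ → Submodule ℂ (Fin k.dim → ℂ)}
    (h : ∃ e : Fin k.dim → (Fin k.dim → ℂ), (∀ i, e i ∈ W (k.slope i)) ∧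
      ∀ i j, bf k (e i) (e j) = if j = i.rev then eta k i else 0) :
    ∃ h : Matrix (Fin k.dim) (Fin k.dim) ℂ, (∀ i, (fun l => h l i) ∈ W (k.slope i)) ∧
      hᵀ * jm k * h = jm k ∧ h.det = 1 := by
  obtain ⟨e, he1, he2⟩ := h
  let H : (Fin k.dim → (Fin k.dim → ℂ)) → Matrix (Fin k.dim) (Fin k.dim) ℂ := fun e =>
    Matrix.of fun l i => e i l
  have hH : ∀ e : Fin k.dim → (Fin k.dim → ℂ), (∀ i j, bf k (e i) (e j) =
      if j = i.rev then eta k i else 0) → (H e)ᵀ * jm k * (H e) = jm k := by
    intro e he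
    ext i j
    rw [bf_mul]
    exact he i j
  rcases det_iso hk (hH e he2) with hd | hd
  · exact ⟨H e, he1, hH e he2, hd⟩
  by_cases hw : Even k.wt
  · have heta : ∀ i, eta k i = 1 := fun i => by unfold eta; rw [if_pos hw]
    rcases Nat.even_or_odd k.dim with hev | hodd
    · rcases Nat.eq_zero_or_pos k.dim with h0 | h0
      · exfalso
        have : IsEmpty (Fin k.dim) := by rw [h0]; infer_instance
        rw [Matrix.det_isEmpty] at hd
        norm_num at hd
      · obtain ⟨n, hn⟩ := hev
        let a : Fin k.dim := ⟨n, by omega⟩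
        have har : (a.rev : ℕ) + 1 = (a : ℕ) := by
          rw [Fin.val_rev]
          change k.dim - (n + 1) + 1 = n
          omega
        have hne : a ≠ a.rev := fun h => by
          have := congrArg Fin.val h
          omega
        have h1 := hk.mid hw a.rev (by rw [Fin.rev_rev]; exact har)
        have h2 := hk.dual a
        have hsl : k.slope a.rev = k.slope a := by omega
        have hσ : ∀ i, k.slope (Equiv.swap a a.rev i) = k.slope i := by
          intro i
          rcases eq_or_ne i a with rfl | hi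
          · rw [Equiv.swap_apply_left, hsl]
          · rcases eq_or_ne i a.rev with rfl | hi'
            · rw [Equiv.swap_apply_right, hsl]
            · rw [Equiv.swap_apply_of_ne_of_ne hi hi']
        refine ⟨H (fun i => e (Equiv.swap a a.rev i)), ?_, ?_, ?_⟩
        · intro i
          have := he1 (Equiv.swap a a.rev i)
          rw [hσ] at this
          exact this
        · refine hH _ fun i j => ?_
          rw [he2, heta, heta]
          have h3 : (Equiv.swap a a.rev j = (Equiv.swap a a.rev i).rev) ↔ j = i.rev := by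
            rw [← rev_swap, (Equiv.swap a a.rev).injective.eq_iff]
          simp only [h3]
        · have h3 : H (fun i => e (Equiv.swap a a.rev i)) =
              (H e).submatrix id (Equiv.swap a a.rev) := rfl
          rw [h3, Matrix.det_permute', Equiv.Perm.sign_swap hne, hd]
          norm_num
    · refine ⟨H (fun i => - e i), ?_, ?_, ?_⟩
      · intro i
        exact (W (k.slope i)).neg_mem (he1 i)
      · refine hH _ fun i j => ?_
        rw [map_neg, map_neg, LinearMap.neg_apply, neg_neg, he2]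
      · have h3 : H (fun i => - e i) = - H e := rfl
        rw [h3, Matrix.det_neg, hd, Fintype.card_fin, hodd.neg_one_pow]
        norm_num
  · exact ⟨H e, he1, hH e he2, det_symp hk hw (hH e he2)⟩

/-- A similitude whose eigenvalues have the valuations given by the slopes is conjugate under a
proper isometry to a matrix which respects the slopes. -/
theorem block_iso (hk : k.Ok) {M : Matrix (Fin k.dim) (Fin k.dim) ℂ} {Q : ℂ}
    (hM : Mᵀ * jm k * M = Q • jm k) {Γ : Type*} [LinearOrderedCommGroupWithZero Γ]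
    (v : Valuation ℂ Γ) {T : Type} [Fintype T] {α : T → ℂ}
    (hα : M.charpoly = ∏ x, (X - C (α x))) {t : Γ} (ht0 : t ≠ 0) (ht : t < 1)
    (hQ : v Q = t ^ k.wt) (h1 : ∀ x, ∃ s, v (α x) = t ^ s)
    (h2 : ∀ s, (univ.filter fun x => v (α x) = t ^ s).card =
      (univ.filter fun i : Fin k.dim => k.slope i = s).card) :
    ∃ h h' M' : Matrix (Fin k.dim) (Fin k.dim) ℂ, h' * h = 1 ∧ hᵀ * jm k * h = jm k ∧ h.det = 1 ∧
      M * h = h * M' ∧ (∀ i j, k.slope i ≠ k.slope j → M' i j = 0) ∧
      ∀ (s : ℕ) (c : ℂ) (ξ : Fin k.dim → ℂ), ξ ≠ 0 → (∀ i, ξ i ≠ 0 → k.slope i = s) →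
        M' *ᵥ ξ = c • ξ → v c = t ^ s := by
  classical
  let f : Module.End ℂ (Fin k.dim → ℂ) := Matrix.toLin' M
  have hf : f.charpoly = ∏ x, (X - C (α x)) := by
    rw [← hα]
    exact Matrix.charpoly_toLin' M
  have hfβ : ∀ x y, bf k (f x) (f y) = Q * bf k x y := fun x y => by
    change bf k (Matrix.toLin' M x) (Matrix.toLin' M y) = _
    rw [Matrix.toLin'_apply, Matrix.toLin'_apply, bf_mulVec hM]
  have horth : ∀ a b, a + b ≠ k.wt → ∀ x ∈ wSub v f α t a, ∀ y ∈ wSub v f α t b, bf k x y = 0 :=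
    fun a b hab x hx y hy => wSub_orth v hfβ ht0 ht hQ hab hx hy
  obtain ⟨h, hh1, hh2, hh3⟩ := exists_det_one hk (W := fun s => wSub v f α t s) (by
    obtain ⟨e, he1, he2⟩ := exists_adapted (β := bf k) (ε := sgn k) (fun x y => bf_symm hk x y)
      (op := Fin.rev) Fin.rev_rev (η := eta k) eta_ne (eta_rev hk) (w := k.wt) (g := k.slope) hk.dual
      (univ : Finset (Fin k.dim)).card univ le_rfl (fun l _ => mem_univ _)
      (fun s => wSub v f α t s) horth
      (fun a x hx hx0 => by
        by_contra hcon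
        push Not at hcon
        refine hx0 (bf_nondeg fun y => ?_)
        have h3 : (⊤ : Submodule ℂ (Fin k.dim → ℂ)) ≤ LinearMap.ker (bf k x) := by
          rw [← iSup_wSub v hf h1]
          refine iSup_le fun b y hy => ?_
          by_cases hab : a + b = k.wt
          · exact hcon b hab y hy
          · exact horth a b hab x hx y hy
        exact h3 (Submodule.mem_top))
      (fun a => by rw [finrank_wSub v hf, h2])
    exact ⟨e, fun i => he1 i (mem_univ _), fun i j => he2 i (mem_univ _) j (mem_univ _)⟩)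
  have hu : IsUnit h.det := by rw [hh3]; exact isUnit_one
  have hinv : h⁻¹ * h = 1 := Matrix.nonsing_inv_mul h hu
  have hinv' : h * h⁻¹ = 1 := Matrix.mul_nonsing_inv h hu
  have hMh : M * h = h * (h⁻¹ * M * h) := by
    rw [← Matrix.mul_assoc, ← Matrix.mul_assoc, hinv', Matrix.one_mul]
  refine ⟨h, h⁻¹, h⁻¹ * M * h, hinv, hh2, hh3, hMh, ?_, ?_⟩
  · intro i j hij
    have e1 : jm k * (h⁻¹ * M * h) = hᵀ * jm k * (M * h) := by
      rw [hMh]
      calc jm k * (h⁻¹ * M * h) = (hᵀ * jm k * h) * (h⁻¹ * M * h) := by rw [hh2]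
        _ = hᵀ * jm k * (h * (h⁻¹ * M * h)) := by rw [Matrix.mul_assoc]
    have e2 : (jm k * (h⁻¹ * M * h)) i.rev j = eta k i.rev * (h⁻¹ * M * h) i j := by
      have e3 : (jm k * (h⁻¹ * M * h)) i.rev j =
          (jm k *ᵥ (fun l => (h⁻¹ * M * h) l j)) i.rev := rfl
      rw [e3, jm_mulVec, Fin.rev_rev]
    have e3 : (hᵀ * jm k * (M * h)) i.rev j = 0 := by
      rw [bf_mul]
      refine horth (k.slope i.rev) (k.slope j) ?_ _ (hh1 i.rev) _ ?_
      · intro h5
        have := hk.dual i
        omega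
      · have h5 : (fun l => (M * h) l j) = f (fun l => h l j) := by
          funext l
          change _ = (Matrix.toLin' M (fun l => h l j)) l
          rw [Matrix.toLin'_apply]
          rfl
        rw [h5]
        exact wSub_stable v (hh1 j)
    rw [e1, e3] at e2
    exact (mul_eq_zero.1 e2.symm).resolve_left (eta_ne _)
  · intro s c ξ hξ hsupp hc
    have h3 : h *ᵥ ξ ∈ wSub v f α t s := by
      have h4 : h *ᵥ ξ = ∑ i, ξ i • (fun l => h l i) := by
        funext l
        rw [Finset.sum_apply]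
        change ∑ i, h l i * ξ i = _
        exact Finset.sum_congr rfl fun i _ => by rw [Pi.smul_apply, smul_eq_mul, mul_comm]
      rw [h4]
      refine Submodule.sum_mem _ fun i _ => ?_
      by_cases h5 : ξ i = 0
      · rw [h5, zero_smul]; exact Submodule.zero_mem _
      · rw [← hsupp i h5]
        exact Submodule.smul_mem _ _ (hh1 i)
    have h4 : h *ᵥ ξ ≠ 0 := by
      intro h5
      have h6 := congrArg (fun x => h⁻¹ *ᵥ x) h5
      simp only [Matrix.mulVec_mulVec, hinv, Matrix.one_mulVec, Matrix.mulVec_zero] at h6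
      exact hξ h6
    refine wSub_eigen v hf h3 h4 ?_
    change Matrix.toLin' M (h *ᵥ ξ) = _
    rw [Matrix.toLin'_apply, Matrix.mulVec_mulVec, hMh, ← Matrix.mulVec_mulVec, hc,
      Matrix.mulVec_smul]

end Pool.Agent.Helper35.GT
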