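import Pool.Agent.Helper48.SP.Deg

/-!
# Systems of Frobenii, the Galois coniveau of the tensor powers, ordinary places

`V = ⊕ V_b`; the basis of `V` consists of the letters `(b, j)`, `j < dim b`; `V_b` has the weight
`wt b` and the Hodge slopes `slope 0 ≤ slope 1 ≤ ...`. An element of `V^(⊗ m)` is a function on the
words `Fin m → Ind k`.
-/

set_option autoImplicit false

namespace Pool.Agent.Helper35.GT

open Polynomial Pool.Agent.Helper48.SP Pool.Agent.Helper48.GC8

/-- The slopes of a block are in increasing order and symmetric. -/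
structure IsSym (k : Blk) : Prop where
  mono : Monotone k.slope
  dual : ∀ i, k.slope i + k.slope i.rev = k.wt

/-- A break of the polygon of the slopes of a block. -/
def IsBreak (k : Blk) (j : ℕ) : Prop :=
  ∃ (h0 : 0 < j) (h : j < k.dim), k.slope ⟨j - 1, by omega⟩ < k.slope ⟨j, h⟩

variable {B : Type} [Fintype B] [DecidableEq B]

open Classical in
/-- The letters `(b, j)` such that the polygon of the slopes of `V_b` has a break at `j`. -/
noncomputable def breaks (k : B → Blk) : Finset (Ind k) :=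
  Finset.univ.filter fun l => IsBreak (k l.1) l.2

/-- The sum of `j` over all breaks `(b, j)`. -/
noncomputable def sumLen (k : B → Blk) : ℕ := ∑ l ∈ breaks k, (l.2 : ℕ)

/-- The sum of `j * wt b` over all breaks `(b, j)`. -/
noncomputable def sumWt (k : B → Blk) : ℕ := ∑ l ∈ breaks k, (l.2 : ℕ) * (k l.1).wt

/-- The sum of `slope 0 + ... + slope (j - 1)` over all breaks `(b, j)`. -/
noncomputable def sumNu (k : B → Blk) : ℕ := ∑ l ∈ breaks k, (k l.1).nu l.2

/-- A Frobenius on `V`, with the number of elements of the residue field. -/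
abbrev Frob (k : B → Blk) : Type := ℕ × Matrix (Ind k) (Ind k) ℂ

/-- The matrix `M` on the tensor power `V^(⊗ m)`. -/
noncomputable def tensorPower {k : B → Blk} {m : ℕ} (M : Matrix (Ind k) (Ind k) ℂ)
    (u : (Fin m → Ind k) → ℂ) : (Fin m → Ind k) → ℂ := fun x => ∑ y, (∏ p, M (x p) (y p)) * u y

/-- `U ⊆ V^(⊗ m)` is a subrepresentation of degree `i` such that `U(ν)` is effective of weight
`i - 2ν`: `U` is stable under all Frobenii, and for every eigenvalue `β` of a Frobenius `(q, M)` on
`U` both `β / q ^ ν` and `q ^ (i - ν) / β = q ^ (i - 2ν) / (β / q ^ ν)` are algebraic integers. -/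
structure IsEffective {k : B → Blk} (𝓕 : Set (Frob k)) (m i ν : ℕ)
    (U : Submodule ℂ ((Fin m → Ind k) → ℂ)) : Prop where
  degree : ∀ u ∈ U, ∀ y, u y ≠ 0 → ∑ p, (k (y p).1).wt = i
  stable : ∀ z ∈ 𝓕, ∀ u ∈ U, tensorPower z.2 u ∈ U
  integral : ∀ z ∈ 𝓕, ∀ u ∈ U, u ≠ 0 → ∀ β : ℂ, tensorPower z.2 u = β • u →
    IsIntegral ℤ (β / (z.1 : ℂ) ^ ν) ∧ IsIntegral ℤ ((z.1 : ℂ) ^ (i - ν) / β)

/-- The Galois coniveau: the span of all subrepresentations `U` of degree `i` of `V^(⊗ m)` such that
`U(ν)` is effective of weight `i - 2ν`. -/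
noncomputable def galoisConiveau {k : B → Blk} (𝓕 : Set (Frob k)) (m i ν : ℕ) :
    Submodule ℂ ((Fin m → Ind k) → ℂ) := sSup {U | IsEffective 𝓕 m i ν U}

/-- The Hodge filtration of the tensor power: the tensors all of whose words have total slope at
least `ν`. -/
def hodgeFil (k : B → Blk) (m ν : ℕ) : Submodule ℂ ((Fin m → Ind k) → ℂ) where
  carrier := {u | ∀ y, u y ≠ 0 → ν ≤ ∑ p, sl (y p)}
  zero_mem' := fun y hy => absurd rfl hy
  add_mem' := by
    intro s t hs ht y hy
    by_cases h : s y = 0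
    · exact ht y fun h' => hy (by rw [Pi.add_apply, h, h', add_zero])
    · exact hs y h
  smul_mem' := by
    intro c t ht y hy
    exact ht y fun h' => hy (by rw [Pi.smul_apply, h', smul_zero])

/-- The characteristic polynomial of the matrix `M` on the block `V_b`. -/
noncomputable def blockPoly {k : B → Blk} (M : Matrix (Ind k) (Ind k) ℂ) (b : B) : ℂ[X] :=
  (M.submatrix (Sigma.mk b) (Sigma.mk b)).charpoly

/-- A system of Frobenii `(q, M)`. The residue fields have degree at most `f₀` over the prime fields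
(`f₀` is the degree of the number field); `M` respects the blocks; its eigenvalues on `V_b` have
absolute value `q ^ (wt b / 2)` (Deligne); its characteristic polynomial on `V_b` has integer
coefficients, and the coefficient of `T ^ (dim b - j)` is divisible by
`q ^ (slope 0 + ... + slope (j - 1))`: the Newton polygon is above the Hodge polygon (Mazur). -/
structure IsSystem {k : B → Blk} (f₀ : ℕ) (𝓕 : Set (Frob k)) : Prop where
  bounded : ∀ z ∈ 𝓕, ∃ p f : ℕ, p.Prime ∧ 1 ≤ f ∧ f ≤ f₀ ∧ z.1 = p ^ f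
  blocks : ∀ z ∈ 𝓕, ∀ l r : Ind k, l.1 ≠ r.1 → z.2 l r = 0
  pure : ∀ z ∈ 𝓕, ∀ b, ∀ α ∈ (blockPoly z.2 b).roots, ‖α‖ ^ 2 = (z.1 : ℝ) ^ (k b).wt
  above : ∀ z ∈ 𝓕, ∀ b, ∃ P : ℤ[X], P.map (Int.castRingHom ℂ) = blockPoly z.2 b ∧
    ∀ j ≤ (k b).dim, (z.1 : ℤ) ^ (k b).nu j ∣ P.coeff ((k b).dim - j)

/-- The Frobenius `(q, M)` is ordinary: at every break `j` of the Hodge polygon of every block `V_b`
the Newton polygon passes through the Hodge polygon, that is, the coefficient of `T ^ (dim b - j)` of
the characteristic polynomial of `M` on `V_b`, divided by `q ^ (slope 0 + ... + slope (j - 1))`, is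
prime to `q`. -/
def IsOrdinary {k : B → Blk} (z : Frob k) : Prop :=
  ∀ b j, IsBreak (k b) j → ∀ P : ℤ[X], P.map (Int.castRingHom ℂ) = blockPoly z.2 b →
    ∀ p : ℕ, p.Prime → p ∣ z.1 → ¬ ((p : ℤ) * (z.1 : ℤ) ^ (k b).nu j ∣ P.coeff ((k b).dim - j))

/-- The span of the tensors of degree `i` and the products of pieces of total value at least `ν`. -/
noncomputable def pieceConiveau (k : B → Blk) (m i ν : ℕ) :
    Submodule ℂ ((Fin m → Ind k) → ℂ) := D k (Fin m) ν ⊓ deg k (Fin m) i

/-- The alternating tensors in `V_b^(⊗ j)`, that is, `Λʲ V_b`. -/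
def altPart (k : B → Blk) (b : B) (j : ℕ) : Submodule ℂ ((Fin j → Ind k) → ℂ) where
  carrier := {t | IsAlt b t}
  zero_mem' := ⟨fun y hy => absurd rfl hy, fun y p q _ => by simp⟩
  add_mem' := by
    intro s t hs ht
    refine ⟨fun y hy p => ?_, fun y p q hpq => ?_⟩
    · by_cases h : s y = 0
      · exact ht.supp y (fun h' => hy (by rw [Pi.add_apply, h, h', add_zero])) p
      · exact hs.supp y h p
    · rw [Pi.add_apply, Pi.add_apply, hs.alt y p q hpq, ht.alt y p q hpq, neg_add]
  smul_mem' := by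
    intro c t ht
    refine ⟨fun y hy p => ?_, fun y p q hpq => ?_⟩
    · exact ht.supp y (fun h' => hy (by rw [Pi.smul_apply, h', smul_zero])) p
    · rw [Pi.smul_apply, Pi.smul_apply, ht.alt y p q hpq, smul_neg]

/-- A system of Frobenii with big monodromy: similitudes of the forms of all blocks, with the
multipliers `q ^ wt b`, and every polynomial in `q` and the entries of the Frobenius which vanishes
on `𝓕` vanishes at all `(c, M)` with `M` a proper similitude of the form of the block `b` with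
multiplier `c ^ wt b`, for all `b`. -/
structure IsBig {k : B → Blk} (𝓕 : Set (Frob k)) : Prop where
  similitude : ∀ z ∈ 𝓕, InGO k (z.1 : ℂ) z.2
  dense : ∀ f : MvPolynomial (Option (Ind k × Ind k)) ℂ,
    (∀ z ∈ 𝓕, MvPolynomial.eval (fun o => o.elim (z.1 : ℂ) (fun p => z.2 p.1 p.2)) f = 0) →
    ∀ (c : ℂ) (M : Matrix (Ind k) (Ind k) ℂ), InG k c M →
      MvPolynomial.eval (fun o => o.elim c (fun p => M p.1 p.2)) f = 0

/-- Properties of the geometric coniveau `N^ν` of degree `i` of the tensor powers of `V`: it is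
contained in the Galois coniveau (Deligne) and in the Hodge filtration, decreasing in `ν`, it is
everything for `ν = 0`, compatible with products (the factors in any order), and it contains the
invariant forms (algebraic classes). -/
structure IsGeometric {k : B → Blk} (𝓕 : Set (Frob k))
    (N : ∀ m : ℕ, ℕ → ℕ → Submodule ℂ ((Fin m → Ind k) → ℂ)) : Prop where
  galois : ∀ m i ν, N m i ν ≤ galoisConiveau 𝓕 m i ν
  hodge : ∀ m i ν, N m i ν ≤ hodgeFil k m ν
  mono : ∀ m i ν, N m i (ν + 1) ≤ N m i ν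
  zero : ∀ m i, deg k (Fin m) i ≤ N m i 0
  form : ∀ b, (fun y => frm k b (y 0) (y 1)) ∈ N 2 (2 * (k b).wt) (k b).wt
  prod : ∀ (l m n i j μ ν : ℕ) (e : Fin m ⊕ Fin n ≃ Fin l) (s : (Fin m → Ind k) → ℂ)
    (t : (Fin n → Ind k) → ℂ), s ∈ N m i μ → t ∈ N n j ν →
      (fun y => s (fun p => y (e (Sum.inl p))) * t (fun p => y (e (Sum.inr p)))) ∈
        N l (i + j) (μ + ν)

end Pool.Agent.Helper35.GT
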