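import Pool.Agent.Helper35.GT.Val

/-!
# The gap at a break of the polygon

`α l` are the roots of a monic polynomial, `q = p ^ f`. If the products of the roots are bounded by
`q ^ n r` and the coefficient at a break `j` is bounded by `p q ^ n j`, then the products `γ` of `j`
roots satisfy `γ ^ D ≤ q ^ (D n j + 1)` if `2 ≤ D` and `f ≤ D`.
-/

set_option autoImplicit false

namespace Pool.Agent.Helper35.GT

open Finset

variable {Γ : Type*} [LinearOrderedCommGroupWithZero Γ] (v : Valuation ℂ Γ)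

lemma int_le_one (z : ℤ) : v (z : ℂ) ≤ 1 := by
  induction z using Int.induction_on with
  | zero => simp
  | succ n ih =>
    push_cast at ih ⊢
    exact v.map_add_le ih (by rw [map_one])
  | pred n ih =>
    push_cast at ih ⊢
    exact v.map_sub_le ih (by rw [map_one])

theorem gap {T : Type*} [Fintype T] [DecidableEq T] {α : T → ℂ} {n : ℕ → ℕ} {q p : ℂ} {f j D : ℕ}
    (hqp : q = p ^ f) (hp : v p ≤ 1) (hle : ∀ S : Finset T, v (∏ l ∈ S, α l) ≤ v q ^ n S.card)
    (hb : ∀ k, 1 ≤ k → k ≤ j → j + k ≤ Fintype.card T → 2 * n j + 1 ≤ n (j + k) + n (j - k))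
    (hc : v (esy α j) ≤ v p * v q ^ n j) (h2 : 2 ≤ D) (hf : f ≤ D) (S : Finset T)
    (hS : S.card = j) : v (∏ l ∈ S, α l) ^ D ≤ (v q ^ n j) ^ D * v q := by
  classical
  have hq : v q ≤ 1 := by
    rw [hqp, map_pow]
    exact pow_le_one₀ zero_le hp
  obtain ⟨R, hR, hmax⟩ := Finset.exists_max_image (powersetCard j (univ : Finset T))
    (fun S => v (∏ l ∈ S, α l)) ⟨S, by simp [hS]⟩
  have hRj : R.card = j := (Finset.mem_powersetCard.1 hR).2
  have hg : v (∏ l ∈ R, α l) ≤ v q ^ n j := by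
    have := hle R
    rwa [hRj] at this
  refine (pow_le_pow_left₀ zero_le (hmax S (by simp [hS])) D).trans ?_
  by_cases huniq : ∀ S : Finset T, S.card = R.card → S ≠ R → v (∏ l ∈ S, α l) < v (∏ l ∈ R, α l)
  · have h1 := sum_eq_of_dominant v huniq
    rw [hRj] at h1
    rw [h1] at hc
    have h3 : v (∏ l ∈ R, α l) ^ f ≤ v q * (v q ^ n j) ^ f := by
      calc v (∏ l ∈ R, α l) ^ f ≤ (v p * v q ^ n j) ^ f := pow_le_pow_left₀ zero_le hc f
        _ = v q * (v q ^ n j) ^ f := by rw [mul_pow, ← map_pow, ← hqp]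
    calc v (∏ l ∈ R, α l) ^ D = v (∏ l ∈ R, α l) ^ f * v (∏ l ∈ R, α l) ^ (D - f) := by
          rw [← pow_add, Nat.add_sub_cancel' hf]
      _ ≤ (v q * (v q ^ n j) ^ f) * (v q ^ n j) ^ (D - f) :=
          mul_le_mul' h3 (pow_le_pow_left₀ zero_le hg _)
      _ = (v q ^ n j) ^ D * v q := by
          rw [mul_assoc, ← pow_add, Nat.add_sub_cancel' hf, mul_comm]
  · push Not at huniq
    obtain ⟨S', hS', hne, hge⟩ := huniq
    have h1 : v (∏ l ∈ R, α l) * v (∏ l ∈ S', α l) =
        v (∏ l ∈ R ∪ S', α l) * v (∏ l ∈ R ∩ S', α l) := by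
      rw [← map_mul, ← map_mul, prod_union_inter']
    have hk : (R ∪ S').card = j + (S' \ R).card := by
      rw [← Finset.union_sdiff_self_eq_union, Finset.card_union_of_disjoint Finset.disjoint_sdiff, hRj]
    have hk2 : (R ∩ S').card + (S' \ R).card = j := by
      rw [Finset.inter_comm, add_comm, Finset.card_sdiff_add_card_inter, hS', hRj]
    have hk1 : 1 ≤ (S' \ R).card := by
      rw [Nat.one_le_iff_ne_zero, Ne, Finset.card_eq_zero, Finset.sdiff_eq_empty_iff_subset]
      intro h0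
      exact hne (Finset.eq_of_subset_of_card_le h0 hS'.ge)
    have h3 := hb (S' \ R).card hk1 (by omega) (by rw [← hk]; exact Finset.card_le_univ _)
    have h4 : v (∏ l ∈ R, α l) ^ 2 ≤ v q ^ (2 * n j + 1) := by
      calc v (∏ l ∈ R, α l) ^ 2 ≤ v (∏ l ∈ R, α l) * v (∏ l ∈ S', α l) := by
            rw [pow_two]; exact mul_le_mul_right hge _
        _ = v (∏ l ∈ R ∪ S', α l) * v (∏ l ∈ R ∩ S', α l) := h1
        _ ≤ v q ^ n (R ∪ S').card * v q ^ n (R ∩ S').card := mul_le_mul' (hle _) (hle _)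
        _ = v q ^ (n (j + (S' \ R).card) + n (j - (S' \ R).card)) := by
            rw [← pow_add, hk]
            congr 3
            omega
        _ ≤ v q ^ (2 * n j + 1) := pow_le_pow_right_of_le_one' hq h3
    calc v (∏ l ∈ R, α l) ^ D = v (∏ l ∈ R, α l) ^ 2 * v (∏ l ∈ R, α l) ^ (D - 2) := by
          rw [← pow_add, Nat.add_sub_cancel' h2]
      _ ≤ v q ^ (2 * n j + 1) * (v q ^ n j) ^ (D - 2) :=
          mul_le_mul' h4 (pow_le_pow_left₀ zero_le hg _)
      _ = (v q ^ n j) ^ D * v q := by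
          have h5 : v q ^ (2 * n j + 1) = (v q ^ n j) ^ 2 * v q := by
            rw [pow_succ, ← pow_mul, mul_comm 2]
          rw [h5, mul_right_comm, ← pow_add, Nat.add_sub_cancel' h2]

end Pool.Agent.Helper35.GT
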