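import Pool.Agent.Helper48.SP.Terminal
import Pool.Agent.Helper48.SP.Stab
import Pool.Agent.Helper48.SP.Insr
import Pool.Agent.Helper48.SP.Kap
import Pool.Agent.Helper48.SP.Symm
import Pool.Agent.Helper48.GC8.Claim

/-!
# The stable subspaces with divisible eigenvalues are contained in the span of the products of pieces

The induction of `Helper48/SP/Induct.lean`, with the bound for the slopes of the words as a
hypothesis.
-/

set_option autoImplicit false

namespace Pool.Agent.Helper35.GT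

open Pool.Agent.Helper48 Pool.Agent.Helper48.SP Pool.Agent.Helper48.GC8 Polynomial

variable {B : Type} {k : B → Blk} [Fintype B] [DecidableEq B]

/-- The slopes of the words of the stable subspaces are bounded. -/
def Bound (𝓕 : Set (ℕ × Matrix (Ind k) (Ind k) ℂ)) : Prop :=
  ∀ (ι : Type) [Fintype ι] [DecidableEq ι] (U : Submodule ℂ (Ten ι (Ind k))) (t : ℕ),
    PW.Stab (InG k) U → PW.Good 𝓕 t U → ∀ u ∈ U, ∀ y, u y ≠ 0 → t ≤ ∑ p, sl (y p)

private lemma perp_stab77 {ι : Type} [Fintype ι] [DecidableEq ι] (hk : ∀ b, (k b).Ok) (t : ℕ)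
    {c : ℂ} {M : Matrix (Ind k) (Ind k) ℂ} (hM : InGO k c M) {v : Ten ι (Ind k)}
    (hv : v ∈ perp (D k ι t)) : rho Finset.univ M v ∈ perp (D k ι t) := by
  intro n hn
  rw [herm_rho]
  exact hv _ (D_stab hk t (hM.star hk) hn)

private lemma card_rest77 {ι : Type} [Fintype ι] [DecidableEq ι] (p q : ι) :
    Fintype.card {x : ι // x ≠ p ∧ x ≠ q} < Fintype.card ι :=
  Fintype.card_subtype_lt (x := p) fun h => h.1 rfl

private lemma step77 (hk : ∀ b, (k b).Ok) {𝓕 : Set (ℕ × Matrix (Ind k) (Ind k) ℂ)}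
    (h𝓕 : ∀ z ∈ 𝓕, InGO k (z.1 : ℂ) z.2) (H : Bound 𝓕) {ι : Type} [Fintype ι]
    [DecidableEq ι] (ih : ∀ (p q : ι), p ≠ q → ∀ (t : ℕ)
      (W : Submodule ℂ (Ten {x : ι // x ≠ p ∧ x ≠ q} (Ind k))), PW.Stab (InG k) W →
        PW.Good 𝓕 t W → W ≤ D k {x : ι // x ≠ p ∧ x ≠ q} t)
    (t : ℕ) (U : Submodule ℂ (Ten ι (Ind k))) (hst : PW.Stab (InG k) U)
    (hgood : PW.Good 𝓕 t U) : U ≤ D k ι t := by
  set N := D k ι t with hN
  set U1 := (U ⊔ N) ⊓ perp N with hU1
  have hU1st : PW.Stab (InG k) U1 := by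
    intro c M hg v hv
    refine ⟨?_, perp_stab77 hk t hg.toInGO hv.2⟩
    obtain ⟨u, hu, m, hm, rfl⟩ := Submodule.mem_sup.1 hv.1
    rw [map_add]
    exact Submodule.add_mem_sup (hst c M hg u hu) (D_stab hk t hg.toInGO hm)
  have hU1good : PW.Good 𝓕 t U1 := by
    intro z hz
    obtain ⟨Q, hQ1, hQ2⟩ := hgood z hz
    refine ⟨Q, hQ1, ?_⟩
    rintro v ⟨hv1, hv2⟩
    have h1 : aeval (rho Finset.univ z.2) Q v ∈ perp N :=
      aeval_mem _ _ (fun v hv => perp_stab77 hk t (h𝓕 z hz) hv) Q hv2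
    obtain ⟨u, hu, m, hm, rfl⟩ := Submodule.mem_sup.1 hv1
    have h2 : aeval (rho Finset.univ z.2) Q (u + m) ∈ N := by
      rw [map_add, hQ2 u hu, zero_add]
      exact aeval_mem _ _ (fun v hv => D_stab hk t (h𝓕 z hz) hv) Q hm
    exact eq_zero_of_mem_perp h2 h1
  have htr : ∀ u ∈ U1, ∀ (b : B) (p q : ι), p ≠ q → kap b p q u = 0 := by
    intro u hu b p q hpq
    have hmem : kap b p q u ∈ D k {x : ι // x ≠ p ∧ x ≠ q} (t - (k b).wt) := by
      by_cases hle : t ≤ (k b).wt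
      · rw [Nat.sub_eq_zero_of_le hle]
        exact D_top _
      have hlt : (t - (k b).wt) + (k b).wt = t := Nat.sub_add_cancel (Nat.le_of_not_le hle)
      refine ih p q hpq (t - (k b).wt) (U1.map (kap b p q)) ?_ ?_ ⟨u, hu, rfl⟩
      · rintro c M hg _ ⟨v, hv, rfl⟩
        refine ⟨(c ^ (k b).wt)⁻¹ • rho Finset.univ M v, U1.smul_mem _ (hU1st c M hg v hv), ?_⟩
        rw [map_smul, kap_rho b hpq hg.toInGO, smul_smul, inv_mul_cancel₀ (pow_ne_zero _ hg.ne),
          one_smul]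
      · intro z hz
        obtain ⟨Q, hQ1, hQ2⟩ := hU1good z hz
        have hz0 : (z.1 : ℂ) ≠ 0 := (h𝓕 z hz).ne
        refine ⟨Q.comp (C ((z.1 : ℂ) ^ (k b).wt) * X), ?_, ?_⟩
        · intro β hβ
          have h2 : Q.IsRoot ((z.1 : ℂ) ^ (k b).wt * β) := by
            simpa [Polynomial.IsRoot, eval_comp] using hβ
          have h3 := hQ1 _ h2
          have h4 : (z.1 : ℂ) ^ (k b).wt * β / (z.1 : ℂ) ^ t =
              β / (z.1 : ℂ) ^ (t - (k b).wt) := by
            have h5 : (z.1 : ℂ) ^ t = (z.1 : ℂ) ^ (t - (k b).wt) * (z.1 : ℂ) ^ (k b).wt := by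
              rw [← pow_add, hlt]
            rw [h5]
            field_simp
          rwa [h4] at h3
        · rintro _ ⟨v, hv, rfl⟩
          rw [← aeval_smul_end]
          rw [← aeval_semiconj (kap b p q) (rho Finset.univ z.2) _ (fun v => by
            rw [kap_rho b hpq (h𝓕 z hz)]; rfl)]
          rw [hQ2 v hv, map_zero]
    refine eq_zero_of_mem_perp hmem fun T hT => ?_
    rw [← herm_insr b hpq]
    exact hu.2 _ (D_mono (by omega) (insr_mem b hpq hT))
  have hzero : U1 = ⊥ := by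
    by_contra hne
    obtain ⟨v, hv, y, hy, T, hT, hTv⟩ := terminal hk hU1st hne htr
    exact hTv (hv.2 T (D_mono (H ι U1 t hU1st hU1good v hv y hy) hT))
  intro u hu
  obtain ⟨m, hm, hum⟩ := exists_decomp N u
  have h1 : u - m ∈ U1 :=
    ⟨Submodule.sub_mem _ (Submodule.mem_sup_left hu) (Submodule.mem_sup_right hm), hum⟩
  rw [hzero, Submodule.mem_bot, sub_eq_zero] at h1
  rw [h1]
  exact hm

theorem le_D_of_bound (hk : ∀ b, (k b).Ok) {𝓕 : Set (ℕ × Matrix (Ind k) (Ind k) ℂ)}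
    (h𝓕 : ∀ z ∈ 𝓕, InGO k (z.1 : ℂ) z.2) (H : Bound 𝓕) :
    ∀ (n : ℕ) (ι : Type) [Fintype ι] [DecidableEq ι], Fintype.card ι ≤ n →
      ∀ (t : ℕ) (U : Submodule ℂ (Ten ι (Ind k))), PW.Stab (InG k) U → PW.Good 𝓕 t U →
        U ≤ D k ι t := by
  intro n
  induction n with
  | zero =>
    intro ι _ _ hcard t U hst hgood
    refine step77 hk h𝓕 H (fun p q hpq => ?_) t U hst hgood
    have : IsEmpty ι := Fintype.card_eq_zero_iff.1 (Nat.le_zero.1 hcard)
    exact isEmptyElim p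
  | succ n ih =>
    intro ι _ _ hcard t U hst hgood
    refine step77 hk h𝓕 H (fun p q _ t' W h1 h2 => ?_) t U hst hgood
    exact ih _ (by have := card_rest77 p q; omega) t' W h1 h2

end Pool.Agent.Helper35.GT
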