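import Pool.Agent.Helper48.SP.Forms
import Pool.Agent.Helper48.SP.Deg
import Pool.Agent.Helper35.GT.Nu

/-!
# The words of the products of pieces
-/

set_option autoImplicit false

namespace Pool.Agent.Helper35.GT

open Finset Pool.Agent.Helper48.SP Pool.Agent.Helper48.GC8

lemma nu_le_sum {k : Blk} (hm : Monotone k.slope) (S : Finset (Fin k.dim)) :
    k.nu S.card ≤ ∑ i ∈ S, k.slope i := by
  classical
  have hj : S.card ≤ k.dim := by simpa using Finset.card_le_univ S
  rcases Nat.eq_zero_or_pos S.card with h0 | h0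
  · rw [h0, nu_zero]; exact Nat.zero_le _
  set j := S.card with hjd
  set s := k.slope ⟨j - 1, by omega⟩ with hs
  have e1 : s * j = ∑ i : Fin k.dim, if i ∈ S then s else 0 := by
    rw [Finset.sum_ite_mem, Finset.univ_inter, Finset.sum_const, smul_eq_mul, mul_comm, ← hjd]
  have e2 : s * j = ∑ i : Fin k.dim, if (i : ℕ) < j then s else 0 := by
    conv_lhs => rw [← card_lt hj, Finset.mul_sum]
    exact Finset.sum_congr rfl fun i _ => by split_ifs <;> simp
  have e3 : ∑ i ∈ S, k.slope i = ∑ i : Fin k.dim, if i ∈ S then k.slope i else 0 := by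
    rw [Finset.sum_ite_mem, Finset.univ_inter]
  have h1 : k.nu j + s * j ≤ ∑ i ∈ S, k.slope i + s * j := by
    nth_rewrite 1 [e1]
    rw [e2, e3, nu_eq, ← Finset.sum_add_distrib, ← Finset.sum_add_distrib]
    refine Finset.sum_le_sum fun i _ => ?_
    by_cases hij : (i : ℕ) < j <;> by_cases hiS : i ∈ S
    · simp only [hij, hiS, if_true]; exact le_rfl
    · simp only [hij, hiS, if_true, if_false]
      have : k.slope i ≤ s := hm (by rw [Fin.le_def]; simp only; omega)
      omega
    · simp only [hij, hiS, if_true, if_false]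
      have : s ≤ k.slope i := hm (by rw [Fin.le_def]; simp only; omega)
      omega
    · simp only [hij, hiS, if_false]; exact le_rfl
  omega

variable {B : Type} {k : B → Blk}

lemma isAlt_ne {S : Type} [DecidableEq S] {b : B} {t : Ten S (Ind k)} (ht : IsAlt b t)
    {y : S → Ind k} (hy : t y ≠ 0) {p q : S} (hpq : p ≠ q) : y p ≠ y q := by
  intro h
  have h1 := ht.alt y p q hpq
  have h2 : y ∘ Equiv.swap p q = y := by
    funext r
    rw [Function.comp_apply]
    rcases eq_or_ne r p with rfl | h3
    · rw [Equiv.swap_apply_left, h]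
    · rcases eq_or_ne r q with rfl | h4
      · rw [Equiv.swap_apply_right, h]
      · rw [Equiv.swap_apply_of_ne_of_ne h3 h4]
  rw [h2] at h1
  have h3 : t y = 0 := by
    have : (2 : ℂ) * t y = 0 := by rw [two_mul]; nth_rewrite 1 [h1]; ring
    exact (mul_eq_zero.1 this).resolve_left two_ne_zero
  exact hy h3

variable [DecidableEq B]

lemma piece_slope (hk : ∀ b, (k b).Ok) {S : Type} [Fintype S] [DecidableEq S]
    {t : Ten S (Ind k)} {v : ℕ} (h : IsPiece t v) {y : S → Ind k} (hy : t y ≠ 0) :
    v ≤ ∑ p, sl (y p) := by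
  classical
  rcases h with ⟨b, hb, rfl⟩ | ⟨b, p, q, hpq, hS, ht, rfl⟩
  · have h1 : ∀ p, ∃ i : Fin (k b).dim, y p = ⟨b, i⟩ := by
      intro p
      have h2 := hb.supp y hy p
      generalize y p = l at h2
      obtain ⟨b', i⟩ := l
      obtain rfl : b' = b := h2
      exact ⟨i, rfl⟩
    choose φ hφ using h1
    have hinj : Function.Injective φ := by
      intro p q hpq
      by_contra hne
      exact isAlt_ne hb hy hne (by rw [hφ, hφ, hpq])
    have h2 := nu_le_sum (hk b).mono (univ.map ⟨φ, hinj⟩)
    rw [Finset.card_map, Finset.card_univ, Finset.sum_map] at h2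
    refine h2.trans (le_of_eq (Finset.sum_congr rfl fun p _ => ?_))
    rw [hφ]
    rfl
  · rw [ht, frm_apply] at hy
    have h1 : (y p).1 = b ∧ y q = op (y p) := by
      by_contra hcon
      exact hy (if_neg hcon)
    have h2 : (univ : Finset S) = {p, q} := by
      ext r
      simpa using hS r
    rw [h2, Finset.sum_pair hpq, h1.2]
    have h3 := (hk (y p).1).dual (y p).2
    rw [← h1.1]
    exact le_of_eq h3.symm

/-- The words of the products of pieces of total value at least `ν` have slope at least `ν`. -/
theorem D_slope (hk : ∀ b, (k b).Ok) {ι : Type} [Fintype ι] [DecidableEq ι] {ν : ℕ}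
    {u : Ten ι (Ind k)} (hu : u ∈ D k ι ν) {y : ι → Ind k} (hy : u y ≠ 0) : ν ≤ ∑ p, sl (y p) := by
  have h : D k ι ν ≤
      { carrier := {u | ∀ y, u y ≠ 0 → ν ≤ ∑ p, sl (y p)}
        zero_mem' := fun y hy => absurd rfl hy
        add_mem' := by
          intro s t hs ht y hy
          by_cases h : s y = 0
          · exact ht y fun h' => hy (by rw [Pi.add_apply, h, h', add_zero])
          · exact hs y h
        smul_mem' := by
          intro c t ht y hy
          exact ht y fun h' => hy (by rw [Pi.smul_apply, h', smul_zero]) :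
        Submodule ℂ (Ten ι (Ind k)) } := by
    refine Submodule.span_le.2 ?_
    rintro T ⟨r, c, t, v, h1, h2, rfl⟩ y hy
    refine h2.trans ?_
    rw [← Finset.sum_fiberwise (s := univ) (g := c)]
    refine Finset.sum_le_sum fun a _ => ?_
    have h3 := piece_slope hk (h1 a) (Finset.prod_ne_zero_iff.1 hy a (mem_univ a))
    refine h3.trans (le_of_eq ?_)
    exact (Finset.sum_subtype (univ.filter fun p => c p = a) (fun p => by simp) fun p => sl (y p)).symm
  exact h hu y hy

end Pool.Agent.Helper35.GT
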