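import Pool.Agent.Helper35.GT.Part1

/-!
# The valuations of the eigenvalues of an ordinary Frobenius
-/

set_option autoImplicit false

namespace Pool.Agent.Helper35.GT

open Finset Polynomial Pool.Agent.Helper48.SP Pool.Agent.Helper48.GC8

lemma thr {k : Blk} (hm : Monotone k.slope) (s : ℕ) :
    ∃ j ≤ k.dim, ∀ i : Fin k.dim, (i : ℕ) < j ↔ k.slope i < s := by
  classical
  by_cases h : ∃ i : Fin k.dim, ¬ k.slope i < s
  · have hne : (univ.filter fun i : Fin k.dim => ¬ k.slope i < s).Nonempty := by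
      obtain ⟨i, hi⟩ := h
      exact ⟨i, Finset.mem_filter.2 ⟨mem_univ _, hi⟩⟩
    set i₀ := (univ.filter fun i : Fin k.dim => ¬ k.slope i < s).min' hne with hi₀
    have h1 : i₀ ∈ univ.filter fun i : Fin k.dim => ¬ k.slope i < s := Finset.min'_mem _ _
    refine ⟨i₀, i₀.is_lt.le, fun i => ⟨fun hi => ?_, fun hi => ?_⟩⟩
    · by_contra hcon
      have h2 : i₀ ≤ i := Finset.min'_le _ i (Finset.mem_filter.2 ⟨mem_univ _, hcon⟩)
      rw [Fin.le_def] at h2
      omega
    · by_contra hcon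
      have h2 : i₀ ≤ i := by rw [Fin.le_def]; omega
      exact (Finset.mem_filter.1 h1).2 (lt_of_le_of_lt (hm h2) hi)
  · push Not at h
    exact ⟨k.dim, le_rfl, fun i => ⟨fun _ => h i, fun _ => i.2⟩⟩

lemma thr_card {k : Blk} {s j : ℕ} (hj : j ≤ k.dim)
    (h : ∀ i : Fin k.dim, (i : ℕ) < j ↔ k.slope i < s) :
    (univ.filter fun i : Fin k.dim => k.slope i < s).card = j := by
  have h1 := card_lt (d := k.dim) hj
  rw [Finset.sum_boole, Nat.cast_id] at h1
  rw [← h1]
  congr 1
  ext i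
  simp only [Finset.mem_filter, Finset.mem_univ, true_and]
  exact (h i).symm

lemma nu_succ {k : Blk} {j : ℕ} (hj : j < k.dim) : k.nu (j + 1) = k.nu j + k.slope ⟨j, hj⟩ := by
  rw [nu_eq, nu_eq]
  rw [← Finset.add_sum_erase univ (fun i : Fin k.dim => if (i : ℕ) < j + 1 then k.slope i else 0)
      (mem_univ (⟨j, hj⟩ : Fin k.dim)),
    ← Finset.add_sum_erase univ (fun i : Fin k.dim => if (i : ℕ) < j then k.slope i else 0)
      (mem_univ (⟨j, hj⟩ : Fin k.dim))]
  beta_reduce
  rw [if_pos (Nat.lt_succ_self j), if_neg (lt_irrefl j), zero_add, add_comm]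
  congr 1
  refine Finset.sum_congr rfl fun i hi => ?_
  have h1 : (i : ℕ) ≠ j := fun h => (Finset.mem_erase.1 hi).1 (Fin.ext h)
  by_cases h2 : (i : ℕ) < j
  · rw [if_pos h2, if_pos (by omega)]
  · rw [if_neg h2, if_neg (by omega)]

section

variable {Γ : Type*} [LinearOrderedCommGroupWithZero Γ] {v : Valuation ℂ Γ}
variable {T : Type*} [Fintype T] [DecidableEq T] {k : Blk} {α : T → ℂ} {q : ℂ}

/-- The sets of the eigenvalues of large valuation. -/
lemma exists_level (hk : IsSym k) (hT : Fintype.card T = k.dim) (hq0 : q ≠ 0) (hq : v q < 1)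
    (hle : ∀ S : Finset T, v (∏ x ∈ S, α x) ≤ v q ^ k.nu S.card)
    (hbr : ∀ j, IsBreak k j → ∃ S : Finset T, S.card = j ∧ v (∏ x ∈ S, α x) = v q ^ k.nu j)
    (hend : v (∏ x, α x) = v q ^ k.nu k.dim) (s : ℕ) :
    ∃ S : Finset T, S.card = (univ.filter fun i : Fin k.dim => k.slope i < s).card ∧
      (∀ x ∈ S, ∃ s', s = s' + 1 ∧ v q ^ s' ≤ v (α x)) ∧ ∀ x, x ∉ S → v (α x) ≤ v q ^ s := by
  have hq' : v q ≠ 0 := (Valuation.ne_zero_iff v).2 hq0
  have hqp : ∀ n, 0 < v q ^ n := fun n => zero_lt_iff.2 (pow_ne_zero _ hq')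
  obtain ⟨j, hj, hjs⟩ := thr hk.mono s
  obtain ⟨S, hS, hSv⟩ : ∃ S : Finset T, S.card = j ∧ v (∏ x ∈ S, α x) = v q ^ k.nu j := by
    rcases Nat.eq_zero_or_pos j with rfl | h0
    · exact ⟨∅, rfl, by rw [nu_zero]; simp⟩
    · rcases Nat.lt_or_ge j k.dim with h1 | h1
      · refine hbr j ⟨h0, h1, ?_⟩
        have h2 := (hjs ⟨j - 1, by omega⟩).1 (by simp only; omega)
        have h3 : ¬ k.slope ⟨j, h1⟩ < s := fun h => absurd ((hjs ⟨j, h1⟩).2 h) (lt_irrefl j)
        omega
      · obtain rfl : j = k.dim := le_antisymm hj h1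
        exact ⟨univ, by rw [Finset.card_univ, hT], hend⟩
  refine ⟨S, by rw [thr_card hj hjs, hS], fun x hx => ?_, fun x hx => ?_⟩
  · have h0 : 0 < j := by rw [← hS]; exact Finset.card_pos.2 ⟨x, hx⟩
    have h2 := (hjs ⟨j - 1, by omega⟩).1 (by simp only; omega)
    obtain ⟨s', rfl⟩ : ∃ s', s = s' + 1 := ⟨s - 1, by omega⟩
    refine ⟨s', rfl, ?_⟩
    have h3 : v (∏ x ∈ S, α x) = v (α x) * v (∏ x ∈ S.erase x, α x) := by
      rw [← Finset.mul_prod_erase S α hx, map_mul]
    have h4 := hle (S.erase x)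
    rw [Finset.card_erase_of_mem hx, hS] at h4
    have h5 : k.nu j = k.nu (j - 1) + k.slope ⟨j - 1, by omega⟩ := by
      have := nu_succ (k := k) (j := j - 1) (by omega)
      rwa [Nat.sub_add_cancel h0] at this
    rw [h3, h5] at hSv
    have h6 : v q ^ (k.nu (j - 1) + k.slope ⟨j - 1, by omega⟩) ≤ v (α x) * v q ^ k.nu (j - 1) := by
      rw [← hSv]
      gcongr
    rw [pow_add, mul_comm] at h6
    have h7 := le_of_mul_le_mul_right h6 (hqp _)
    refine le_trans ?_ h7
    exact pow_le_pow_right_of_le_one' hq.le (by omega)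
  · have h1 : j < k.dim := by
      rcases Nat.lt_or_ge j k.dim with h1 | h1
      · exact h1
      · exfalso
        refine hx ?_
        have : S = univ := by
          rw [← Finset.card_eq_iff_eq_univ, hS, hT]
          omega
        rw [this]
        exact mem_univ x
    have h2 : ¬ k.slope ⟨j, h1⟩ < s := fun h => absurd ((hjs ⟨j, h1⟩).2 h) (lt_irrefl j)
    have h3 : v (∏ x ∈ insert x S, α x) = v (α x) * v (∏ x ∈ S, α x) := by
      rw [Finset.prod_insert hx, map_mul]
    have h4 := hle (insert x S)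
    rw [Finset.card_insert_of_notMem hx, hS, h3, hSv, nu_succ h1, pow_add, mul_comm] at h4
    have h5 := le_of_mul_le_mul_left h4 (hqp _)
    refine h5.trans ?_
    exact pow_le_pow_right_of_le_one' hq.le (by omega)

/-- The valuations of the roots are given by the slopes. -/
theorem roots_slopes (hk : IsSym k) (hT : Fintype.card T = k.dim) (hq0 : q ≠ 0) (hq : v q < 1)
    (hle : ∀ S : Finset T, v (∏ x ∈ S, α x) ≤ v q ^ k.nu S.card)
    (hbr : ∀ j, IsBreak k j → ∃ S : Finset T, S.card = j ∧ v (∏ x ∈ S, α x) = v q ^ k.nu j)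
    (hend : v (∏ x, α x) = v q ^ k.nu k.dim) :
    (∀ x, ∃ s, v (α x) = v q ^ s) ∧ ∀ s, (univ.filter fun x => v (α x) = v q ^ s).card =
      (univ.filter fun i : Fin k.dim => k.slope i = s).card := by
  have hq' : v q ≠ 0 := (Valuation.ne_zero_iff v).2 hq0
  have hlt : ∀ {a b : ℕ}, a < b → v q ^ b < v q ^ a := fun {a b} h =>
    pow_lt_pow_right_of_lt_one₀ (zero_lt_iff.2 hq') hq h
  choose S hS1 hS2 hS3 using exists_level hk hT hq0 hq hle hbr hend
  refine ⟨fun x => ?_, fun s => ?_⟩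
  · have h1 : ∃ s, x ∈ S s := by
      refine ⟨k.wt + 1, ?_⟩
      have : S (k.wt + 1) = univ := by
        rw [← Finset.card_eq_iff_eq_univ, hS1, hT]
        rw [Finset.filter_true_of_mem, Finset.card_univ, Fintype.card_fin]
        intro i _
        have := hk.dual i
        omega
      rw [this]
      exact mem_univ x
    classical
    have h2 := Nat.find_spec h1
    obtain ⟨s', hs', hle'⟩ := hS2 _ x h2
    have h3 : x ∉ S s' := Nat.find_min h1 (by omega)
    exact ⟨s', le_antisymm (hS3 s' x h3) hle'⟩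
  · have h1 : (univ.filter fun x => v (α x) = v q ^ s) = S (s + 1) \ S s := by
      ext x
      simp only [Finset.mem_filter, Finset.mem_univ, true_and, Finset.mem_sdiff]
      constructor
      · intro h
        constructor
        · by_contra hcon
          exact absurd (hS3 _ x hcon) (by rw [h]; exact not_le.2 (hlt (Nat.lt_succ_self s)))
        · intro hx
          obtain ⟨s', hs', h2⟩ := hS2 _ x hx
          exact absurd h2 (by rw [h]; exact not_le.2 (hlt (by omega)))
      · rintro ⟨h1, h2⟩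
        obtain ⟨s', hs', h3⟩ := hS2 _ x h1
        obtain rfl : s = s' := by omega
        exact le_antisymm (hS3 _ x h2) h3
    have h2 : S s ⊆ S (s + 1) := by
      intro x hx
      by_contra hcon
      obtain ⟨s', hs', h2⟩ := hS2 _ x hx
      have h3 := h2.trans (hS3 _ x hcon)
      exact absurd h3 (not_le.2 (hlt (by omega)))
    rw [h1, Finset.card_sdiff_of_subset h2, hS1, hS1]
    have h3 : (univ.filter fun i : Fin k.dim => k.slope i < s + 1) =
        (univ.filter fun i : Fin k.dim => k.slope i < s) ∪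
          (univ.filter fun i : Fin k.dim => k.slope i = s) := by
      ext i
      simp only [Finset.mem_filter, Finset.mem_univ, true_and, Finset.mem_union]
      omega
    rw [h3, Finset.card_union_of_disjoint, Nat.add_sub_cancel_left]
    rw [Finset.disjoint_filter]
    intro i _ h
    omega

end

lemma dvd_of_lt_one {Γ : Type*} [LinearOrderedCommGroupWithZero Γ] (v : Valuation ℂ Γ) {p : ℕ}
    (hp : p.Prime) (hv : v (p : ℂ) < 1) {z : ℤ} (hz : v (z : ℂ) < 1) : (p : ℤ) ∣ z := by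
  by_contra hcon
  have h1 : IsCoprime (p : ℤ) z := (Nat.prime_iff_prime_int.1 hp).coprime_iff_not_dvd.2 hcon
  obtain ⟨a, b, hab⟩ := h1
  have h2 : (1 : ℂ) = (a : ℂ) * (p : ℂ) + (b : ℂ) * (z : ℂ) := by exact_mod_cast hab.symm
  have h3 : v (1 : ℂ) < 1 := by
    rw [h2]
    refine v.map_add_lt ?_ ?_
    · rw [map_mul]
      exact lt_of_le_of_lt (mul_le_of_le_one_left' (int_le_one v a)) hv
    · rw [map_mul]
      exact lt_of_le_of_lt (mul_le_of_le_one_left' (int_le_one v b)) hz
  rw [map_one] at h3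
  exact lt_irrefl _ h3

/-- There is a valuation ring of `ℂ` in which the prime number `p` is not a unit. -/
lemma exists_val {p : ℕ} (hp : p.Prime) : ∃ A : ValuationSubring ℂ, A.valuation (p : ℂ) < 1 := by
  by_contra hcon
  push Not at hcon
  have h1 : IsIntegral ℤ ((p : ℂ)⁻¹) := by
    rw [isIntegral_iff]
    intro A
    rw [map_inv₀]
    have h2 := hcon A
    exact inv_le_one_of_one_le₀ h2
  have h2 : IsIntegral ℤ ((p : ℚ)⁻¹) := by
    have h3 : IsIntegral ℤ (algebraMap ℚ ℂ ((p : ℚ)⁻¹)) := by simpa using h1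
    exact (isIntegral_algebraMap_iff (algebraMap ℚ ℂ).injective).1 h3
  obtain ⟨n, hn⟩ := IsIntegrallyClosed.isIntegral_iff.1 h2
  have h3 : (n : ℚ) * p = 1 := by
    have hp0 : (p : ℚ) ≠ 0 := Nat.cast_ne_zero.2 hp.ne_zero
    have h4 : (n : ℚ) = (p : ℚ)⁻¹ := by simpa using hn
    rw [h4, inv_mul_cancel₀ hp0]
  have h4 : n * (p : ℤ) = 1 := by exact_mod_cast h3
  have h5 : (p : ℤ) ∣ 1 := ⟨n, by rw [mul_comm]; exact h4.symm⟩
  exact (Nat.prime_iff_prime_int.1 hp).not_isUnit (isUnit_of_dvd_one h5)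

variable {B : Type} [Fintype B] [DecidableEq B] {k : B → Blk} {f₀ : ℕ}

/-- The valuations of the eigenvalues of an ordinary Frobenius. -/
theorem ordinary_roots (hk : ∀ b, IsSym (k b)) {𝓕 : Set (Frob k)} (hs : IsSystem f₀ 𝓕) {z : Frob k}
    (hz : z ∈ 𝓕) (ho : IsOrdinary z) {b : B} {α : {x : Ind k // x.1 = b} → ℂ}
    (hα : blockPoly z.2 b = ∏ x, (X - C (α x))) {p : ℕ} (hp : p.Prime) (hpz : p ∣ z.1)
    {A : ValuationSubring ℂ} (hA : A.valuation (p : ℂ) < 1) :
    (∀ x, ∃ s, A.valuation (α x) = A.valuation (z.1 : ℂ) ^ s) ∧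
      ∀ s, (univ.filter fun x => A.valuation (α x) = A.valuation (z.1 : ℂ) ^ s).card =
        (univ.filter fun i : Fin (k b).dim => (k b).slope i = s).card := by
  classical
  obtain ⟨h1, h2, h3, h4⟩ := block_data hk hs hz hα
  obtain ⟨p', f, hp', hf1, -, hzp⟩ := hs.bounded z hz
  have hpp : p = p' := by
    rw [hzp] at hpz
    exact (Nat.prime_dvd_prime_iff_eq hp hp').1 (hp.dvd_of_dvd_pow hpz)
  subst hpp
  have hq0 : (z.1 : ℂ) ≠ 0 := by
    rw [hzp]; exact Nat.cast_ne_zero.2 (pow_ne_zero _ hp.ne_zero)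
  have hq0' : (z.1 : ℝ) ≠ 0 := by
    rw [hzp]; exact Nat.cast_ne_zero.2 (pow_ne_zero _ hp.ne_zero)
  have hq : A.valuation (z.1 : ℂ) < 1 := by
    rw [hzp]
    push_cast
    rw [map_pow]
    exact pow_lt_one₀ zero_le hA (by omega)
  have hT : Fintype.card {x : Ind k // x.1 = b} = (k b).dim := card_blk k b
  obtain ⟨P, hP, hdiv⟩ := hs.above z hz b
  have hesy : ∀ j ≤ (k b).dim, ∃ c : ℤ, P.coeff ((k b).dim - j) = (z.1 : ℤ) ^ (k b).nu j * c ∧
      esy α j = (-1) ^ j * c * (z.1 : ℂ) ^ (k b).nu j := by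
    intro j hj
    obtain ⟨c, hc⟩ := hdiv j hj
    refine ⟨c, hc, ?_⟩
    have h5 := coeff_prod α (k := j) (by rw [hT]; exact hj)
    rw [← hα, ← hP, coeff_map, hT, hc] at h5
    have h6 : esy α j = (-1) ^ j * ((-1) ^ j * ∑ t ∈ powersetCard j univ, ∏ a ∈ t, α a) := by
      rw [← mul_assoc, ← mul_pow]
      simp [esy]
    rw [h6, ← h5]
    simp only [eq_intCast, Int.cast_mul, Int.cast_pow, Int.cast_natCast]
    ring
  refine roots_slopes (hk b) hT hq0 hq (fun S => h4 S A) ?_ ?_
  · intro j hj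
    by_contra hcon
    push Not at hcon
    obtain ⟨c, hc1, hc2⟩ := hesy j hj.2.1.le
    have hpos : 0 < A.valuation (z.1 : ℂ) ^ (k b).nu j :=
      zero_lt_iff.2 (pow_ne_zero _ ((Valuation.ne_zero_iff _).2 hq0))
    have h5 : A.valuation (esy α j) < A.valuation (z.1 : ℂ) ^ (k b).nu j := by
      unfold esy
      refine Valuation.map_sum_lt _ hpos.ne' fun S hS => ?_
      have hSc : S.card = j := (Finset.mem_powersetCard.1 hS).2
      have h6 := h4 S A
      rw [hSc] at h6
      exact lt_of_le_of_ne h6 (hcon S hSc)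
    rw [hc2, map_mul, map_mul, map_pow, Valuation.map_neg, map_one, one_pow, one_mul, map_pow] at h5
    have h6 : A.valuation (c : ℂ) < 1 := by
      by_contra hc
      push Not at hc
      exact absurd h5 (not_lt.2 (le_mul_of_one_le_left' hc))
    obtain ⟨c', rfl⟩ := dvd_of_lt_one A.valuation hp hA h6
    exact ho b j hj P hP p hp hpz ⟨c', by rw [hc1]; ring⟩
  · obtain ⟨c, hc1, hc2⟩ := hesy (k b).dim le_rfl
    have h5 : esy α (k b).dim = ∏ x, α x := by
      unfold esy
      rw [← hT, ← Finset.card_univ, Finset.powersetCard_self, Finset.sum_singleton]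
    rw [h5] at hc2
    have h6 : ‖∏ x, α x‖ ^ 2 = ((z.1 : ℝ) ^ (k b).nu (k b).dim) ^ 2 := by
      rw [norm_prod, ← Finset.prod_pow, Finset.prod_congr rfl fun x _ => h2 x, Finset.prod_const,
        Finset.card_univ, hT, ← pow_mul, ← pow_mul, mul_comm, mul_comm _ 2, nu_dim (hk b)]
    have h7 : ‖∏ x, α x‖ = (z.1 : ℝ) ^ (k b).nu (k b).dim := by
      have h8 : (0 : ℝ) ≤ (z.1 : ℝ) ^ (k b).nu (k b).dim := by positivity
      exact (pow_left_inj₀ (norm_nonneg _) h8 two_ne_zero).1 h6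
    rw [hc2, norm_mul, norm_mul, norm_pow, norm_neg, norm_one, one_pow, one_mul, norm_pow,
      Complex.norm_natCast] at h7
    have h8 : ‖(c : ℂ)‖ = 1 := by
      have h9 : (z.1 : ℝ) ^ (k b).nu (k b).dim ≠ 0 := pow_ne_zero _ hq0'
      exact mul_right_cancel₀ h9 (h7.trans (one_mul _).symm)
    have h9 : c = 1 ∨ c = -1 := by
      rw [Complex.norm_intCast] at h8
      have h10 : |c| = 1 := by exact_mod_cast h8
      rcases abs_eq (zero_le_one) |>.1 h10 with h | h
      · exact Or.inl h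
      · exact Or.inr h
    rw [hc2, map_mul, map_mul, map_pow, Valuation.map_neg, map_one, one_pow, one_mul, map_pow]
    have h10 : A.valuation (c : ℂ) = 1 := by
      rcases h9 with rfl | rfl
      · simp
      · push_cast
        rw [Valuation.map_neg, map_one]
    rw [h10, one_mul]

end Pool.Agent.Helper35.GT
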