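import Pool.Agent.Helper35.GT.BlockIso
import Pool.Agent.Helper35.GT.Roots
import Pool.Agent.Helper48.GC8.Claim
import Pool.Agent.Helper48.PW.Dense

/-!
# An ordinary Frobenius bounds the slopes of the words of a stable subspace
-/

set_option autoImplicit false

namespace Pool.Agent.Helper35.GT

open Finset Module Polynomial Pool.Agent.Helper48.SP Pool.Agent.Helper48.GC8 Matrix

variable {B : Type} [Fintype B] [DecidableEq B] {k : B → Blk} {f₀ : ℕ}

/-- the block `b` of a matrix -/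
def blkM (M : Matrix (Ind k) (Ind k) ℂ) (b : B) : Matrix (Fin (k b).dim) (Fin (k b).dim) ℂ :=
  M.submatrix (fun i : Fin (k b).dim => (⟨b, i⟩ : Ind k)) (fun i : Fin (k b).dim => (⟨b, i⟩ : Ind k))

omit [Fintype B] in
lemma eq_blockDiagonal {M : Matrix (Ind k) (Ind k) ℂ} (hM : ∀ l r : Ind k, l.1 ≠ r.1 → M l r = 0) :
    M = Matrix.blockDiagonal' (blkM M) := by
  ext ⟨b, i⟩ ⟨b', j⟩
  by_cases h : b = b'
  · subst h
    rw [Matrix.blockDiagonal'_apply_eq]
    rfl
  · rw [Matrix.blockDiagonal'_apply_ne _ _ _ h]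
    exact hM _ _ h

omit [Fintype B] in
lemma blkM_diag (X : ∀ b, Matrix (Fin (k b).dim) (Fin (k b).dim) ℂ) (b : B) :
    blkM (Matrix.blockDiagonal' X : Matrix (Ind k) (Ind k) ℂ) b = X b := by
  ext i j
  exact Matrix.blockDiagonal'_apply_eq X b i j

/-- the blocks of the form of the block `b` -/
def fblk (k : B → Blk) (b : B) : ∀ b', Matrix (Fin (k b').dim) (Fin (k b').dim) ℂ := fun b' =>
  if b' = b then jm (k b') else 0

omit [Fintype B] in
lemma frm_eq (b : B) : frm k b = Matrix.blockDiagonal' (fblk k b) := by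
  ext ⟨b₁, i⟩ ⟨b₂, j⟩
  change (if b₁ = b ∧ (⟨b₂, j⟩ : Ind k) = ⟨b₁, i.rev⟩ then eps (⟨b₁, i⟩ : Ind k) else 0) = _
  by_cases h : b₁ = b₂
  · subst h
    rw [Matrix.blockDiagonal'_apply_eq]
    unfold fblk
    by_cases hb : b₁ = b
    · rw [if_pos hb]
      change _ = if j = i.rev then eta (k b₁) i else 0
      by_cases hj : j = i.rev
      · rw [if_pos ⟨hb, by rw [hj]⟩, if_pos hj]
        rfl
      · rw [if_neg fun h => hj (sigma_mk_injective (β := fun b => Fin (k b).dim) h.2), if_neg hj]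
    · rw [if_neg hb, if_neg fun h => hb h.1]
      rfl
  · rw [Matrix.blockDiagonal'_apply_ne _ _ _ h, if_neg]
    rintro ⟨-, h2⟩
    exact h (congrArg Sigma.fst h2).symm

lemma sim_iff {A : Matrix (Ind k) (Ind k) ℂ} (hA : ∀ l r : Ind k, l.1 ≠ r.1 → A l r = 0) (c : ℂ)
    (b : B) : Aᵀ * frm k b * A = c • frm k b ↔
      (blkM A b)ᵀ * jm (k b) * blkM A b = c • jm (k b) := by
  conv_lhs => rw [eq_blockDiagonal hA, frm_eq, Matrix.blockDiagonal'_transpose,
    ← Matrix.blockDiagonal'_mul, ← Matrix.blockDiagonal'_mul, ← Matrix.blockDiagonal'_smul,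
    Matrix.blockDiagonal'_inj]
  constructor
  · intro h
    have h1 := congrFun h b
    simp only [Pi.smul_apply] at h1
    unfold fblk at h1
    rw [if_pos rfl] at h1
    exact h1
  · intro h
    funext b'
    simp only [Pi.smul_apply]
    unfold fblk
    by_cases hb : b' = b
    · subst hb
      rw [if_pos rfl]
      exact h
    · rw [if_neg hb, Matrix.mul_zero, Matrix.zero_mul, smul_zero]

/-- the slopes and blocks of the letters -/
def gr (l : Ind k) : B × ℕ := (l.1, sl l)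

variable {ι : Type} [Fintype ι] [DecidableEq ι]

/-- the tensors all of whose words have slope `σ` -/
def sp (k : B → Blk) (ι : Type) [Fintype ι] (σ : ℕ) : Submodule ℂ (Ten ι (Ind k)) where
  carrier := {u | ∀ y, u y ≠ 0 → ∑ p, sl (y p) = σ}
  zero_mem' := fun y hy => absurd rfl hy
  add_mem' := by
    intro s t hs ht y hy
    by_cases h : s y = 0
    · exact ht y fun h' => hy (by rw [Pi.add_apply, h, h', add_zero])
    · exact hs y h
  smul_mem' := by
    intro c t ht y hy
    exact ht y fun h' => hy (by rw [Pi.smul_apply, h', smul_zero])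

/-- the component of slope `σ` -/
def spr (k : B → Blk) (ι : Type) [Fintype ι] (σ : ℕ) : Ten ι (Ind k) →ₗ[ℂ] Ten ι (Ind k) where
  toFun u := fun y => if ∑ p, sl (y p) = σ then u y else 0
  map_add' u v := by
    funext y
    simp only [Pi.add_apply]
    split_ifs <;> simp
  map_smul' c u := by
    funext y
    simp only [Pi.smul_apply, RingHom.id_apply]
    split_ifs <;> simp

omit [Fintype B] [DecidableEq B] [DecidableEq ι] in
lemma spr_apply (σ : ℕ) (u : Ten ι (Ind k)) (y : ι → Ind k) :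
    spr k ι σ u y = if ∑ p, sl (y p) = σ then u y else 0 := rfl

omit [Fintype B] [DecidableEq B] [DecidableEq ι] in
lemma spr_mem (σ : ℕ) (u : Ten ι (Ind k)) : spr k ι σ u ∈ sp k ι σ := by
  intro y hy
  rw [spr_apply] at hy
  by_contra hcon
  exact hy (if_neg hcon)

omit [Fintype B] [DecidableEq ι] in
lemma sl_word {M : Matrix (Ind k) (Ind k) ℂ} (hM : ∀ l r : Ind k, gr l ≠ gr r → M l r = 0)
    {x y : ι → Ind k} (h : ∏ p, M (x p) (y p) ≠ 0) : ∑ p, sl (x p) = ∑ p, sl (y p) := by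
  refine Finset.sum_congr rfl fun p _ => ?_
  have h1 : gr (x p) = gr (y p) := by
    by_contra hcon
    exact Finset.prod_ne_zero_iff.1 h p (mem_univ p) (hM _ _ hcon)
  exact congrArg Prod.snd h1

lemma spr_rho {M : Matrix (Ind k) (Ind k) ℂ} (hM : ∀ l r : Ind k, gr l ≠ gr r → M l r = 0) (σ : ℕ)
    (u : Ten ι (Ind k)) : spr k ι σ (rho Finset.univ M u) = rho Finset.univ M (spr k ι σ u) := by
  funext x
  rw [spr_apply, rho_univ_apply, rho_univ_apply]
  by_cases hx : ∑ p, sl (x p) = σ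
  · rw [if_pos hx]
    refine Finset.sum_congr rfl fun y _ => ?_
    by_cases h : ∏ p, M (x p) (y p) = 0
    · rw [h, zero_mul, zero_mul]
    · rw [spr_apply, if_pos ((sl_word hM h).symm.trans hx)]
  · rw [if_neg hx]
    symm
    refine Finset.sum_eq_zero fun y _ => ?_
    by_cases h : ∏ p, M (x p) (y p) = 0
    · rw [h, zero_mul]
    · rw [spr_apply, if_neg fun h' => hx ((sl_word hM h).trans h'), mul_zero]

lemma sp_rho {M : Matrix (Ind k) (Ind k) ℂ} (hM : ∀ l r : Ind k, gr l ≠ gr r → M l r = 0) {σ : ℕ}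
    {u : Ten ι (Ind k)} (hu : u ∈ sp k ι σ) : rho Finset.univ M u ∈ sp k ι σ := by
  have h1 : spr k ι σ u = u := by
    funext y
    rw [spr_apply]
    by_cases h : u y = 0
    · rw [h]; split_ifs <;> rfl
    · rw [if_pos (hu y h)]
  rw [← h1, ← spr_rho hM]
  exact spr_mem _ _

/-- The eigenvalues on a graded subspace are products along words which occur in it. -/
lemma eigen_word {M P P' T : Matrix (Ind k) (Ind k) ℂ} {ord : Ind k → ℕ} (hPP : P' * P = 1)
    (hMP : M * P = P * T) (hT : ∀ l r : Ind k, T l r ≠ 0 → l = r ∨ ord l < ord r)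
    {X : Submodule ℂ (Ten ι (Ind k))} (hX : ∀ u ∈ X, rho Finset.univ P' u ∈ X)
    {u : Ten ι (Ind k)} (hu : u ∈ X) (hu0 : u ≠ 0) {β : ℂ} (hβ : rho Finset.univ M u = β • u) :
    ∃ w ∈ X, ∃ y : ι → Ind k, w y ≠ 0 ∧ β = ∏ p, T (y p) (y p) := by
  classical
  have hPP' : P * P' = 1 := mul_eq_one_comm.1 hPP
  have hT' : P' * M = T * P' := by
    calc P' * M = P' * M * (P * P') := by rw [hPP', Matrix.mul_one]
      _ = P' * (M * P) * P' := by simp only [Matrix.mul_assoc]
      _ = P' * P * T * P' := by rw [hMP]; simp only [Matrix.mul_assoc]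
      _ = T * P' := by rw [hPP, Matrix.one_mul]
  set w := rho Finset.univ P' u with hw
  have hwm : w ∈ X := hX u hu
  have hw0 : w ≠ 0 := by
    intro h
    have h1 : rho (Finset.univ : Finset ι) P w = u := by
      rw [hw, ← Module.End.mul_apply, ← rho_mul, hPP', rho_one, Module.End.one_apply]
    rw [h, map_zero] at h1
    exact hu0 h1.symm
  have hwβ : rho Finset.univ T w = β • w := by
    rw [hw, ← Module.End.mul_apply, ← rho_mul, ← hT', rho_mul, Module.End.mul_apply, hβ, map_smul]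
  obtain ⟨y₁, hy₁⟩ : ∃ y, w y ≠ 0 := by
    by_contra hcon
    push Not at hcon
    exact hw0 (funext hcon)
  obtain ⟨y, hy, hmax⟩ := Finset.exists_max_image (univ.filter fun y => w y ≠ 0)
    (fun y => ∑ p, ord (y p)) ⟨y₁, Finset.mem_filter.2 ⟨mem_univ _, hy₁⟩⟩
  have hy0 : w y ≠ 0 := (Finset.mem_filter.1 hy).2
  refine ⟨w, hwm, y, hy0, ?_⟩
  have h1 := congrFun hwβ y
  rw [rho_univ_apply, Pi.smul_apply, smul_eq_mul, Finset.sum_eq_single y] at h1
  · exact (mul_right_cancel₀ hy0 h1).symm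
  · intro x _ hxy
    by_contra hne
    have h2 : w x ≠ 0 := right_ne_zero_of_mul hne
    have h3 : ∀ p, T (y p) (x p) ≠ 0 := fun p =>
      Finset.prod_ne_zero_iff.1 (left_ne_zero_of_mul hne) p (mem_univ p)
    have h4 : ∀ p, y p = x p ∨ ord (y p) < ord (x p) := fun p => hT _ _ (h3 p)
    obtain ⟨p₀, hp₀⟩ : ∃ p, x p ≠ y p := by
      by_contra hcon
      push Not at hcon
      exact hxy (funext hcon)
    have h5 : ∑ p, ord (y p) < ∑ p, ord (x p) := by
      refine Finset.sum_lt_sum (fun p _ => ?_) ⟨p₀, mem_univ _, ?_⟩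
      · rcases h4 p with h | h
        · rw [h]
        · exact h.le
      · rcases h4 p₀ with h | h
        · exact absurd h.symm hp₀
        · exact h
    exact absurd (hmax x (Finset.mem_filter.2 ⟨mem_univ _, h2⟩)) (not_le.2 h5)
  · intro h; exact absurd (mem_univ y) h

omit [Fintype B] [DecidableEq B] in
lemma charpoly_blk (M : Matrix (Ind k) (Ind k) ℂ) (b : B) : (blkM M b).charpoly = blockPoly M b := rfl

/-- The isometry of an ordinary Frobenius. -/
theorem exists_iso (hk : ∀ b, (k b).Ok) {𝓕 : Set (Frob k)} (hs : IsSystem f₀ 𝓕)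
    {z : Frob k} (hz : z ∈ 𝓕) (hG : InGO k (z.1 : ℂ) z.2) (ho : IsOrdinary z) :
    ∃ (A : ValuationSubring ℂ) (H H' M' : Matrix (Ind k) (Ind k) ℂ), A.valuation (z.1 : ℂ) < 1 ∧
      InG k 1 H ∧ H' * H = 1 ∧ z.2 * H = H * M' ∧ (∀ l r : Ind k, gr l ≠ gr r → M' l r = 0) ∧
      ∀ (l : Ind k) (c : ℂ) (ξ : Ind k → ℂ), ξ ≠ 0 → (∀ r, ξ r ≠ 0 → gr r = gr l) →
        M' *ᵥ ξ = c • ξ → A.valuation c = A.valuation (z.1 : ℂ) ^ sl l := by
  classical
  obtain ⟨p, f, hp, hf1, -, hzp⟩ := hs.bounded z hz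
  obtain ⟨A, hA⟩ := exists_val hp
  have hpz : p ∣ z.1 := by rw [hzp]; exact dvd_pow_self p (by omega)
  have hq0 : (z.1 : ℂ) ≠ 0 := hG.ne
  have hq : A.valuation (z.1 : ℂ) < 1 := by
    rw [hzp]
    push_cast
    rw [map_pow]
    exact pow_lt_one₀ zero_le hA (by omega)
  obtain ⟨P, P', T, ord, t1, t2, t3, t4, t5, t6⟩ :=
    tri (Sigma.fst : Ind k → B) z.2 (hs.blocks z hz)
  have hbp : ∀ b, (blkM z.2 b).charpoly = ∏ x : {x : Ind k // x.1 = b}, (X - C (T x.1 x.1)) := by
    intro b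
    rw [charpoly_blk, blockPoly_eq]
    exact t6 b
  have hroots := fun b => ordinary_roots (fun b => (hk b).sym) hs hz ho (b := b)
    (α := fun x : {x : Ind k // x.1 = b} => T x.1 x.1) (hbp b) hp hpz hA
  choose h h' M' h1 h2 h3 h4 h5 h6 using fun b => block_iso (hk b) (M := blkM z.2 b)
    ((sim_iff (hs.blocks z hz) _ b).1 (hG.sim b)) A.valuation (hbp b)
    ((Valuation.ne_zero_iff _).2 hq0) hq (by rw [map_pow]) (hroots b).1 (hroots b).2
  have hblk : ∀ X : (∀ b, Matrix (Fin (k b).dim) (Fin (k b).dim) ℂ), ∀ l r : Ind k, l.1 ≠ r.1 →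
      (Matrix.blockDiagonal' X : Matrix (Ind k) (Ind k) ℂ) l r = 0 := by
    rintro X ⟨b, i⟩ ⟨b', j⟩ hb
    exact Matrix.blockDiagonal'_apply_ne _ _ _ hb
  refine ⟨A, Matrix.blockDiagonal' h, Matrix.blockDiagonal' h', Matrix.blockDiagonal' M', hq, ?_, ?_,
    ?_, ?_, ?_⟩
  · refine ⟨⟨one_ne_zero, hblk h, fun b => ?_⟩, fun b => ?_⟩
    · rw [sim_iff (hblk h), blkM_diag, h2, one_pow, one_smul]
    · have e1 : ((Matrix.blockDiagonal' h : Matrix (Ind k) (Ind k) ℂ).submatrix (Sigma.mk b)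
          (Sigma.mk b)) = h b := blkM_diag h b
      rw [e1, h3, one_pow]
  · rw [← Matrix.blockDiagonal'_mul]
    have e1 : (fun b => h' b * h b) = 1 := funext h1
    rw [e1, Matrix.blockDiagonal'_one]
  · conv_lhs => rw [eq_blockDiagonal (hs.blocks z hz), ← Matrix.blockDiagonal'_mul]
    rw [← Matrix.blockDiagonal'_mul]
    congr 1
    exact funext h4
  · rintro ⟨b, i⟩ ⟨b', j⟩ hg
    by_cases hb : b = b'
    · subst hb
      rw [Matrix.blockDiagonal'_apply_eq]
      refine h5 b i j fun hsl => hg ?_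
      exact Prod.ext rfl hsl
    · exact Matrix.blockDiagonal'_apply_ne _ _ _ hb
  · rintro ⟨b, i₀⟩ c ξ hξ hsupp hc
    refine h6 b ((k b).slope i₀) c (fun j => ξ ⟨b, j⟩) ?_ ?_ ?_
    · intro h0
      apply hξ
      funext r
      by_contra hr
      have h7 := hsupp r hr
      have h8 : r.1 = b := congrArg Prod.fst h7
      obtain ⟨b', j⟩ := r
      obtain rfl : b' = b := h8
      exact hr (congrFun h0 j)
    · intro j hj
      exact congrArg Prod.snd (hsupp _ hj)
    · funext i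
      have h7 := congrFun hc ⟨b, i⟩
      have h8 : (Matrix.blockDiagonal' M' *ᵥ ξ) ⟨b, i⟩ = (M' b *ᵥ fun j => ξ ⟨b, j⟩) i := by
        change ∑ r : Ind k, (Matrix.blockDiagonal' M' : Matrix (Ind k) (Ind k) ℂ) ⟨b, i⟩ r * ξ r = ∑ j, M' b i j * ξ ⟨b, j⟩
        rw [Fintype.sum_sigma, Finset.sum_eq_single b]
        · exact Finset.sum_congr rfl fun j _ => by rw [Matrix.blockDiagonal'_apply_eq]
        · intro b' _ hb'
          exact Finset.sum_eq_zero fun j _ => by
            rw [Matrix.blockDiagonal'_apply_ne _ _ _ (Ne.symm hb'), zero_mul]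
        · intro h0
          exact absurd (mem_univ b) h0
      rw [← h8, h7]
      rfl

/-- An ordinary Frobenius bounds the slopes of the words of a stable subspace. -/
theorem slope_ge (hk : ∀ b, (k b).Ok) {𝓕 : Set (Frob k)} (hs : IsSystem f₀ 𝓕)
    (hG : ∀ z ∈ 𝓕, InGO k (z.1 : ℂ) z.2) (ho : ∃ z ∈ 𝓕, IsOrdinary z)
    {U : Submodule ℂ (Ten ι (Ind k))} (hU : Pool.Agent.Helper48.PW.Stab (InG k) U) {t : ℕ}
    (hg : Pool.Agent.Helper48.PW.Good 𝓕 t U) {u : Ten ι (Ind k)} (hu : u ∈ U) {y : ι → Ind k}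
    (hy : u y ≠ 0) : t ≤ ∑ p, sl (y p) := by
  classical
  obtain ⟨z, hz, hord⟩ := ho
  obtain ⟨A, H, H', M', hq, hH, hHH, hMH, hM', hval⟩ := exists_iso hk hs hz (hG z hz) hord
  obtain ⟨Q, hQ, hQU⟩ := hg z hz
  have hq0 : (z.1 : ℂ) ≠ 0 := (hG z hz).ne
  have hqv : A.valuation (z.1 : ℂ) ≠ 0 := (Valuation.ne_zero_iff _).2 hq0
  set σ := ∑ p, sl (y p) with hσ
  have h1 := hQU _ (hU 1 H hH u hu)
  have h2 : ∀ x, rho (Finset.univ : Finset ι) H (rho Finset.univ M' x) =
      rho Finset.univ z.2 (rho Finset.univ H x) := by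
    intro x
    rw [← Module.End.mul_apply, ← rho_mul, ← hMH, rho_mul, Module.End.mul_apply]
  have h3 : aeval (rho (Finset.univ : Finset ι) M') Q u = 0 := by
    have h4 := aeval_semiconj (rho (Finset.univ : Finset ι) H) (rho Finset.univ M')
      (rho Finset.univ z.2) h2 Q u
    rw [h1] at h4
    have h5 := congrArg (rho (Finset.univ : Finset ι) H') h4
    rwa [← Module.End.mul_apply, ← rho_mul, hHH, rho_one, Module.End.one_apply, map_zero] at h5
  have h4 : aeval (rho (Finset.univ : Finset ι) M') Q (spr k ι σ u) = 0 := by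
    have h5 := aeval_semiconj (spr k ι σ) (rho (Finset.univ : Finset ι) M') (rho Finset.univ M')
      (fun x => spr_rho hM' σ x) Q u
    rw [← h5, h3, map_zero]
  -- the subspace
  let K : Submodule ℂ (Ten ι (Ind k)) :=
    LinearMap.ker (aeval (rho (Finset.univ : Finset ι) M') Q) ⊓ sp k ι σ
  have hKst : ∀ x ∈ K, rho Finset.univ M' x ∈ K := by
    intro x hx
    refine ⟨?_, sp_rho hM' hx.2⟩
    change aeval (rho (Finset.univ : Finset ι) M') Q (rho Finset.univ M' x) = 0
    have h5 := aeval_semiconj (rho (Finset.univ : Finset ι) M') (rho (Finset.univ : Finset ι) M')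
      (rho Finset.univ M') (fun _ => rfl) Q x
    rw [← h5, show aeval (rho (Finset.univ : Finset ι) M') Q x = 0 from hx.1, map_zero]
  have hK0 : spr k ι σ u ∈ K := ⟨h4, spr_mem σ u⟩
  have hne : spr k ι σ u ≠ 0 := by
    intro h0
    have h5 := congrFun h0 y
    rw [spr_apply, if_pos hσ.symm] at h5
    exact hy h5
  have hnt : Nontrivial K := ⟨⟨⟨_, hK0⟩, 0, fun h => hne (congrArg Subtype.val h)⟩⟩
  obtain ⟨β, hβ⟩ := Module.End.exists_eigenvalue ((rho (Finset.univ : Finset ι) M').restrict hKst)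
  obtain ⟨x, hx⟩ := hβ.exists_hasEigenvector
  have hx0 : (x : Ten ι (Ind k)) ≠ 0 := fun h => hx.2 (Subtype.ext h)
  have hxβ : rho Finset.univ M' (x : Ten ι (Ind k)) = β • (x : Ten ι (Ind k)) :=
    congrArg Subtype.val hx.apply_eq_smul
  have hroot : Q.IsRoot β := by
    have h5 : aeval (rho (Finset.univ : Finset ι) M') Q (x : Ten ι (Ind k)) = Q.eval β • (x : Ten ι (Ind k)) :=
      Module.End.aeval_apply_of_hasEigenvector ⟨Module.End.mem_eigenspace_iff.2 hxβ, hx0⟩
    have h6 : aeval (rho (Finset.univ : Finset ι) M') Q (x : Ten ι (Ind k)) = 0 := x.2.1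
    rw [h6] at h5
    exact (smul_eq_zero.1 h5.symm).resolve_right hx0
  have hβt : A.valuation β ≤ A.valuation (z.1 : ℂ) ^ t := by
    have h5 := isIntegral_iff.1 (hQ β hroot) A
    rw [map_div₀, map_pow] at h5
    exact (div_le_one₀ (zero_lt_iff.2 (pow_ne_zero _ hqv))).1 h5
  -- the triangular form
  obtain ⟨P, P', T, ord, t1, t2, t3, t4, t5, t6⟩ := tri (gr : Ind k → B × ℕ) M' hM'
  obtain ⟨w, hw, y', hy', hβy⟩ := eigen_word t1 t2 (fun l r h => (t5 l r h).2)
    (X := sp k ι σ) (fun u hu => sp_rho t4 hu) x.2.2 hx0 hxβ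
  have hTval : ∀ l, A.valuation (T l l) = A.valuation (z.1 : ℂ) ^ sl l := by
    intro l
    set N := M'.submatrix (Subtype.val : {x // gr x = gr l} → Ind k) Subtype.val with hN
    have h5 : (Matrix.toLin' N).charpoly.IsRoot (T l l) := by
      rw [Matrix.charpoly_toLin', t6 (gr l), IsRoot, eval_prod]
      exact Finset.prod_eq_zero (mem_univ (⟨l, rfl⟩ : {x // gr x = gr l})) (by simp)
    obtain ⟨ζ, hζ⟩ :=
      ((Module.End.hasEigenvalue_iff_isRoot_charpoly _ _).2 h5).exists_hasEigenvector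
    have h6 : N *ᵥ ζ = T l l • ζ := by
      have := hζ.apply_eq_smul
      rwa [Matrix.toLin'_apply] at this
    refine hval l (T l l) (fun r => if h : gr r = gr l then ζ ⟨r, h⟩ else 0) ?_ ?_ ?_
    · intro h0
      apply hζ.2
      funext r
      have h7 := congrFun h0 r.1
      simp only [dif_pos r.2] at h7
      exact h7
    · intro r hr
      by_contra hcon
      exact hr (dif_neg hcon)
    · funext r
      rw [Pi.smul_apply, smul_eq_mul]
      change ∑ r', M' r r' * (if h : gr r' = gr l then ζ ⟨r', h⟩ else 0) = _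
      by_cases hr : gr r = gr l
      · rw [dif_pos hr]
        rw [sum_fiber gr (gr l) _ fun r' hr' => by rw [dif_neg hr', mul_zero]]
        have h7 := congrFun h6 ⟨r, hr⟩
        rw [Pi.smul_apply, smul_eq_mul] at h7
        rw [← h7]
        refine Finset.sum_congr rfl fun r' _ => ?_
        rw [dif_pos r'.2]
        rfl
      · rw [dif_neg hr, mul_zero]
        refine Finset.sum_eq_zero fun r' _ => ?_
        by_cases hr' : gr r' = gr l
        · rw [hM' r r' fun h => hr (h.trans hr'), zero_mul]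
        · rw [dif_neg hr', mul_zero]
  have hβσ : A.valuation β = A.valuation (z.1 : ℂ) ^ σ := by
    rw [hβy, map_prod, Finset.prod_congr rfl fun p _ => hTval (y' p), Finset.prod_pow_eq_pow_sum,
      hw y' hy']
  rw [hβσ] at hβt
  by_contra hcon
  push Not at hcon
  exact absurd hβt (not_le.2 (pow_lt_pow_right_of_lt_one₀ (zero_lt_iff.2 hqv) hq hcon))

end Pool.Agent.Helper35.GT
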