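import Pool.Agent.Helper35.GT.Part1b
import Pool.Agent.Helper35.GT.Slope
import Pool.Agent.Helper35.GT.Induct
import Pool.Agent.Helper35.GT.Piece
import Pool.Agent.Helper48.SP.EffGen

/-!
# Big monodromy: the Galois coniveau, the span of the products of pieces, the geometric coniveau
-/

set_option autoImplicit false

namespace Pool.Agent.Helper35.GT

open Polynomial Pool.Agent.Helper48.SP Pool.Agent.Helper48.GC8 Finset

variable {B : Type} [Fintype B] [DecidableEq B]

variable {k : B → Blk} {𝓕 : Set (Frob k)} {f₀ : ℕ}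

/-- The exterior powers of the blocks are effective after the twist by the sum of the slopes. -/
theorem alt_effective (hk : ∀ b, IsSym (k b)) (hs : IsSystem f₀ 𝓕) (b : B) (j : ℕ) :
    IsEffective 𝓕 j (j * (k b).wt) ((k b).nu j) (altPart k b j) := by
  classical
  have hmem : ∀ t, t ∈ altPart k b j ↔ t ∈ gAlt k (fun _ : Fin j => ()) (fun _ => b) := by
    intro t
    constructor
    · intro ht
      exact ⟨fun y hy p => ht.supp y hy p, fun y p q hpq _ => ht.alt y p q hpq⟩
    · intro ht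
      exact ⟨fun y hy p => ht.1 y hy p, fun y p q hpq => ht.2 y p q hpq rfl⟩
  refine ⟨?_, ?_, ?_⟩
  · intro u hu y hy
    have hu' : IsAlt b u := hu
    rw [Finset.sum_congr rfl fun p _ => by rw [hu'.supp y hy p], Finset.sum_const, Finset.card_univ,
      Fintype.card_fin, smul_eq_mul]
  · intro z hz u hu
    rw [tensorPower_eq, hmem]
    exact gAlt_stab (hs.blocks z hz) ((hmem u).1 hu)
  · intro z hz u hu hu0 β hβ
    rw [tensorPower_eq] at hβ
    obtain ⟨P, P', T, ord, h1, h2, h3, h4, h5, h6⟩ :=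
      tri (Sigma.fst : Ind k → B) z.2 (hs.blocks z hz)
    obtain ⟨y, hy1, hy2, hy3⟩ := gAlt_eigen h1 h2 h4 h5 ((hmem u).1 hu) hu0 hβ
    set α : Ind k → ℂ := fun l => T l l with hα
    have hbp : blockPoly z.2 b = ∏ x : {x : Ind k // x.1 = b}, (X - C (α x.1)) := by
      rw [blockPoly_eq]
      exact h6 b
    obtain ⟨d1, d2, d3, d4⟩ := block_data hk hs hz (α := fun x : {x : Ind k // x.1 = b} => α x.1) hbp
    obtain ⟨p, f, hp, hf1, -, hzp⟩ := hs.bounded z hz
    have hq0 : (z.1 : ℂ) ≠ 0 := by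
      rw [hzp]; exact Nat.cast_ne_zero.2 (pow_ne_zero _ hp.ne_zero)
    have hprod : β = ∏ x ∈ lets (fun _ : Fin j => ()) (fun _ => b) y (), α x.1 := by
      rw [hy1, prod_lets (c := fun _ : Fin j => ()) (blk := fun _ => b) hy2 hy3 α]
      simp
    have hcard : (lets (fun _ : Fin j => ()) (fun _ => b) y ()).card = j := by
      rw [lets_card (c := fun _ : Fin j => ()) (blk := fun _ => b) hy2 hy3]
      simp
    have hj : j ≤ (k b).dim := by
      rw [← hcard, ← card_blk k b]
      exact Finset.card_le_univ _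
    have hint : IsIntegral ℤ (β / (z.1 : ℂ) ^ (k b).nu j) := by
      rw [isIntegral_iff]
      intro A
      rw [map_div₀, map_pow]
      have h7 : 0 < A.valuation (z.1 : ℂ) ^ (k b).nu j :=
        zero_lt_iff.2 (pow_ne_zero _ ((Valuation.ne_zero_iff _).2 hq0))
      rw [div_le_one₀ h7, hprod]
      have h8 := d4 (lets (fun _ : Fin j => ()) (fun _ => b) y ()) A
      rwa [hcard] at h8
    refine ⟨hint, ?_⟩
    have hnorm : ‖β‖ ^ 2 = (z.1 : ℝ) ^ (j * (k b).wt) := by
      rw [hy1, norm_prod, ← Finset.prod_pow, Finset.prod_congr rfl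
        (g := fun _ => (z.1 : ℝ) ^ (k b).wt) fun p _ => d2 ⟨y p, hy2 p⟩, Finset.prod_const,
        Finset.card_univ, Fintype.card_fin, ← pow_mul, mul_comm]
    have hνi : (k b).nu j ≤ j * (k b).wt := by
      have := nu_le_half (hk b) hj
      omega
    have hconj : (z.1 : ℂ) ^ (j * (k b).wt - (k b).nu j) / β =
        (starRingEnd ℂ) (β / (z.1 : ℂ) ^ (k b).nu j) := by
      have hβ0 : β ≠ 0 := by
        intro h
        rw [h, norm_zero] at hnorm
        have : (z.1 : ℝ) ^ (j * (k b).wt) ≠ 0 := pow_ne_zero _ (by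
          rw [hzp]; exact Nat.cast_ne_zero.2 (pow_ne_zero _ hp.ne_zero))
        exact this (by rw [← hnorm]; norm_num)
      have h7 : β * (starRingEnd ℂ) β = (z.1 : ℂ) ^ (j * (k b).wt) := by
        rw [Complex.mul_conj, Complex.normSq_eq_norm_sq, hnorm]
        push_cast
        rfl
      rw [map_div₀, map_pow, Complex.conj_natCast, div_eq_div_iff hβ0 (pow_ne_zero _ hq0), ← pow_add,
        Nat.sub_add_cancel hνi, ← h7, mul_comm]
    rw [hconj]
    exact hint.map (starRingEnd ℂ).toIntAlgHom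

theorem piece_effective (hk : ∀ b, (k b).Ok) (hs : IsSystem f₀ 𝓕) (h : IsBig 𝓕) (m i ν : ℕ) :
    IsEffective 𝓕 m i ν (pieceConiveau k m i ν) where
  degree u hu := hu.2
  stable z hz u hu := by
    rw [tensorPower_eq]
    refine ⟨D_stab hk ν (h.similitude z hz) hu.1, ?_⟩
    exact deg_stab (h.similitude z hz) hu.2
  integral z hz u hu h0 β hβ := by
    rw [tensorPower_eq] at hβ
    refine eigen_D_gen hk (Nat.cast_ne_zero.1 (h.similitude z hz).ne) (h.similitude z hz)
      (fun b j t ht ht0 β hβ => ?_) hu.1 hu.2 h0 hβ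
    refine (alt_effective (fun b => (hk b).sym) hs b j).integral z hz t ht ht0 β ?_
    rw [tensorPower_eq]
    exact hβ

theorem galois_le (hk : ∀ b, (k b).Ok) (hs : IsSystem f₀ 𝓕) (h : IsBig 𝓕)
    (ho : ∃ z ∈ 𝓕, IsOrdinary z) (m i ν : ℕ) :
    galoisConiveau 𝓕 m i ν ≤ pieceConiveau k m i ν := by
  refine sSup_le fun U hU => le_inf ?_ fun u hu => hU.degree u hu
  refine le_D_of_bound hk h.similitude (fun ι _ _ U t h1 h2 u hu y hy =>
    slope_ge hk hs h.similitude ho h1 h2 hu hy) m (Fin m) (by rw [Fintype.card_fin]) ν U ?_ ?_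
  · refine Pool.Agent.Helper48.PW.stab_of_dense (fun f hf c M hcM => h.dense f hf c M hcM) ?_
    intro z hz u hu
    rw [← tensorPower_eq]
    exact hU.stable z hz u hu
  · intro z hz
    have hst : ∀ x ∈ U, rho Finset.univ z.2 x ∈ U := fun u hu => by
      rw [← tensorPower_eq]; exact hU.stable z hz u hu
    have hfin : FiniteDimensional ℂ U := inferInstance
    let Φ : Module.End ℂ U := (rho Finset.univ z.2).restrict hst
    refine ⟨minpoly ℂ Φ, ?_, ?_⟩
    · intro β hβ
      obtain ⟨v, hv⟩ := (Module.End.hasEigenvalue_of_isRoot hβ).exists_hasEigenvector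
      have h1 : Φ v = β • v := hv.apply_eq_smul
      have h2 : rho Finset.univ z.2 v.1 = β • v.1 := congrArg Subtype.val h1
      refine (hU.integral _ hz v.1 v.2 (fun h0 => hv.2 (Subtype.ext h0)) β ?_).1
      rw [tensorPower_eq]
      exact h2
    · intro x hx
      have h1 := aeval_semiconj U.subtype Φ (rho Finset.univ z.2) (fun v => rfl)
        (minpoly ℂ Φ) ⟨x, hx⟩
      have h0 : aeval Φ (minpoly ℂ Φ) = 0 := minpoly.aeval ℂ Φ
      rw [h0, LinearMap.zero_apply, map_zero] at h1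
      exact h1.symm

/-- If the Galois coniveau is contained in the Hodge filtration for one explicit `m`, `i`, `ν`, there
is an ordinary Frobenius. -/
theorem exists_ordinary (hk : ∀ b, IsSym (k b)) (hs : IsSystem f₀ 𝓕) {D : ℕ} (h2 : 2 ≤ D)
    (hf : f₀ ≤ D) (h : galoisConiveau 𝓕 (D * sumLen k) (D * sumWt k) (D * sumNu k + 1) ≤
      hodgeFil k (D * sumLen k) (D * sumNu k + 1)) : ∃ z ∈ 𝓕, IsOrdinary z := by
  by_contra hcon
  push Not at hcon
  obtain ⟨U, hU, u, hu, y, hy, hlt⟩ := exists_exotic hk hs hcon h2 hf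
  have h1 : u ∈ galoisConiveau 𝓕 (D * sumLen k) (D * sumWt k) (D * sumNu k + 1) :=
    (le_sSup hU : U ≤ _) hu
  exact absurd (h h1 y hy) (not_le.2 hlt)

omit [Fintype B] in
theorem piece_le_hodge (hk : ∀ b, (k b).Ok) (m i ν : ℕ) : pieceConiveau k m i ν ≤ hodgeFil k m ν :=
  fun _ hu _ hy => D_slope hk hu.1 hy

theorem big_iff (hk : ∀ b, (k b).Ok) (hs : IsSystem f₀ 𝓕) (h : IsBig 𝓕) :
    (∃ z ∈ 𝓕, IsOrdinary z) ↔ ∀ m i ν, galoisConiveau 𝓕 m i ν = pieceConiveau k m i ν :=
  ⟨fun ho m i ν => le_antisymm (galois_le hk hs h ho m i ν) (le_sSup (piece_effective hk hs h m i ν)),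
    fun he => exists_ordinary (fun b => (hk b).sym) hs (le_max_left 2 f₀) (le_max_right 2 f₀)
      (by rw [he]; exact piece_le_hodge hk _ _ _)⟩

end Pool.Agent.Helper35.GT
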