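import Pool.Agent.Helper35.GT.Geo

/-!
# The geometric coniveau and the products of pieces
-/

set_option autoImplicit false

namespace Pool.Agent.Helper35.GT

open Pool.Agent.Helper48.SP Pool.Agent.Helper48.GC8 Finset

variable {B : Type} [Fintype B] [DecidableEq B] {k : B → Blk} {𝓕 : Set (Frob k)} {f₀ : ℕ}

omit [Fintype B] [DecidableEq B] in
lemma isAlt_comp {S S' : Type} [DecidableEq S] [DecidableEq S'] (e : S ≃ S') {b : B}
    {t : Ten S (Ind k)} (ht : IsAlt b t) : IsAlt b (fun y : S' → Ind k => t (y ∘ e)) := by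
  refine ⟨fun y hy p => ?_, fun y p q hpq => ?_⟩
  · have := ht.supp (y ∘ e) hy (e.symm p)
    simpa using this
  · have h1 := ht.alt (y ∘ e) (e.symm p) (e.symm q) fun h => hpq (e.symm.injective h)
    have h2 : (y ∘ Equiv.swap p q) ∘ e = (y ∘ e) ∘ Equiv.swap (e.symm p) (e.symm q) := by
      funext r
      simp only [Function.comp_apply]
      congr 1
      have h3 := Equiv.swap_apply_def (e.symm p) (e.symm q) r
      rw [h3, Equiv.swap_apply_def]
      simp only [Equiv.eq_symm_apply]
      split_ifs <;> simp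
    rw [h2]
    exact h1

omit [Fintype B] in
lemma isPiece_comp {S S' : Type} [Fintype S] [Fintype S'] [DecidableEq S] [DecidableEq S']
    (e : S ≃ S') {t : Ten S (Ind k)} {v : ℕ} (ht : IsPiece t v) :
    IsPiece (fun y : S' → Ind k => t (y ∘ e)) v := by
  rcases ht with ⟨b, hb, rfl⟩ | ⟨b, p, q, hpq, hS, ht, rfl⟩
  · exact Or.inl ⟨b, isAlt_comp e hb, by rw [Fintype.card_congr e]⟩
  · refine Or.inr ⟨b, e p, e q, fun h => hpq (e.injective h), fun r => ?_, fun y => ?_, rfl⟩
    · rcases hS (e.symm r) with h | h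
      · exact Or.inl (by rw [← h, Equiv.apply_symm_apply])
      · exact Or.inr (by rw [← h, Equiv.apply_symm_apply])
    · exact ht (y ∘ e)

/-- the component of degree `i` -/
def prDeg (k : B → Blk) (ι : Type) [Fintype ι] (i : ℕ) : Ten ι (Ind k) →ₗ[ℂ] Ten ι (Ind k) where
  toFun u := fun y => if ∑ p, (k (y p).1).wt = i then u y else 0
  map_add' u v := by
    funext y
    simp only [Pi.add_apply]
    split_ifs <;> simp
  map_smul' c u := by
    funext y
    simp only [Pi.smul_apply, RingHom.id_apply]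
    split_ifs <;> simp

omit [Fintype B] [DecidableEq B] in
lemma prDeg_apply {ι : Type} [Fintype ι] (i : ℕ) (u : Ten ι (Ind k)) (y : ι → Ind k) :
    prDeg k ι i u y = if ∑ p, (k (y p).1).wt = i then u y else 0 := rfl

variable {N : ∀ m : ℕ, ℕ → ℕ → Submodule ℂ ((Fin m → Ind k) → ℂ)}

lemma geo_deg (hN : IsGeometric 𝓕 N) {m i ν : ℕ} {u : (Fin m → Ind k) → ℂ} (hu : u ∈ N m i ν) :
    u ∈ deg k (Fin m) i := by
  have h1 := hN.galois m i ν hu
  have h2 : galoisConiveau 𝓕 m i ν ≤ deg k (Fin m) i :=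
    sSup_le fun U hU u hu => hU.degree u hu
  exact h2 h1

lemma geo_mono (hN : IsGeometric 𝓕 N) (m i : ℕ) {ν ν' : ℕ} (h : ν ≤ ν') : N m i ν' ≤ N m i ν := by
  induction h with
  | refl => exact le_rfl
  | step _ ih => exact (hN.mono m i _).trans ih

/-- a piece is in the geometric coniveau -/
lemma geo_piece (hk : ∀ b, (k b).Ok) (hN : IsGeometric 𝓕 N)
    (ha : ∀ b j, altPart k b j ≤ N j (j * (k b).wt) ((k b).nu j)) {m v : ℕ}
    {t : Ten (Fin m) (Ind k)} (ht : IsPiece t v) : ∃ i, t ∈ N m i v := by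
  rcases ht with ⟨b, hb, rfl⟩ | ⟨b, p, q, hpq, hS, ht, rfl⟩
  · rw [Fintype.card_fin]
    exact ⟨_, ha b m hb⟩
  · have hm : m = 2 := by
      have h1 : (univ : Finset (Fin m)) = {p, q} := by
        ext r
        simpa using hS r
      rw [← Fintype.card_fin m, ← Finset.card_univ, h1, Finset.card_pair hpq]
    subst hm
    have h1 : (p = 0 ∧ q = 1) ∨ (p = 1 ∧ q = 0) := by omega
    refine ⟨2 * (k b).wt, ?_⟩
    rcases h1 with ⟨rfl, rfl⟩ | ⟨rfl, rfl⟩
    · have h2 : t = fun y => frm k b (y 0) (y 1) := funext ht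
      rw [h2]
      exact hN.form b
    · have h2 : t = sg k b • fun y => frm k b (y 0) (y 1) := by
        funext y
        rw [ht, Pi.smul_apply, smul_eq_mul, frm_comm hk]
      rw [h2]
      exact (N 2 _ _).smul_mem _ (hN.form b)

/-- a product of pieces is in the geometric coniveau -/
lemma geo_prod (hk : ∀ b, (k b).Ok) (hN : IsGeometric 𝓕 N)
    (ha : ∀ b j, altPart k b j ≤ N j (j * (k b).wt) ((k b).nu j)) :
    ∀ (r n : ℕ) (c : Fin n → Fin r) (t : ∀ a, Ten {p // c p = a} (Ind k)) (v : Fin r → ℕ),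
      (∀ a, IsPiece (t a) (v a)) → ∃ i, (fun y : Fin n → Ind k => ∏ a, t a (fun p => y p)) ∈
        N n i (∑ a, v a) := by
  classical
  intro r
  induction r with
  | zero =>
    intro n c t v _
    have hn : n = 0 := by
      by_contra h
      exact (c ⟨0, Nat.pos_of_ne_zero h⟩).elim0
    subst hn
    refine ⟨0, ?_⟩
    rw [Fin.sum_univ_zero]
    refine hN.zero 0 0 ?_
    intro y _
    simp
  | succ r ih =>
    intro n c t v ht
    let P : Fin n → Prop := fun p => c p = Fin.last r
    let m₁ := Fintype.card {p // P p}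
    let m₂ := Fintype.card {p // ¬ P p}
    let e₁ : Fin m₁ ≃ {p // P p} := (Fintype.equivFin _).symm
    let e₂ : Fin m₂ ≃ {p // ¬ P p} := (Fintype.equivFin _).symm
    let e : Fin m₁ ⊕ Fin m₂ ≃ Fin n := (Equiv.sumCongr e₁ e₂).trans (Equiv.sumCompl P)
    have he1 : ∀ p, e (Sum.inl p) = (e₁ p : Fin n) := fun p => rfl
    have he2 : ∀ p, e (Sum.inr p) = (e₂ p : Fin n) := fun p => rfl
    let c' : Fin m₂ → Fin r := fun p => (c (e₂ p)).castPred (e₂ p).2
    have hc' : ∀ p, (c' p).castSucc = c (e₂ p) := fun p => Fin.castSucc_castPred _ _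
    -- the classes
    let g : ∀ a : Fin r, {p // c p = a.castSucc} ≃ {p // c' p = a} := fun a =>
      { toFun := fun p => ⟨e₂.symm ⟨p.1, fun h : c p.1 = Fin.last r =>
            (Fin.castSucc_ne_last a) (p.2.symm.trans h)⟩, by
          apply Fin.castSucc_injective r
          rw [hc', Equiv.apply_symm_apply]
          exact p.2⟩
        invFun := fun p => ⟨e₂ p.1, by rw [← hc', p.2]⟩
        left_inv := fun p => Subtype.ext (by simp)
        right_inv := fun p => Subtype.ext (by simp) }
    obtain ⟨i₂, h2⟩ := ih m₂ c' (fun a y => t a.castSucc (y ∘ g a)) (fun a => v a.castSucc)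
      (fun a => isPiece_comp (g a) (ht a.castSucc))
    obtain ⟨i₁, h1⟩ := geo_piece hk hN ha (isPiece_comp e₁.symm (ht (Fin.last r)))
    have h3 := hN.prod n m₁ m₂ i₁ i₂ _ _ e _ _ h1 h2
    refine ⟨i₁ + i₂, ?_⟩
    rw [Fin.sum_univ_castSucc, add_comm (∑ i : Fin r, v i.castSucc)]
    have h4 : (fun y : Fin n → Ind k => ∏ a, t a (fun p => y p)) = fun y =>
        t (Fin.last r) ((fun p => y (e (Sum.inl p))) ∘ e₁.symm) *
          ∏ a, t a.castSucc ((fun p : {p // c' p = a} => y (e (Sum.inr p))) ∘ g a) := by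
      funext y
      rw [Fin.prod_univ_castSucc, mul_comm]
      congr 1
      · congr 1
        funext p
        simp only [Function.comp_apply, he1, Equiv.apply_symm_apply]
      · refine Finset.prod_congr rfl fun a _ => ?_
        congr 1
        funext p
        simp only [Function.comp_apply, he2]
        congr 1
        change _ = ((e₂ (e₂.symm _) : {p // ¬ P p}) : Fin n)
        rw [Equiv.apply_symm_apply]
    rw [h4]
    exact h3

/-- The products of pieces are in the geometric coniveau if the exterior powers are. -/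
theorem piece_le_geo (hk : ∀ b, (k b).Ok) (hN : IsGeometric 𝓕 N)
    (ha : ∀ b j, altPart k b j ≤ N j (j * (k b).wt) ((k b).nu j)) (m i ν : ℕ) :
    pieceConiveau k m i ν ≤ N m i ν := by
  classical
  have h1 : D k (Fin m) ν ≤ (N m i ν).comap (prDeg k (Fin m) i) := by
    refine Submodule.span_le.2 ?_
    rintro T ⟨r, c, t, v, ht, hv, rfl⟩
    change prDeg k (Fin m) i _ ∈ N m i ν
    obtain ⟨i', h2⟩ := geo_prod hk hN ha r m c t v ht
    have h3 := geo_deg hN h2
    by_cases hi : i' = i
    · subst hi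
      have h4 : prDeg k (Fin m) i' (fun y : Fin m → Ind k => ∏ a, t a (fun p => y p)) =
          fun y => ∏ a, t a (fun p => y p) := by
        funext y
        rw [prDeg_apply]
        by_cases hy : ∏ a, t a (fun p => y p) = 0
        · rw [hy]; split_ifs <;> rfl
        · rw [if_pos (h3 y hy)]
      rw [h4]
      exact geo_mono hN m i' hv h2
    · have h4 : prDeg k (Fin m) i (fun y : Fin m → Ind k => ∏ a, t a (fun p => y p)) = 0 := by
        funext y
        rw [prDeg_apply]
        by_cases hy : ∏ a, t a (fun p => y p) = 0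
        · rw [hy]; split_ifs <;> rfl
        · rw [if_neg fun h => hi ((h3 y hy).symm.trans h)]
          rfl
      rw [h4]
      exact Submodule.zero_mem _
  intro u hu
  have h2 : prDeg k (Fin m) i u = u := by
    funext y
    rw [prDeg_apply]
    by_cases hy : u y = 0
    · rw [hy]; split_ifs <;> rfl
    · rw [if_pos (hu.2 y hy)]
  rw [← h2]
  exact h1 hu.1

omit [Fintype B] [DecidableEq B] in
lemma altPart_zero (b : B) {j : ℕ} (hj : (k b).dim < j) {t : (Fin j → Ind k) → ℂ}
    (ht : t ∈ altPart k b j) : t = 0 := by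
  classical
  funext y
  by_contra hy
  have ht' : IsAlt b t := ht
  have h1 : ∀ p, ∃ i : Fin (k b).dim, y p = ⟨b, i⟩ := by
    intro p
    have h2 := ht'.supp y hy p
    generalize y p = l at h2
    obtain ⟨b', i⟩ := l
    obtain rfl : b' = b := h2
    exact ⟨i, rfl⟩
  choose φ hφ using h1
  have hinj : Function.Injective φ := by
    intro p q hpq
    by_contra hne
    exact isAlt_ne ht' hy hne (by rw [hφ, hφ, hpq])
  have h2 := Fintype.card_le_of_injective φ hinj
  rw [Fintype.card_fin, Fintype.card_fin] at h2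
  omega

/-- The geometric coniveau of all powers is the Galois coniveau if and only if there is an ordinary
Frobenius and the exterior powers of the blocks are in the geometric coniveau; if and only if this
is so for finitely many explicit `m`, `i`, `ν`. -/
theorem geo_iff (hk : ∀ b, (k b).Ok) (hs : IsSystem f₀ 𝓕) (h : IsBig 𝓕) (hN : IsGeometric 𝓕 N) :
    ((∀ m i ν, N m i ν = galoisConiveau 𝓕 m i ν) ↔
      (∃ z ∈ 𝓕, IsOrdinary z) ∧ ∀ b j, altPart k b j ≤ N j (j * (k b).wt) ((k b).nu j)) ∧
    ∀ D : ℕ, 2 ≤ D → f₀ ≤ D → ((∀ m i ν, N m i ν = galoisConiveau 𝓕 m i ν) ↔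
      N (D * sumLen k) (D * sumWt k) (D * sumNu k + 1) =
        galoisConiveau 𝓕 (D * sumLen k) (D * sumWt k) (D * sumNu k + 1) ∧
      ∀ b, ∀ j ≤ (k b).dim, N j (j * (k b).wt) ((k b).nu j) =
        galoisConiveau 𝓕 j (j * (k b).wt) ((k b).nu j)) := by
  have hk' : ∀ b, IsSym (k b) := fun b => (hk b).sym
  have h1 : (∃ z ∈ 𝓕, IsOrdinary z) → (∀ b j, altPart k b j ≤ N j (j * (k b).wt) ((k b).nu j)) →
      ∀ m i ν, N m i ν = galoisConiveau 𝓕 m i ν := fun ho ha m i ν =>
    le_antisymm (hN.galois m i ν)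
      ((galois_le hk hs h ho m i ν).trans (piece_le_geo hk hN ha m i ν))
  constructor
  · constructor
    · intro he
      refine ⟨exists_ordinary hk' hs (le_max_left 2 f₀) (le_max_right 2 f₀)
        (by rw [← he]; exact hN.hodge _ _ _), fun b j => ?_⟩
      rw [he]
      exact le_sSup (alt_effective hk' hs b j)
    · rintro ⟨ho, ha⟩
      exact h1 ho ha
  · intro D h2 hf
    constructor
    · intro he
      exact ⟨he _ _ _, fun b j _ => he _ _ _⟩
    · rintro ⟨he, ha⟩
      refine h1 (exists_ordinary hk' hs h2 hf (by rw [← he]; exact hN.hodge _ _ _)) fun b j => ?_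
      rcases Nat.lt_or_ge (k b).dim j with hj | hj
      · intro t ht
        rw [altPart_zero b hj ht]
        exact Submodule.zero_mem _
      · rw [ha b j hj]
        exact le_sSup (alt_effective hk' hs b j)

end Pool.Agent.Helper35.GT
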