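import Mathlib

/-!
# Triangular form of a graded matrix

`tri`: a complex matrix `M` which respects a grading `g` of the indices can be written `M P = P T`,
`P` invertible and graded, `T` graded and triangular with respect to an order of each fibre; the
characteristic polynomial of the block of `M` in degree `c` is `∏ (X - T x x)`, `g x = c`.
-/

set_option autoImplicit false

namespace Pool.Agent.Helper35.GT

open Finset Polynomial Module

theorem tri_end (n : ℕ) : ∀ (V : Type) [AddCommGroup V] [Module ℂ V] [FiniteDimensional ℂ V]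
    (f : Module.End ℂ V), finrank ℂ V = n →
    ∃ b : Basis (Fin n) ℂ V, ∀ i j, i < j → b.repr (f (b j)) i = 0 := by
  induction n with
  | zero =>
    intro V _ _ _ f hV
    exact ⟨finBasisOfFinrankEq ℂ V hV, fun i => i.elim0⟩
  | succ n ih =>
    intro V _ _ _ f hV
    have hnt : Nontrivial V := Module.nontrivial_of_finrank_pos (R := ℂ) (by omega)
    obtain ⟨c, hc⟩ := Module.End.exists_eigenvalue (K := ℂ) (V := Module.Dual ℂ V) f.dualMap
    obtain ⟨φ, hφ⟩ := hc.exists_hasEigenvector
    have hφ0 : φ ≠ 0 := hφ.2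
    have hφf : ∀ x, φ (f x) = c * φ x := fun x => by
      have := LinearMap.congr_fun hφ.apply_eq_smul x
      simpa using this
    obtain ⟨y, hy⟩ : ∃ y, φ y ≠ 0 := by
      by_contra hcon
      push Not at hcon
      exact hφ0 (LinearMap.ext fun x => hcon x)
    have hN : ∀ x ∈ LinearMap.ker φ, f x ∈ LinearMap.ker φ := fun x hx => by
      rw [LinearMap.mem_ker] at hx ⊢
      rw [hφf, hx, mul_zero]
    have hfr : finrank ℂ (LinearMap.ker φ) = n := by
      have h1 := LinearMap.finrank_range_add_finrank_ker φ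
      have h2 : finrank ℂ (LinearMap.range φ) = 1 := by
        have : LinearMap.range φ = ⊤ := LinearMap.range_eq_top.2 fun z =>
          ⟨(z / φ y) • y, by rw [map_smul, smul_eq_mul, div_mul_cancel₀ _ hy]⟩
        rw [this, finrank_top, finrank_self]
      omega
    obtain ⟨b, hb⟩ := ih (LinearMap.ker φ) (f.restrict hN) hfr
    let b' : Basis (Fin (n + 1)) ℂ V := Basis.mkFinCons y b
      (fun a x hx h => by
        have h1 := congrArg φ h
        rw [map_add, map_smul, LinearMap.mem_ker.1 hx, add_zero, map_zero, smul_eq_mul] at h1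
        exact (mul_eq_zero.1 h1).resolve_right hy)
      (fun z => ⟨- (φ z / φ y), by
        rw [LinearMap.mem_ker, map_add, map_smul, smul_eq_mul, neg_mul, div_mul_cancel₀ _ hy,
          add_neg_cancel]⟩)
    have hb0 : b' 0 = y := by simp [b', Basis.coe_mkFinCons]
    have hbs : ∀ i : Fin n, b' i.succ = (b i : V) := fun i => by simp [b', Basis.coe_mkFinCons]
    have hsum : ∀ x : LinearMap.ker φ, ((x : V) : V) = ∑ i : Fin n, b.repr x i • b' i.succ := by
      intro x
      conv_lhs => rw [← b.sum_repr x]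
      rw [AddSubmonoidClass.coe_finsetSum]
      refine Finset.sum_congr rfl fun i _ => ?_
      rw [hbs]
      rfl
    refine ⟨b', fun i j hij => ?_⟩
    cases j using Fin.cases with
    | zero => exact absurd hij (Fin.not_lt_zero i)
    | succ j =>
      have h1 : f (b' j.succ) = ((f.restrict hN (b j) : LinearMap.ker φ) : V) := by
        rw [hbs]; rfl
      rw [h1, hsum, map_sum]
      rw [Finsupp.finsetSum_apply]
      refine Finset.sum_eq_zero fun k _ => ?_
      rw [map_smul, Finsupp.smul_apply, Basis.repr_self, Finsupp.single_apply]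
      by_cases hk : k.succ = i
      · rw [if_pos hk, hb k j (Fin.succ_lt_succ_iff.1 (hk ▸ hij)), zero_smul]
      · rw [if_neg hk, smul_zero]

/-- Triangular form of a matrix. -/
theorem tri_fin {n : ℕ} (A : Matrix (Fin n) (Fin n) ℂ) :
    ∃ P P' T : Matrix (Fin n) (Fin n) ℂ, P' * P = 1 ∧ A * P = P * T ∧ (∀ i j, i < j → T i j = 0) ∧
      A.charpoly = ∏ i, (X - C (T i i)) := by
  obtain ⟨b, hb⟩ := tri_end n (Fin n → ℂ) (Matrix.toLin' A) (by simp)
  let P : Matrix (Fin n) (Fin n) ℂ := Matrix.of fun i j => b j i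
  let P' : Matrix (Fin n) (Fin n) ℂ := Matrix.of fun i j => b.repr (Pi.single j 1) i
  let T : Matrix (Fin n) (Fin n) ℂ := Matrix.of fun i j => b.repr (Matrix.toLin' A (b j)) i
  have hv : ∀ v : Fin n → ℂ, v = ∑ k, v k • (Pi.single k (1 : ℂ) : Fin n → ℂ) := by
    intro v
    funext i
    rw [Finset.sum_apply, Finset.sum_eq_single i]
    · simp
    · intro k _ hk
      simp [Pi.single_eq_of_ne hk.symm]
    · intro h; exact absurd (mem_univ i) h
  have h1 : P' * P = 1 := by
    ext i j
    rw [Matrix.mul_apply]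
    change ∑ k, b.repr (Pi.single k 1) i * b j k = _
    have h2 : b.repr (b j) i = ∑ k, b.repr (Pi.single k 1) i * b j k := by
      conv_lhs => rw [hv (b j)]
      rw [map_sum, Finsupp.finsetSum_apply]
      refine Finset.sum_congr rfl fun k _ => ?_
      rw [map_smul, Finsupp.smul_apply, smul_eq_mul, mul_comm]
    rw [← h2, Basis.repr_self, Finsupp.single_apply, Matrix.one_apply]
    simp only [eq_comm]
  have h2 : A * P = P * T := by
    ext i j
    rw [Matrix.mul_apply, Matrix.mul_apply]
    change ∑ k, A i k * b j k = ∑ k, b k i * b.repr (Matrix.toLin' A (b j)) k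
    have h3 := congrFun (b.sum_repr (Matrix.toLin' A (b j))) i
    rw [Finset.sum_apply] at h3
    rw [Matrix.toLin'_apply] at h3
    have h4 : ∑ k, A i k * b j k = (A.mulVec (b j)) i := rfl
    rw [h4, ← h3]
    refine Finset.sum_congr rfl fun k _ => ?_
    rw [Pi.smul_apply, smul_eq_mul, mul_comm, Matrix.toLin'_apply]
  have h3 : ∀ i j, i < j → T i j = 0 := fun i j hij => hb i j hij
  refine ⟨P, P', T, h1, h2, h3, ?_⟩
  have hPP : P * P' = 1 := mul_eq_one_comm.1 h1
  have h4 : A = P * T * P' := by rw [← h2, Matrix.mul_assoc, hPP, Matrix.mul_one]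
  have h5 : A.charpoly = T.charpoly := by
    rw [h4, Matrix.charpoly_mul_comm, ← Matrix.mul_assoc, h1, Matrix.one_mul]
  rw [h5, ← Matrix.charpoly_transpose, Matrix.charpoly_of_isUpperTriangular]
  · rfl
  · intro i j hij
    exact h3 j i hij

section

variable {ι κ : Type} [Fintype ι] [DecidableEq ι] [DecidableEq κ]

lemma sum_fiber (g : ι → κ) (c : κ) (F : ι → ℂ) (hF : ∀ k, g k ≠ c → F k = 0) :
    ∑ k, F k = ∑ x : {x // g x = c}, F x := by
  symm
  refine Fintype.sum_of_injective (Subtype.val : {x // g x = c} → ι) Subtype.val_injective _ _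
    ?_ fun _ => rfl
  intro x hx
  exact hF x fun h => hx ⟨⟨x, h⟩, rfl⟩

/-- numbering of the fibres -/
noncomputable def fe (g : ι → κ) (c : κ) : {x // g x = c} ≃ Fin (Fintype.card {x // g x = c}) :=
  Fintype.equivFin _

/-- the matrix with given blocks -/
noncomputable def lft (g : ι → κ)
    (Q : ∀ c : κ, Matrix (Fin (Fintype.card {x // g x = c})) (Fin (Fintype.card {x // g x = c})) ℂ) :
    Matrix ι ι ℂ := Matrix.of fun l r =>
  if h : g l = g r then Q (g r) (fe g (g r) ⟨l, h⟩) (fe g (g r) ⟨r, rfl⟩) else 0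

lemma lft_apply (g : ι → κ)
    (Q : ∀ c : κ, Matrix (Fin (Fintype.card {x // g x = c})) (Fin (Fintype.card {x // g x = c})) ℂ)
    (l r : ι) (c : κ) (hl : g l = c) (hr : g r = c) :
    lft g Q l r = Q c (fe g c ⟨l, hl⟩) (fe g c ⟨r, hr⟩) := by
  subst hr
  change (if h : g l = g r then _ else 0) = _
  rw [dif_pos hl]

lemma lft_zero (g : ι → κ)
    (Q : ∀ c : κ, Matrix (Fin (Fintype.card {x // g x = c})) (Fin (Fintype.card {x // g x = c})) ℂ)
    (l r : ι) (h : g l ≠ g r) : lft g Q l r = 0 := by
  change (if h : g l = g r then _ else 0) = _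
  rw [dif_neg h]

lemma lft_mul (g : ι → κ)
    (Q R : ∀ c : κ, Matrix (Fin (Fintype.card {x // g x = c})) (Fin (Fintype.card {x // g x = c})) ℂ) :
    lft g Q * lft g R = lft g (fun c => Q c * R c) := by
  ext l r
  rw [Matrix.mul_apply]
  by_cases h : g l = g r
  · rw [lft_apply g _ l r (g r) h rfl, Matrix.mul_apply]
    rw [sum_fiber g (g r) _ fun k hk => by rw [lft_zero g R k r hk, mul_zero]]
    refine Fintype.sum_equiv (fe g (g r)) _ _ fun x => ?_
    rw [lft_apply g Q l x (g r) h x.2, lft_apply g R x r (g r) x.2 rfl]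
  · rw [lft_zero g _ l r h]
    refine Finset.sum_eq_zero fun k _ => ?_
    by_cases hk : g l = g k
    · rw [lft_zero g R k r fun h' => h (hk.trans h'), mul_zero]
    · rw [lft_zero g Q l k hk, zero_mul]

lemma lft_one (g : ι → κ) : lft g (fun _ => 1) = 1 := by
  ext l r
  by_cases h : g l = g r
  · rw [lft_apply g _ l r (g r) h rfl, Matrix.one_apply, Matrix.one_apply]
    simp [Subtype.ext_iff]
  · rw [lft_zero g _ l r h, Matrix.one_apply_ne]
    exact fun h' => h (congrArg g h')

/-- Triangular form of a graded matrix. -/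
theorem tri (g : ι → κ) (M : Matrix ι ι ℂ) (hM : ∀ l r, g l ≠ g r → M l r = 0) :
    ∃ (P P' T : Matrix ι ι ℂ) (ord : ι → ℕ), P' * P = 1 ∧ M * P = P * T ∧
      (∀ l r, g l ≠ g r → P l r = 0) ∧ (∀ l r, g l ≠ g r → P' l r = 0) ∧
      (∀ l r, T l r ≠ 0 → g l = g r ∧ (l = r ∨ ord l < ord r)) ∧
      ∀ c, (M.submatrix (Subtype.val : {x // g x = c} → ι) Subtype.val).charpoly =
        ∏ x : {x // g x = c}, (X - C (T x x)) := by
  classical
  let A : ∀ c : κ, Matrix (Fin (Fintype.card {x // g x = c})) (Fin (Fintype.card {x // g x = c})) ℂ :=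
    fun c => M.submatrix (fun i => ((fe g c).symm i : ι)) (fun i => ((fe g c).symm i : ι))
  choose P P' T h1 h2 h3 h4 using fun c => tri_fin (A c)
  have hMl : M = lft g A := by
    ext l r
    by_cases h : g l = g r
    · rw [lft_apply g A l r (g r) h rfl]
      simp [A]
    · rw [lft_zero g _ l r h, hM l r h]
  refine ⟨lft g P, lft g P', lft g T, fun l => Fintype.card ι - (fe g (g l) ⟨l, rfl⟩ : ℕ), ?_, ?_,
    lft_zero g P, lft_zero g P', ?_, ?_⟩
  · rw [← lft_one g, lft_mul]
    congr 1
    funext c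
    exact h1 c
  · rw [hMl, lft_mul, lft_mul]
    congr 1
    funext c
    exact h2 c
  · intro l r h
    have hg : g l = g r := by
      by_contra hcon
      exact h (lft_zero g T l r hcon)
    refine ⟨hg, ?_⟩
    rw [lft_apply g T l r (g r) hg rfl] at h
    have h5 : fe g (g r) ⟨r, rfl⟩ ≤ fe g (g r) ⟨l, hg⟩ := by
      by_contra hcon
      exact h (h3 _ _ _ (not_le.1 hcon))
    rcases h5.lt_or_eq with h6 | h6
    · right
      have h7 : (fe g (g l) ⟨l, rfl⟩ : ℕ) = (fe g (g r) ⟨l, hg⟩ : ℕ) := by
        have : ∀ (c : κ) (hc : g l = c), (fe g (g l) ⟨l, rfl⟩ : ℕ) = (fe g c ⟨l, hc⟩ : ℕ) := by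
          intro c hc
          subst hc
          rfl
        exact this _ hg
      have h8 : (fe g (g r) ⟨r, rfl⟩ : ℕ) < (fe g (g r) ⟨l, hg⟩ : ℕ) := h6
      have h9 : (fe g (g r) ⟨l, hg⟩ : ℕ) < Fintype.card {x // g x = g r} := (fe g (g r) ⟨l, hg⟩).2
      have h10 : Fintype.card {x // g x = g r} ≤ Fintype.card ι := Fintype.card_subtype_le _
      change Fintype.card ι - (fe g (g l) ⟨l, rfl⟩ : ℕ) < Fintype.card ι - (fe g (g r) ⟨r, rfl⟩ : ℕ)
      omega
    · left
      have := (fe g (g r)).injective h6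
      exact (congrArg Subtype.val this).symm
  · intro c
    have h5 : (A c).charpoly = (M.submatrix (Subtype.val : {x // g x = c} → ι) Subtype.val).charpoly := by
      have h6 : A c = Matrix.reindex (fe g c) (fe g c)
          (M.submatrix (Subtype.val : {x // g x = c} → ι) Subtype.val) := by
        ext i j
        rfl
      rw [h6, Matrix.charpoly_reindex]
    rw [← h5, h4 c]
    symm
    refine Fintype.prod_equiv (fe g c) _ _ fun x => ?_
    rw [lft_apply g T x x c x.2 x.2]

end

end Pool.Agent.Helper35.GT
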