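import Pool.Agent.Helper48.SP.Ord
import Pool.Agent.Helper35.GT.Tri

/-!
# Tensors which are alternating in groups of positions

`c : ι → C` divides the positions into groups, the letters at the positions of the group `a` are in
the block `blk a`. `gAlt` are the tensors which are alternating in each group.
-/

set_option autoImplicit false

namespace Pool.Agent.Helper35.GT

open Pool.Agent.Helper48.SP Pool.Agent.Helper48.GC8 Finset Polynomial

variable {B : Type} {k : B → Blk} {ι : Type} [Fintype ι] [DecidableEq ι] {Cl : Type}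

/-- The tensors which are alternating in each group of positions. -/
def gAlt (k : B → Blk) (c : ι → Cl) (blk : Cl → B) : Submodule ℂ (Ten ι (Ind k)) where
  carrier := {u | (∀ y, u y ≠ 0 → ∀ p, (y p).1 = blk (c p)) ∧
    ∀ y p q, p ≠ q → c p = c q → u (y ∘ Equiv.swap p q) = - u y}
  zero_mem' := ⟨fun y hy => absurd rfl hy, fun y p q _ _ => by simp⟩
  add_mem' := by
    rintro s t ⟨hs1, hs2⟩ ⟨ht1, ht2⟩
    refine ⟨fun y hy p => ?_, fun y p q hpq hc => ?_⟩
    · by_cases h : s y = 0
      · exact ht1 y (fun h' => hy (by rw [Pi.add_apply, h, h', add_zero])) p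
      · exact hs1 y h p
    · rw [Pi.add_apply, Pi.add_apply, hs2 y p q hpq hc, ht2 y p q hpq hc, neg_add]
  smul_mem' := by
    rintro a t ⟨ht1, ht2⟩
    refine ⟨fun y hy p => ?_, fun y p q hpq hc => ?_⟩
    · exact ht1 y (fun h' => hy (by rw [Pi.smul_apply, h', smul_zero])) p
    · rw [Pi.smul_apply, Pi.smul_apply, ht2 y p q hpq hc, smul_neg]

variable {c : ι → Cl} {blk : Cl → B}

omit [Fintype ι] in
lemma gAlt_ne {u : Ten ι (Ind k)} (hu : u ∈ gAlt k c blk) {y : ι → Ind k} (hy : u y ≠ 0) {p q : ι}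
    (hpq : p ≠ q) (hc : c p = c q) : y p ≠ y q := by
  intro h
  have h1 := hu.2 y p q hpq hc
  have h2 : y ∘ Equiv.swap p q = y := by
    funext r
    rw [Function.comp_apply]
    rcases eq_or_ne r p with rfl | h3
    · rw [Equiv.swap_apply_left, h]
    · rcases eq_or_ne r q with rfl | h4
      · rw [Equiv.swap_apply_right, h]
      · rw [Equiv.swap_apply_of_ne_of_ne h3 h4]
  rw [h2] at h1
  have h3 : u y = 0 := by
    have : (2 : ℂ) * u y = 0 := by rw [two_mul]; nth_rewrite 1 [h1]; ring
    exact (mul_eq_zero.1 this).resolve_left two_ne_zero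
  exact hy h3

/-- a word which is injective on the groups occurs in a tensor of `gAlt` -/
lemma gAlt_exists {y₀ : ι → Ind k} (h1 : ∀ p, (y₀ p).1 = blk (c p))
    (h2 : ∀ p q, c p = c q → y₀ p = y₀ q → p = q) : ∃ u ∈ gAlt k c blk, u y₀ = 1 := by
  classical
  let P : Finset (Equiv.Perm ι) := univ.filter fun σ => ∀ p, c (σ p) = c p
  refine ⟨fun y => ∑ σ ∈ P, if y = y₀ ∘ σ then ((Equiv.Perm.sign σ : ℤ) : ℂ) else 0, ⟨?_, ?_⟩, ?_⟩
  · intro y hy p
    obtain ⟨σ, hσ, hne⟩ := Finset.exists_ne_zero_of_sum_ne_zero hy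
    have h3 : y = y₀ ∘ σ := by
      by_contra hcon
      exact hne (if_neg hcon)
    rw [h3, Function.comp_apply, h1, (Finset.mem_filter.1 hσ).2]
  · intro y p q hpq hc
    rw [← Finset.sum_neg_distrib]
    refine Finset.sum_bij' (fun σ _ => σ * Equiv.swap p q) (fun σ _ => σ * Equiv.swap p q) ?_ ?_ ?_ ?_ ?_
    · intro σ hσ
      rw [Finset.mem_filter] at hσ ⊢
      refine ⟨mem_univ _, fun r => ?_⟩
      rw [Equiv.Perm.mul_apply, hσ.2]
      rcases eq_or_ne r p with rfl | h3
      · rw [Equiv.swap_apply_left, hc]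
      · rcases eq_or_ne r q with rfl | h4
        · rw [Equiv.swap_apply_right, hc]
        · rw [Equiv.swap_apply_of_ne_of_ne h3 h4]
    · intro σ hσ
      rw [Finset.mem_filter] at hσ ⊢
      refine ⟨mem_univ _, fun r => ?_⟩
      rw [Equiv.Perm.mul_apply, hσ.2]
      rcases eq_or_ne r p with rfl | h3
      · rw [Equiv.swap_apply_left, hc]
      · rcases eq_or_ne r q with rfl | h4
        · rw [Equiv.swap_apply_right, hc]
        · rw [Equiv.swap_apply_of_ne_of_ne h3 h4]
    · intro σ _
      rw [mul_assoc, Equiv.swap_mul_self, mul_one]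
    · intro σ _
      rw [mul_assoc, Equiv.swap_mul_self, mul_one]
    · intro σ _
      have h3 : (y ∘ Equiv.swap p q = y₀ ∘ σ) ↔ (y = y₀ ∘ (σ * Equiv.swap p q : Equiv.Perm ι)) := by
        constructor
        · intro h
          funext r
          have := congrFun h (Equiv.swap p q r)
          simpa using this
        · intro h
          funext r
          rw [h]
          simp
      simp only [h3]
      split_ifs
      · rw [Equiv.Perm.sign_mul, Equiv.Perm.sign_swap hpq]
        push_cast
        ring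
      · rw [neg_zero]
  · beta_reduce
    rw [Finset.sum_eq_single 1]
    · rw [if_pos (by funext r; simp)]
      simp
    · intro σ hσ hne
      rw [if_neg]
      intro h
      refine hne (Equiv.ext fun r => ?_)
      have h3 := congrFun h r
      rw [Function.comp_apply] at h3
      exact (h2 r (σ r) ((Finset.mem_filter.1 hσ).2 r).symm h3).symm
    · intro h
      exact absurd (Finset.mem_filter.2 ⟨mem_univ _, fun p => rfl⟩) h

variable [Fintype B] [DecidableEq B]

lemma gAlt_stab {M : Matrix (Ind k) (Ind k) ℂ} (hM : ∀ l r : Ind k, l.1 ≠ r.1 → M l r = 0)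
    {u : Ten ι (Ind k)} (hu : u ∈ gAlt k c blk) : rho Finset.univ M u ∈ gAlt k c blk := by
  refine ⟨fun x hx p => ?_, fun x p q hpq hc => ?_⟩
  · rw [rho_univ_apply] at hx
    obtain ⟨y, -, hy⟩ := Finset.exists_ne_zero_of_sum_ne_zero hx
    have h1 : u y ≠ 0 := right_ne_zero_of_mul hy
    have h2 : M (x p) (y p) ≠ 0 := Finset.prod_ne_zero_iff.1 (left_ne_zero_of_mul hy) p (mem_univ p)
    have h3 : (x p).1 = (y p).1 := by
      by_contra hcon
      exact h2 (hM _ _ hcon)
    rw [h3, hu.1 y h1]
  · rw [rho_univ_apply, rho_univ_apply, ← Finset.sum_neg_distrib]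
    refine Finset.sum_bij' (fun y _ => y ∘ Equiv.swap p q) (fun y _ => y ∘ Equiv.swap p q)
      (fun _ _ => mem_univ _) (fun _ _ => mem_univ _) ?_ ?_ ?_
    · intro y _
      funext r
      simp
    · intro y _
      funext r
      simp
    · intro y _
      rw [hu.2 y p q hpq hc, mul_neg, neg_neg]
      congr 1
      symm
      exact (Equiv.prod_comp (Equiv.swap p q) fun r => M (x r) ((y ∘ Equiv.swap p q) r)).symm.trans
        (Finset.prod_congr rfl fun r _ => by simp)

/-- The eigenvalues of a block diagonal matrix on `gAlt` are products of the eigenvalues `T l l` of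
the triangular form, along words which are injective on the groups. -/
theorem gAlt_eigen {M P P' T : Matrix (Ind k) (Ind k) ℂ} {ord : Ind k → ℕ} (hPP : P' * P = 1)
    (hMP : M * P = P * T) (hP : ∀ l r : Ind k, l.1 ≠ r.1 → P' l r = 0)
    (hT : ∀ l r : Ind k, T l r ≠ 0 → l.1 = r.1 ∧ (l = r ∨ ord l < ord r))
    {u : Ten ι (Ind k)} (hu : u ∈ gAlt k c blk) (hu0 : u ≠ 0) {β : ℂ}
    (hβ : rho Finset.univ M u = β • u) :
    ∃ y : ι → Ind k, β = ∏ p, T (y p) (y p) ∧ (∀ p, (y p).1 = blk (c p)) ∧
      ∀ p q, c p = c q → y p = y q → p = q := by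
  classical
  have hPP' : P * P' = 1 := mul_eq_one_comm.1 hPP
  have hT' : P' * M = T * P' := by
    calc P' * M = P' * M * (P * P') := by rw [hPP', Matrix.mul_one]
      _ = P' * (M * P) * P' := by simp only [Matrix.mul_assoc]
      _ = P' * P * T * P' := by rw [hMP]; simp only [Matrix.mul_assoc]
      _ = T * P' := by rw [hPP, Matrix.one_mul]
  set w := rho Finset.univ P' u with hw
  have hwm : w ∈ gAlt k c blk := gAlt_stab hP hu
  have hw0 : w ≠ 0 := by
    intro h
    have h1 : rho (Finset.univ : Finset ι) P w = u := by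
      rw [hw, ← Module.End.mul_apply, ← rho_mul, hPP', rho_one, Module.End.one_apply]
    rw [h, map_zero] at h1
    exact hu0 h1.symm
  have hwβ : rho Finset.univ T w = β • w := by
    rw [hw, ← Module.End.mul_apply, ← rho_mul, ← hT', rho_mul, Module.End.mul_apply, hβ, map_smul]
  obtain ⟨y₁, hy₁⟩ : ∃ y, w y ≠ 0 := by
    by_contra hcon
    push Not at hcon
    exact hw0 (funext hcon)
  obtain ⟨y, hy, hmax⟩ := Finset.exists_max_image (univ.filter fun y => w y ≠ 0)
    (fun y => ∑ p, ord (y p)) ⟨y₁, Finset.mem_filter.2 ⟨mem_univ _, hy₁⟩⟩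
  have hy0 : w y ≠ 0 := (Finset.mem_filter.1 hy).2
  refine ⟨y, ?_, hwm.1 y hy0, fun p q hc hyq => ?_⟩
  · have h1 := congrFun hwβ y
    rw [rho_univ_apply, Pi.smul_apply, smul_eq_mul, Finset.sum_eq_single y] at h1
    · exact (mul_right_cancel₀ hy0 h1).symm
    · intro x _ hxy
      by_contra hne
      have h2 : w x ≠ 0 := right_ne_zero_of_mul hne
      have h3 : ∀ p, T (y p) (x p) ≠ 0 := fun p =>
        Finset.prod_ne_zero_iff.1 (left_ne_zero_of_mul hne) p (mem_univ p)
      have h4 : ∀ p, y p = x p ∨ ord (y p) < ord (x p) := fun p => (hT _ _ (h3 p)).2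
      obtain ⟨p₀, hp₀⟩ : ∃ p, x p ≠ y p := by
        by_contra hcon
        push Not at hcon
        exact hxy (funext hcon)
      have h5 : ∑ p, ord (y p) < ∑ p, ord (x p) := by
        refine Finset.sum_lt_sum (fun p _ => ?_) ⟨p₀, mem_univ _, ?_⟩
        · rcases h4 p with h | h
          · rw [h]
          · exact h.le
        · rcases h4 p₀ with h | h
          · exact absurd h.symm hp₀
          · exact h
      exact absurd (hmax x (Finset.mem_filter.2 ⟨mem_univ _, h2⟩)) (not_le.2 h5)
    · intro h; exact absurd (mem_univ y) h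
  · by_contra hcon
    exact gAlt_ne hwm hy0 hcon hc hyq

end Pool.Agent.Helper35.GT
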