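import Mathlib

/-!
# Isometric bases adapted to a decomposition

`β` is symmetric or alternating, the subspaces `W a` are pairwise orthogonal except `W a` and `W b`
with `a + b = w`, which are in duality. The letters have slopes `g l`, `g l + g (op l) = w`, and
`dim (W a)` is the number of letters of slope `a`. Then there are vectors `e l ∈ W (g l)` with
`β (e l) (e r) = η l` if `r = op l` and `0` otherwise.
-/

set_option autoImplicit false

namespace Pool.Agent.Helper35.GT

open Finset Module

section

variable {V : Type} [AddCommGroup V] [Module ℂ V] [FiniteDimensional ℂ V]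

lemma finrank_drop {X : Submodule ℂ V} {φ : V →ₗ[ℂ] ℂ} {x : V} (hx : x ∈ X) (h : φ x ≠ 0) :
    finrank ℂ (X ⊓ LinearMap.ker φ : Submodule ℂ V) + 1 = finrank ℂ X := by
  have h1 := LinearMap.finrank_range_add_finrank_ker (φ.domRestrict X)
  have h2 : finrank ℂ (LinearMap.range (φ.domRestrict X)) = 1 := by
    have : LinearMap.range (φ.domRestrict X) = ⊤ := LinearMap.range_eq_top.2 fun z =>
      ⟨(z / φ x) • ⟨x, hx⟩, by
        rw [map_smul, LinearMap.domRestrict_apply, smul_eq_mul, div_mul_cancel₀ _ h]⟩
    rw [this, finrank_top, finrank_self]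
  have h3 : finrank ℂ (LinearMap.ker (φ.domRestrict X)) =
      finrank ℂ (X ⊓ LinearMap.ker φ : Submodule ℂ V) := by
    have h4 : (LinearMap.ker (φ.domRestrict X)).map X.subtype = X ⊓ LinearMap.ker φ := by
      ext v
      constructor
      · rintro ⟨u, hu, rfl⟩
        exact ⟨u.2, LinearMap.mem_ker.1 hu⟩
      · rintro ⟨h5, h6⟩
        exact ⟨⟨v, h5⟩, LinearMap.mem_ker.2 h6, rfl⟩
    rw [← h4]
    exact (LinearEquiv.finrank_eq
      (Submodule.equivMapOfInjective X.subtype X.injective_subtype _))
  omega

lemma finrank_same {X : Submodule ℂ V} {φ : V →ₗ[ℂ] ℂ} (h : ∀ x ∈ X, φ x = 0) :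
    finrank ℂ (X ⊓ LinearMap.ker φ : Submodule ℂ V) = finrank ℂ X := by
  rw [inf_eq_left.2 fun x hx => LinearMap.mem_ker.2 (h x hx)]

lemma exists_quad (A B C : ℂ) (hA : A ≠ 0) : ∃ c : ℂ, A * c ^ 2 + B * c + C = 0 := by
  obtain ⟨s, hs⟩ := IsAlgClosed.exists_pow_nat_eq (B ^ 2 - 4 * A * C) two_pos
  refine ⟨(s - B) / (2 * A), ?_⟩
  field_simp
  linear_combination hs

variable (β : V →ₗ[ℂ] V →ₗ[ℂ] ℂ) {ε : ℂ}

/-- an isotropic vector in a subspace of dimension at least two -/
lemma exists_isotropic {X : Submodule ℂ V} (hX : 2 ≤ finrank ℂ X) : ∃ x ∈ X, x ≠ 0 ∧ β x x = 0 := by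
  obtain ⟨f, hf⟩ := exists_linearIndependent_of_le_finrank hX
  have h1 : LinearIndependent ℂ (fun i => (f i : V)) := hf.map' X.subtype (Submodule.ker_subtype X)
  by_cases h0 : β (f 1 : V) (f 1 : V) = 0
  · exact ⟨f 1, (f 1).2, h1.ne_zero 1, h0⟩
  · obtain ⟨c, hc⟩ := exists_quad (β (f 1 : V) (f 1 : V)) (β (f 0 : V) (f 1 : V) + β (f 1 : V) (f 0 : V))
      (β (f 0 : V) (f 0 : V)) h0
    refine ⟨(f 0 : V) + c • (f 1 : V), X.add_mem (f 0).2 (X.smul_mem _ (f 1).2), ?_, ?_⟩
    · intro h
      have h2 := Fintype.linearIndependent_iff.1 h1 ![1, c] (by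
        rw [Fin.sum_univ_two]
        simpa using h) 0
      exact one_ne_zero (α := ℂ) (by simpa using h2)
    · rw [← hc]
      simp only [map_add, map_smul, LinearMap.add_apply, LinearMap.smul_apply, smul_eq_mul]
      ring

variable {β}

/-- a hyperbolic pair -/
lemma exists_pair (hβ : ∀ x y, β y x = ε * β x y) {w a b : ℕ} (hab : a + b = w)
    {W : ℕ → Submodule ℂ V} (horth : ∀ a b, a + b ≠ w → ∀ x ∈ W a, ∀ y ∈ W b, β x y = 0)
    (hnd : ∀ a, ∀ x ∈ W a, x ≠ 0 → ∃ b, a + b = w ∧ ∃ y ∈ W b, β x y ≠ 0)
    (h1 : 1 ≤ finrank ℂ (W a)) (h2 : a = b → 2 ≤ finrank ℂ (W a)) {η : ℂ} (hη : η ≠ 0) :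
    ∃ x ∈ W a, ∃ y ∈ W b, β x x = 0 ∧ β y y = 0 ∧ β x y = η := by
  have hx : ∃ x ∈ W a, x ≠ 0 ∧ β x x = 0 := by
    by_cases h : a = b
    · exact exists_isotropic β (h2 h)
    · obtain ⟨x, hx, hx0⟩ : ∃ x ∈ W a, x ≠ 0 := by
        refine (Submodule.ne_bot_iff _).1 fun h0 => ?_
        rw [h0, finrank_bot] at h1
        omega
      exact ⟨x, hx, hx0, horth a a (by omega) x hx x hx⟩
  obtain ⟨x, hxa, hx0, hxx⟩ := hx
  obtain ⟨b', hb', y', hy', hxy⟩ := hnd a x hxa hx0
  obtain rfl : b = b' := by omega
  obtain ⟨y₁, h3, h4⟩ : ∃ y₁ ∈ W b, β x y₁ = η :=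
    ⟨(η / β x y') • y', (W b).smul_mem _ hy', by rw [map_smul, smul_eq_mul, div_mul_cancel₀ _ hxy]⟩
  by_cases h : a = b
  · subst h
    refine ⟨x, hxa, y₁ - (β y₁ y₁ / (2 * η)) • x, (W a).sub_mem h3 ((W a).smul_mem _ hxa), hxx, ?_, ?_⟩
    · have h5 : β y₁ y₁ = ε * β y₁ y₁ := hβ y₁ y₁
      have h6 : β y₁ x = ε * η := by rw [hβ x y₁, h4]
      simp only [map_sub, map_smul, LinearMap.sub_apply, LinearMap.smul_apply, smul_eq_mul, hxx, h4, h6]
      have h7 : β y₁ y₁ / (2 * η) * η = β y₁ y₁ / 2 := by field_simp
      linear_combination (-1 - ε) * h7 + h5 / 2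
    · rw [map_sub, map_smul, hxx, h4, smul_zero, sub_zero]
  · exact ⟨x, hxa, y₁, h3, hxx, horth b b (by omega) y₁ h3 y₁ h3, h4⟩

/-- a vector of square `η`, if the form is symmetric -/
lemma exists_sq (hβ : ∀ x y, β y x = β x y) {w a : ℕ} (haa : a + a = w)
    {W : ℕ → Submodule ℂ V}
    (hnd : ∀ a, ∀ x ∈ W a, x ≠ 0 → ∃ b, a + b = w ∧ ∃ y ∈ W b, β x y ≠ 0)
    (h1 : 1 ≤ finrank ℂ (W a)) (η : ℂ) :
    ∃ x ∈ W a, β x x = η := by
  have hx : ∃ x ∈ W a, β x x ≠ 0 := by
    by_contra hcon
    push Not at hcon
    obtain ⟨x, hx, hx0⟩ : ∃ x ∈ W a, x ≠ 0 := by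
      refine (Submodule.ne_bot_iff _).1 fun h0 => ?_
      rw [h0, finrank_bot] at h1
      omega
    obtain ⟨b, hb, y, hy, hxy⟩ := hnd a x hx hx0
    obtain rfl : b = a := by omega
    have h2 := hcon (x + y) ((W b).add_mem hx hy)
    simp only [map_add, LinearMap.add_apply, hcon x hx, hcon y hy, zero_add, add_zero, hβ x y] at h2
    exact hxy (by linear_combination h2 / 2)
  obtain ⟨x, hx, hxx⟩ := hx
  obtain ⟨s, hs⟩ := IsAlgClosed.exists_pow_nat_eq (η / β x x) two_pos
  refine ⟨s • x, (W a).smul_mem _ hx, ?_⟩
  simp only [map_smul, LinearMap.smul_apply, smul_eq_mul]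
  rw [← mul_assoc, ← pow_two, hs, div_mul_cancel₀ _ hxx]

lemma card_erase {L : Type} [DecidableEq L] {S : Finset L} {g : L → ℕ} {l : L} (hl : l ∈ S) (a : ℕ) :
    ((S.erase l).filter fun r => g r = a).card + (if g l = a then 1 else 0) =
      (S.filter fun r => g r = a).card := by
  rw [Finset.filter_erase]
  by_cases h : g l = a
  · rw [if_pos h, Finset.card_erase_add_one (Finset.mem_filter.2 ⟨hl, h⟩)]
  · have h1 : l ∉ S.filter fun r => g r = a := fun h' => h (Finset.mem_filter.1 h').2
    rw [if_neg h, Finset.erase_eq_of_notMem h1, add_zero]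

theorem exists_adapted (hβ : ∀ x y, β y x = ε * β x y) {L : Type} [DecidableEq L]
    {op : L → L} (hop : ∀ l, op (op l) = l) {η : L → ℂ} (hη0 : ∀ l, η l ≠ 0)
    (hη : ∀ l, η (op l) = ε * η l) {w : ℕ} {g : L → ℕ} (hg : ∀ l, g l + g (op l) = w) :
    ∀ (n : ℕ) (S : Finset L), S.card ≤ n → (∀ l ∈ S, op l ∈ S) → ∀ W : ℕ → Submodule ℂ V,
      (∀ a b, a + b ≠ w → ∀ x ∈ W a, ∀ y ∈ W b, β x y = 0) →
      (∀ a, ∀ x ∈ W a, x ≠ 0 → ∃ b, a + b = w ∧ ∃ y ∈ W b, β x y ≠ 0) →
      (∀ a, finrank ℂ (W a) = (S.filter fun l => g l = a).card) →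
      ∃ e : L → V, (∀ l ∈ S, e l ∈ W (g l)) ∧
        ∀ l ∈ S, ∀ r ∈ S, β (e l) (e r) = if r = op l then η l else 0 := by
  intro n
  induction n with
  | zero =>
    intro S hS _ W _ _ _
    have : S = ∅ := Finset.card_eq_zero.1 (Nat.le_zero.1 hS)
    subst this
    exact ⟨fun _ => 0, fun l hl => absurd hl (Finset.notMem_empty l),
      fun l hl => absurd hl (Finset.notMem_empty l)⟩
  | succ n ih =>
    intro S hS hSop W horth hnd hdim
    rcases S.eq_empty_or_nonempty with rfl | ⟨l, hl⟩
    · exact ⟨fun _ => 0, fun l hl => absurd hl (Finset.notMem_empty l),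
        fun l hl => absurd hl (Finset.notMem_empty l)⟩
    by_cases hll : op l = l
    · -- a fixed letter
      have hε : ε = 1 := by
        have h1 := hη l
        rw [hll] at h1
        exact mul_right_cancel₀ (hη0 l) (by rw [← h1, one_mul])
      have hβ' : ∀ x y, β y x = β x y := fun x y => by rw [hβ, hε, one_mul]
      have haa : g l + g l = w := by
        have := hg l
        rwa [hll] at this
      have h1 : 1 ≤ finrank ℂ (W (g l)) := by
        rw [hdim]
        exact Finset.card_pos.2 ⟨l, Finset.mem_filter.2 ⟨hl, rfl⟩⟩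
      obtain ⟨x, hx, hxx⟩ := exists_sq hβ' haa hnd h1 (η l)
      obtain ⟨e', he1, he2⟩ := ih (S.erase l)
        (by have := Finset.card_erase_add_one hl; omega)
        (fun r hr => Finset.mem_erase.2 ⟨fun h => (Finset.mem_erase.1 hr).1 (by
          rw [← hop r, h, hll]), hSop r (Finset.mem_erase.1 hr).2⟩)
        (fun a => W a ⊓ LinearMap.ker (β x))
        (fun a b hab x hx y hy => horth a b hab x hx.1 y hy.1)
        (fun a z hz hz0 => by
          obtain ⟨c, hc, z', hz', hzz⟩ := hnd a z hz.1 hz0
          have hzx : β x z = 0 := hz.2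
          refine ⟨c, hc, z' - (β x z' / η l) • x, ⟨?_, ?_⟩, ?_⟩
          · refine (W c).sub_mem hz' ?_
            by_cases h : g l + c = w
            · obtain rfl : c = g l := by omega
              exact (W (g l)).smul_mem _ hx
            · rw [horth _ _ h x hx z' hz', zero_div, zero_smul]
              exact (W c).zero_mem
          · change β x _ = 0
            rw [map_sub, map_smul, hxx, smul_eq_mul, div_mul_cancel₀ _ (hη0 l), sub_self]
          · rw [map_sub, map_smul, hβ' x z, hzx, smul_zero, sub_zero]
            exact hzz)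
        (fun a => by
          have h2 := card_erase (S := S) (g := g) hl a
          rw [← hdim a] at h2
          by_cases h : g l = a
          · subst h
            have h3 := finrank_drop (φ := β x) hx (by rw [hxx]; exact hη0 l)
            rw [if_pos rfl] at h2
            omega
          · have h3 := finrank_same (X := W a) (φ := β x)
              (fun y hy => horth (g l) a (by omega) x hx y hy)
            rw [if_neg h] at h2
            omega)
      refine ⟨fun r => if r = l then x else e' r, ?_, ?_⟩
      · intro r hr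
        beta_reduce
        by_cases h : r = l
        · rw [if_pos h, h]; exact hx
        · rw [if_neg h]
          exact (he1 r (Finset.mem_erase.2 ⟨h, hr⟩)).1
      · intro r hr s hs
        beta_reduce
        by_cases h : r = l
        · subst h
          rw [if_pos rfl]
          by_cases h' : s = r
          · subst h'
            rw [if_pos rfl, if_pos hll.symm, hxx]
          · rw [if_neg h', if_neg (by rw [hll]; exact h')]
            exact (he1 s (Finset.mem_erase.2 ⟨h', hs⟩)).2
        · rw [if_neg h]
          by_cases h' : s = l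
          · subst h'
            rw [if_pos rfl, if_neg fun h2 => h (by rw [← hop r, ← h2, hll]), hβ']
            exact (he1 r (Finset.mem_erase.2 ⟨h, hr⟩)).2
          · rw [if_neg h']
            exact he2 r (Finset.mem_erase.2 ⟨h, hr⟩) s (Finset.mem_erase.2 ⟨h', hs⟩)
    · -- a pair of letters
      have hl' : op l ∈ S := hSop l hl
      have h1 : 1 ≤ finrank ℂ (W (g l)) := by
        rw [hdim]
        exact Finset.card_pos.2 ⟨l, Finset.mem_filter.2 ⟨hl, rfl⟩⟩
      have h2 : g l = g (op l) → 2 ≤ finrank ℂ (W (g l)) := by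
        intro h
        rw [hdim, ← Finset.card_pair (Ne.symm hll)]
        refine Finset.card_le_card fun r hr => ?_
        rcases Finset.mem_insert.1 hr with rfl | hr
        · exact Finset.mem_filter.2 ⟨hl, rfl⟩
        · rw [Finset.mem_singleton.1 hr]
          exact Finset.mem_filter.2 ⟨hl', h.symm⟩
      obtain ⟨x, hx, y, hy, hxx, hyy, hxy⟩ := exists_pair hβ (hg l) horth hnd h1 h2 (hη0 l)
      have hyx : β y x = η (op l) := by rw [hβ x y, hxy, hη]
      have hl'' : op l ∈ S.erase l := Finset.mem_erase.2 ⟨hll, hl'⟩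
      have hmem : ∀ r, r ∈ (S.erase l).erase (op l) ↔ r ≠ op l ∧ r ≠ l ∧ r ∈ S := fun r => by
        rw [Finset.mem_erase, Finset.mem_erase]
      obtain ⟨e', he1, he2⟩ := ih ((S.erase l).erase (op l))
        (by have := Finset.card_erase_add_one hl; have := Finset.card_erase_add_one hl''; omega)
        (fun r hr => by
          rw [hmem] at hr ⊢
          refine ⟨fun h => hr.2.1 ?_, fun h => hr.1 ?_, hSop r hr.2.2⟩
          · rw [← hop r, h, hop]
          · rw [← hop r, h])
        (fun a => W a ⊓ LinearMap.ker (β x) ⊓ LinearMap.ker (β y))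
        (fun a b hab x hx y hy => horth a b hab x hx.1.1 y hy.1.1)
        (fun a z hz hz0 => by
          obtain ⟨c, hc, z', hz', hzz⟩ := hnd a z hz.1.1 hz0
          have hzx : β x z = 0 := hz.1.2
          have hzy : β y z = 0 := hz.2
          refine ⟨c, hc, z' - (β x z' / η l) • y - (β y z' / η (op l)) • x, ⟨⟨?_, ?_⟩, ?_⟩, ?_⟩
          · refine (W c).sub_mem ((W c).sub_mem hz' ?_) ?_
            · by_cases h : g l + c = w
              · obtain rfl : c = g (op l) := by have := hg l; omega
                exact (W (g (op l))).smul_mem _ hy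
              · rw [horth _ _ h x hx z' hz', zero_div, zero_smul]
                exact (W c).zero_mem
            · by_cases h : g (op l) + c = w
              · obtain rfl : c = g l := by have := hg l; omega
                exact (W (g l)).smul_mem _ hx
              · rw [horth _ _ h y hy z' hz', zero_div, zero_smul]
                exact (W c).zero_mem
          · change β x _ = 0
            rw [map_sub, map_sub, map_smul, map_smul, hxx, hxy, smul_eq_mul,
              smul_zero, div_mul_cancel₀ _ (hη0 l), sub_self, sub_zero]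
          · change β y _ = 0
            rw [map_sub, map_sub, map_smul, map_smul, hyy, hyx, smul_zero, sub_zero, smul_eq_mul,
              div_mul_cancel₀ _ (hη0 _), sub_self]
          · rw [map_sub, map_sub, map_smul, map_smul, hβ x z, hβ y z, hzx, hzy, mul_zero, smul_zero,
              smul_zero, sub_zero, sub_zero]
            exact hzz)
        (fun a => by
          have h3 := card_erase (S := S) (g := g) hl a
          have h4 := card_erase (S := S.erase l) (g := g) hl'' a
          rw [← hdim a] at h3
          have hgl := hg l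
          have h5 : finrank ℂ (W a ⊓ LinearMap.ker (β x) : Submodule ℂ V) +
              (if g (op l) = a then 1 else 0) = finrank ℂ (W a) := by
            by_cases h : g (op l) = a
            · rw [if_pos h, ← h]
              exact finrank_drop (φ := β x) hy (by rw [hxy]; exact hη0 l)
            · rw [if_neg h, add_zero]
              exact finrank_same (φ := β x) fun y hy => horth (g l) a (by omega) x hx y hy
          have h6 : finrank ℂ (W a ⊓ LinearMap.ker (β x) ⊓ LinearMap.ker (β y) : Submodule ℂ V) +
              (if g l = a then 1 else 0) =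
                finrank ℂ (W a ⊓ LinearMap.ker (β x) : Submodule ℂ V) := by
            by_cases h : g l = a
            · rw [if_pos h, ← h]
              exact finrank_drop (φ := β y) (X := W (g l) ⊓ LinearMap.ker (β x)) ⟨hx, hxx⟩
                (by rw [hyx]; exact hη0 _)
            · rw [if_neg h, add_zero]
              exact finrank_same (φ := β y) fun x hx =>
                horth (g (op l)) a (by omega) y hy x hx.1
          omega)
      refine ⟨fun r => if r = l then x else if r = op l then y else e' r, ?_, ?_⟩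
      · intro r hr
        beta_reduce
        by_cases h : r = l
        · rw [if_pos h, h]; exact hx
        · rw [if_neg h]
          by_cases h' : r = op l
          · rw [if_pos h', h']; exact hy
          · rw [if_neg h']
            exact (he1 r ((hmem r).2 ⟨h', h, hr⟩)).1.1
      · intro r hr s hs
        have key : ∀ s ∈ S, s ≠ l → s ≠ op l → β x (e' s) = 0 ∧ β y (e' s) = 0 := fun s hs h h' =>
          ⟨(he1 s ((hmem s).2 ⟨h', h, hs⟩)).1.2, (he1 s ((hmem s).2 ⟨h', h, hs⟩)).2⟩
        beta_reduce
        by_cases h : r = l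
        · rw [if_pos h]
          by_cases h1 : s = l
          · rw [if_pos h1, hxx, if_neg]
            rw [h1, h]; exact Ne.symm hll
          · rw [if_neg h1]
            by_cases h2 : s = op l
            · rw [if_pos h2, if_pos (by rw [h2, h]), hxy, h]
            · rw [if_neg h2, (key s hs h1 h2).1, if_neg]
              rw [h]; exact h2
        · rw [if_neg h]
          by_cases h' : r = op l
          · rw [if_pos h']
            by_cases h1 : s = l
            · rw [if_pos h1, hyx, if_pos (by rw [h1, h', hop]), h']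
            · rw [if_neg h1]
              have h3 : ¬ s = op r := by rw [h', hop]; exact h1
              rw [if_neg h3]
              by_cases h2 : s = op l
              · rw [if_pos h2, hyy]
              · rw [if_neg h2, (key s hs h1 h2).2]
          · rw [if_neg h']
            by_cases h1 : s = l
            · rw [if_pos h1, hβ, (key r hr h h').1, mul_zero, if_neg]
              rw [h1]
              exact fun h3 => h' (by rw [h3, hop])
            · rw [if_neg h1]
              by_cases h2 : s = op l
              · rw [if_pos h2, hβ, (key r hr h h').2, mul_zero, if_neg]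
                rw [h2]
                exact fun h3 => h (by rw [← hop r, ← h3, hop])
              · rw [if_neg h2]
                exact he2 r ((hmem r).2 ⟨h', h, hr⟩) s ((hmem s).2 ⟨h2, h1, hs⟩)

end

end Pool.Agent.Helper35.GT
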