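import Pool.Agent.Helper35.GT.Nu
import Pool.Agent.Helper35.GT.Grp
import Pool.Agent.Helper35.GT.Gap
import Pool.Agent.Helper48.GC8.Arith

/-!
# Without an ordinary place the Galois coniveau is larger than the Hodge filtration allows

If no Frobenius of a system is ordinary, then for some `m, i, ν` the Galois coniveau `N^ν` of degree
`i` of `V^(⊗ m)` contains a tensor with a word of total slope less than `ν`.
-/

set_option autoImplicit false

namespace Pool.Agent.Helper35.GT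

open Polynomial Pool.Agent.Helper48.SP Pool.Agent.Helper48.GC8 Finset

variable {B : Type} [Fintype B] [DecidableEq B] {k : B → Blk} {f₀ : ℕ}

lemma tensorPower_eq {m : ℕ} (M : Matrix (Ind k) (Ind k) ℂ) (u : (Fin m → Ind k) → ℂ) :
    tensorPower M u = rho Finset.univ M u := (funext fun x => rho_univ_apply M u x).symm

/-- the letters of a block -/
def eBlk (k : B → Blk) (b : B) : Fin (k b).dim ≃ {x : Ind k // x.1 = b} where
  toFun i := ⟨⟨b, i⟩, rfl⟩
  invFun x := x.2 ▸ x.1.2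
  left_inv i := rfl
  right_inv := by
    rintro ⟨⟨b', i⟩, h⟩
    obtain rfl : b' = b := h
    rfl

omit [Fintype B] [DecidableEq B] in
lemma card_blk (k : B → Blk) (b : B) [Fintype {x : Ind k // x.1 = b}] :
    Fintype.card {x : Ind k // x.1 = b} = (k b).dim := by
  rw [← Fintype.card_congr (eBlk k b), Fintype.card_fin]

lemma blockPoly_eq (M : Matrix (Ind k) (Ind k) ℂ) (b : B) :
    blockPoly M b = (M.submatrix (Subtype.val : {x : Ind k // x.1 = b} → Ind k)
      (Subtype.val : {x : Ind k // x.1 = b} → Ind k)).charpoly := by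
  have h : M.submatrix (Subtype.val : {x : Ind k // x.1 = b} → Ind k) Subtype.val =
      Matrix.reindex (eBlk k b) (eBlk k b) (M.submatrix (fun i : Fin (k b).dim => (⟨b, i⟩ : Ind k))
        (fun i : Fin (k b).dim => (⟨b, i⟩ : Ind k))) := by
    ext x y
    obtain ⟨i, rfl⟩ := (eBlk k b).surjective x
    obtain ⟨j, rfl⟩ := (eBlk k b).surjective y
    rw [Matrix.reindex_apply, Matrix.submatrix_apply, Matrix.submatrix_apply, Matrix.submatrix_apply,
      Equiv.symm_apply_apply, Equiv.symm_apply_apply]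
    rfl
  rw [h, Matrix.charpoly_reindex]
  rfl

/-- The data of the block `b`: the eigenvalues of a Frobenius of a system and their properties. -/
lemma block_data (hk : ∀ b, IsSym (k b)) {𝓕 : Set (Frob k)} (hs : IsSystem f₀ 𝓕) {z : Frob k} (hz : z ∈ 𝓕)
    {b : B} {α : {x : Ind k // x.1 = b} → ℂ} (hα : blockPoly z.2 b = ∏ x, (X - C (α x))) :
    (∀ x, α x ≠ 0) ∧ (∀ x, ‖α x‖ ^ 2 = (z.1 : ℝ) ^ (k b).wt) ∧
      (∀ r ≤ Fintype.card {x : Ind k // x.1 = b}, ∃ c : ℤ, esy α r = c * (z.1 : ℂ) ^ (k b).nu r) ∧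
      ∀ S : Finset {x : Ind k // x.1 = b}, ∀ A : ValuationSubring ℂ,
        A.valuation (∏ x ∈ S, α x) ≤ A.valuation (z.1 : ℂ) ^ (k b).nu S.card := by
  obtain ⟨p, f, hp, hf1, hf2, hzp⟩ := hs.bounded z hz
  have hq0 : (z.1 : ℂ) ≠ 0 := by
    rw [hzp]; exact Nat.cast_ne_zero.2 (pow_ne_zero _ hp.ne_zero)
  have hq0' : (z.1 : ℝ) ≠ 0 := by
    rw [hzp]; exact Nat.cast_ne_zero.2 (pow_ne_zero _ hp.ne_zero)
  have hpure : ∀ x, ‖α x‖ ^ 2 = (z.1 : ℝ) ^ (k b).wt := by
    intro x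
    refine hs.pure z hz b (α x) ?_
    rw [hα, mem_roots (Finset.prod_ne_zero_iff.2 fun y _ => X_sub_C_ne_zero _), IsRoot, eval_prod]
    exact Finset.prod_eq_zero (mem_univ x) (by simp)
  have hne : ∀ x, α x ≠ 0 := by
    intro x h
    have h1 := hpure x
    rw [h, norm_zero] at h1
    exact pow_ne_zero (k b).wt hq0' (by rw [← h1]; norm_num)
  have hesy : ∀ r ≤ Fintype.card {x : Ind k // x.1 = b}, ∃ c : ℤ,
      esy α r = c * (z.1 : ℂ) ^ (k b).nu r := by
    intro r hr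
    obtain ⟨P, hP, hdiv⟩ := hs.above z hz b
    have h1 := coeff_prod α hr
    rw [← hα, ← hP, coeff_map] at h1
    obtain ⟨c, hc⟩ := hdiv r (by rw [← card_blk k b]; exact hr)
    rw [card_blk, hc] at h1
    refine ⟨(-1) ^ r * c, ?_⟩
    have h2 : esy α r = (-1) ^ r * ((-1) ^ r * ∑ t ∈ powersetCard r univ, ∏ a ∈ t, α a) := by
      rw [← mul_assoc, ← mul_pow]
      simp [esy]
    rw [h2, ← h1]
    push_cast
    simp only [eq_intCast, Int.cast_mul, Int.cast_pow, Int.cast_natCast]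
    ring
  refine ⟨hne, hpure, hesy, fun S A => ?_⟩
  refine prod_le A.valuation hne hq0 ?_ ?_ ?_ S
  · have := int_le_one A.valuation (z.1 : ℤ)
    exact_mod_cast this
  · intro j hj
    rw [card_blk] at hj ⊢
    exact nu_support (hk b).mono hj
  · intro r hr
    obtain ⟨c, hc⟩ := hesy r hr
    rw [hc, map_mul, map_pow]
    exact mul_le_of_le_one_left' (int_le_one _ c)

/-- The gap at a break where the Frobenius is not ordinary. -/
lemma block_gap (hk : ∀ b, IsSym (k b)) {𝓕 : Set (Frob k)} (hs : IsSystem f₀ 𝓕) {z : Frob k}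
    (hz : z ∈ 𝓕) {b : B} {α : {x : Ind k // x.1 = b} → ℂ} (hα : blockPoly z.2 b = ∏ x, (X - C (α x)))
    {p f j : ℕ} (hzp : z.1 = p ^ f) (hb : IsBreak (k b) j)
    {P : ℤ[X]} (hP : P.map (Int.castRingHom ℂ) = blockPoly z.2 b)
    (hdiv : (p : ℤ) * (z.1 : ℤ) ^ (k b).nu j ∣ P.coeff ((k b).dim - j)) {D : ℕ}
    (h2 : 2 ≤ D) (hf : f ≤ D) {S : Finset {x : Ind k // x.1 = b}} (hS : S.card = j)
    (A : ValuationSubring ℂ) :
    A.valuation (∏ x ∈ S, α x) ^ D ≤
      (A.valuation (z.1 : ℂ) ^ (k b).nu j) ^ D * A.valuation (z.1 : ℂ) := by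
  have h4 := (block_data hk hs hz hα).2.2.2
  have hj : j < (k b).dim := hb.2.1
  refine gap A.valuation (p := (p : ℂ)) (f := f) (n := (k b).nu) (by rw [hzp]; push_cast; rfl)
    (by have := int_le_one A.valuation (p : ℤ); exact_mod_cast this) (fun S => h4 S A) ?_ ?_ h2 hf S hS
  · intro a h1 h2 h3
    rw [card_blk] at h3
    exact nu_break (hk b).mono hb h1 h2 h3
  · obtain ⟨c, hc⟩ := hdiv
    have h3 := coeff_prod α (k := j) (by rw [card_blk]; exact hj.le)
    rw [← hα, ← hP, coeff_map, card_blk, hc] at h3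
    have h4 : esy α j = ((((-1) ^ j * c : ℤ)) : ℂ) * ((p : ℂ) * (z.1 : ℂ) ^ (k b).nu j) := by
      have h5 : esy α j = (-1) ^ j * ((-1) ^ j * ∑ t ∈ powersetCard j univ, ∏ a ∈ t, α a) := by
        rw [← mul_assoc, ← mul_pow]
        simp [esy]
      rw [h5, ← h3]
      push_cast
      simp only [eq_intCast, Int.cast_mul, Int.cast_pow, Int.cast_natCast]
      ring
    rw [h4, map_mul, map_mul, map_pow]
    exact mul_le_of_le_one_left' (int_le_one _ _)

lemma sum_slope (k : Blk) {j : ℕ} (hj : j ≤ k.dim) :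
    ∑ r : Fin j, k.slope (Fin.castLE hj r) = k.nu j := by
  rw [nu_eq, ← Finset.sum_filter]
  refine Finset.sum_bij (fun r _ => Fin.castLE hj r) (fun r _ => by simp)
    (fun _ _ _ _ h => Fin.castLE_injective hj h) ?_ (fun _ _ => rfl)
  intro i hi
  exact ⟨⟨i, by simpa using hi⟩, mem_univ _, rfl⟩

section Words

variable {ι Cl : Type} [Fintype ι] [DecidableEq ι] [Fintype Cl] [DecidableEq Cl] {c : ι → Cl}
  {blk : Cl → B}

/-- the letters of a word in the group `a` -/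
noncomputable def lets (c : ι → Cl) (blk : Cl → B) (y : ι → Ind k) (a : Cl) :
    Finset {x : Ind k // x.1 = blk a} := by
  classical
  exact univ.filter fun x => ∃ p, c p = a ∧ y p = x.1

omit [DecidableEq ι] [Fintype Cl] in
lemma lets_card {y : ι → Ind k} (h1 : ∀ p, (y p).1 = blk (c p))
    (h2 : ∀ p q, c p = c q → y p = y q → p = q) (a : Cl) :
    (lets c blk y a).card = (univ.filter fun p => c p = a).card := by
  classical
  unfold lets
  symm
  refine Finset.card_bij (fun p hp => ⟨y p, by rw [h1, (Finset.mem_filter.1 hp).2]⟩) ?_ ?_ ?_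
  · intro p hp
    exact Finset.mem_filter.2 ⟨mem_univ _, p, (Finset.mem_filter.1 hp).2, rfl⟩
  · intro p hp q hq h
    exact h2 p q ((Finset.mem_filter.1 hp).2.trans (Finset.mem_filter.1 hq).2.symm)
      (congrArg Subtype.val h)
  · intro x hx
    obtain ⟨p, hp, hpx⟩ := (Finset.mem_filter.1 hx).2
    exact ⟨p, Finset.mem_filter.2 ⟨mem_univ _, hp⟩, Subtype.ext hpx⟩

omit [DecidableEq ι] in
lemma prod_lets {y : ι → Ind k} (h1 : ∀ p, (y p).1 = blk (c p))
    (h2 : ∀ p q, c p = c q → y p = y q → p = q) (F : Ind k → ℂ) :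
    ∏ p, F (y p) = ∏ a, ∏ x ∈ lets c blk y a, F x.1 := by
  classical
  rw [← Finset.prod_fiberwise (s := univ) (g := c) (f := fun p => F (y p))]
  refine Finset.prod_congr rfl fun a _ => ?_
  unfold lets
  refine Finset.prod_bij (fun p hp => ⟨y p, by rw [h1, (Finset.mem_filter.1 hp).2]⟩) ?_ ?_ ?_ ?_
  · intro p hp
    exact Finset.mem_filter.2 ⟨mem_univ _, p, (Finset.mem_filter.1 hp).2, rfl⟩
  · intro p hp q hq h
    exact h2 p q ((Finset.mem_filter.1 hp).2.trans (Finset.mem_filter.1 hq).2.symm)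
      (congrArg Subtype.val h)
  · intro x hx
    obtain ⟨p, hp, hpx⟩ := (Finset.mem_filter.1 hx).2
    exact ⟨p, Finset.mem_filter.2 ⟨mem_univ _, hp⟩, Subtype.ext hpx⟩
  · intro p hp
    rfl

end Words

/-- The value of an eigenvalue on the product of `D` copies of the `Λʲ V_b`, for the breaks `(b, j)`
in a set `R`, for a Frobenius which is not ordinary. -/
lemma val_le (hk : ∀ b, IsSym (k b)) {𝓕 : Set (Frob k)} (hs : IsSystem f₀ 𝓕) {z : Frob k}
    (hz : z ∈ 𝓕) {D : ℕ} (hD0 : D ≠ 0) {α : Ind k → ℂ}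
    (hα : ∀ b, blockPoly z.2 b = ∏ x : {x : Ind k // x.1 = b}, (X - C (α x.1)))
    {R : Finset (Ind k)} (l₀ : R) (hgap : ∀ S : Finset {x : Ind k // x.1 = l₀.1.1},
      S.card = (l₀.1.2 : ℕ) → ∀ A : ValuationSubring ℂ, A.valuation (∏ x ∈ S, α x.1) ^ D ≤
        (A.valuation (z.1 : ℂ) ^ (k l₀.1.1).nu l₀.1.2) ^ D * A.valuation (z.1 : ℂ))
    (S : ∀ a : R × Fin D, Finset {x : Ind k // x.1 = a.1.1.1})
    (hS : ∀ a, (S a).card = (a.1.1.2 : ℕ)) (A : ValuationSubring ℂ) :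
    A.valuation (∏ a, ∏ x ∈ S a, α x.1) ≤
      A.valuation (z.1 : ℂ) ^ (D * ∑ l ∈ R, (k l.1).nu l.2 + 1) := by
  classical
  set t := A.valuation (z.1 : ℂ) with ht
  have h1 : ∀ a : R × Fin D, A.valuation (∏ x ∈ S a, α x.1) ≤ t ^ (k a.1.1.1).nu a.1.1.2 := by
    intro a
    have := (block_data hk hs hz (b := a.1.1.1) (α := fun x => α x.1) (hα a.1.1.1)).2.2.2 (S a) A
    rwa [hS a] at this
  have h2 : ∏ τ : Fin D, A.valuation (∏ x ∈ S (l₀, τ), α x.1) ≤
      (t ^ (k l₀.1.1).nu l₀.1.2) ^ D * t := by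
    refine (pow_le_pow_iff_left₀ zero_le zero_le hD0).1 ?_
    rw [← Finset.prod_pow]
    calc ∏ τ : Fin D, A.valuation (∏ x ∈ S (l₀, τ), α x.1) ^ D ≤
        ∏ _τ : Fin D, ((t ^ (k l₀.1.1).nu l₀.1.2) ^ D * t) :=
          Finset.prod_le_prod' fun τ _ => hgap (S (l₀, τ)) (hS (l₀, τ)) A
      _ = ((t ^ (k l₀.1.1).nu l₀.1.2) ^ D * t) ^ D := by
          rw [Finset.prod_const, Finset.card_univ, Fintype.card_fin]
  have h3 : ∀ l : R, ∏ τ : Fin D, A.valuation (∏ x ∈ S (l, τ), α x.1) ≤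
      (t ^ (k l.1.1).nu l.1.2) ^ D := by
    intro l
    calc ∏ τ : Fin D, A.valuation (∏ x ∈ S (l, τ), α x.1) ≤
          ∏ _τ : Fin D, t ^ (k l.1.1).nu l.1.2 := Finset.prod_le_prod' fun τ _ => h1 (l, τ)
      _ = (t ^ (k l.1.1).nu l.1.2) ^ D := by
          rw [Finset.prod_const, Finset.card_univ, Fintype.card_fin]
  rw [map_prod, Fintype.prod_prod_type, ← Finset.mul_prod_erase _ _ (mem_univ l₀)]
  have h4 : t ^ (D * ∑ l ∈ R, (k l.1).nu l.2 + 1) =
      ((t ^ (k l₀.1.1).nu l₀.1.2) ^ D * t) * ∏ l ∈ univ.erase l₀, (t ^ (k l.1.1).nu l.1.2) ^ D := by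
    have h5 : D * ∑ l ∈ R, (k l.1).nu l.2 = ∑ l : R, (k l.1.1).nu l.1.2 * D := by
      rw [← Finset.sum_coe_sort, Finset.mul_sum]
      exact Finset.sum_congr rfl fun l _ => mul_comm _ _
    rw [h5, ← Finset.add_sum_erase _ _ (mem_univ l₀), add_right_comm, pow_add, pow_succ, pow_mul,
      ← Finset.prod_pow_eq_pow_sum]
    congr 1
    exact Finset.prod_congr rfl fun l _ => pow_mul _ _ _
  rw [h4]
  exact mul_le_mul' h2 (Finset.prod_le_prod' fun l _ => h3 l)

end Pool.Agent.Helper35.GT
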