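import Pool.Agent.Helper35.GT.Part1

/-!
# The exotic tensors
-/

set_option autoImplicit false

namespace Pool.Agent.Helper35.GT

open Polynomial Pool.Agent.Helper48.SP Pool.Agent.Helper48.GC8 Finset

variable {B : Type} [Fintype B] [DecidableEq B] {k : B → Blk} {f₀ : ℕ}

/-- the letter of a position -/
def yy {R : Finset (Ind k)} {D : ℕ} (x : Σ a : R × Fin D, Fin (a.1.1.2 : ℕ)) : Ind k :=
  ⟨x.1.1.1.1, Fin.castLE x.1.1.1.2.is_lt.le x.2⟩

omit [Fintype B] [DecidableEq B] in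
lemma yy_inj {R : Finset (Ind k)} {D : ℕ} : ∀ x x' : (Σ a : R × Fin D, Fin (a.1.1.2 : ℕ)),
    x.1 = x'.1 → yy x = yy x' → x = x' := by
  rintro ⟨a, r⟩ ⟨a', r'⟩ h1 h2
  obtain rfl : a = a' := h1
  have h3 : (⟨a.1.1.1, Fin.castLE a.1.1.2.is_lt.le r⟩ : Ind k) =
      ⟨a.1.1.1, Fin.castLE a.1.1.2.is_lt.le r'⟩ := h2
  have h4 := eq_of_heq (Sigma.mk.inj h3).2
  rw [Fin.castLE_injective _ h4]

/-- Without an ordinary Frobenius the Galois coniveau `N^ν` of degree `i` of `V^(⊗ m)` contains a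
tensor with a word of total slope less than `ν`, for explicit `m`, `i`, `ν`. -/
theorem exists_exotic (hk : ∀ b, IsSym (k b)) {𝓕 : Set (Frob k)} (hs : IsSystem f₀ 𝓕)
    (hno : ∀ z ∈ 𝓕, ¬ IsOrdinary z) {D : ℕ} (hD2 : 2 ≤ D) (hDf : f₀ ≤ D) :
    ∃ U : Submodule ℂ ((Fin (D * ∑ l ∈ breaks k, (l.2 : ℕ)) → Ind k) → ℂ),
      IsEffective 𝓕 _ (D * ∑ l ∈ breaks k, (l.2 : ℕ) * (k l.1).wt)
        (D * ∑ l ∈ breaks k, (k l.1).nu l.2 + 1) U ∧
      ∃ u ∈ U, ∃ y, u y ≠ 0 ∧ ∑ p, sl (y p) < D * ∑ l ∈ breaks k, (k l.1).nu l.2 + 1 := by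
  classical
  set R := breaks k with hR
  let Pos : Type := Σ a : R × Fin D, Fin (a.1.1.2 : ℕ)
  have hPos : Fintype.card Pos = D * ∑ l ∈ R, (l.2 : ℕ) := by
    have h1 : Fintype.card Pos = ∑ a : R × Fin D, (a.1.1.2 : ℕ) := by
      rw [Fintype.card_sigma]
      exact Finset.sum_congr rfl fun a _ => Fintype.card_fin _
    rw [h1, Fintype.sum_prod_type, ← Finset.sum_coe_sort R (fun l => (l.2 : ℕ)), Finset.mul_sum]
    refine Finset.sum_congr rfl fun l _ => ?_
    change ∑ _τ : Fin D, (l.1.2 : ℕ) = _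
    rw [Finset.sum_const, Finset.card_univ, Fintype.card_fin, smul_eq_mul]
  set m := D * ∑ l ∈ R, (l.2 : ℕ) with hm
  let e : Pos ≃ Fin m := Fintype.equivFinOfCardEq hPos
  let blk : R × Fin D → B := fun a => a.1.1.1
  let c : Fin m → R × Fin D := fun p => (e.symm p).1
  have hcard : ∀ a, (univ.filter fun p => c p = a).card = (a.1.1.2 : ℕ) := by
    intro a
    have h1 : (univ.filter fun p => c p = a).card = (univ : Finset (Fin (a.1.1.2 : ℕ))).card := by
      symm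
      refine Finset.card_bij (fun r _ => e ⟨a, r⟩) ?_ ?_ ?_
      · intro r _
        refine Finset.mem_filter.2 ⟨mem_univ _, ?_⟩
        change (e.symm (e ⟨a, r⟩)).1 = a
        rw [Equiv.symm_apply_apply]
      · intro r _ r' _ h
        have h2 := e.injective h
        exact eq_of_heq (Sigma.mk.inj h2).2
      · intro p hp
        have h2 : (e.symm p).1 = a := (Finset.mem_filter.1 hp).2
        subst h2
        exact ⟨(e.symm p).2, mem_univ _, e.apply_symm_apply p⟩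
    rw [h1, card_univ, Fintype.card_fin]
  set i : ℕ := D * ∑ l ∈ R, (l.2 : ℕ) * (k l.1).wt with hi
  have hi1 : i = ∑ a : R × Fin D, (a.1.1.2 : ℕ) * (k a.1.1.1).wt := by
    rw [hi, Fintype.sum_prod_type, ← Finset.sum_coe_sort, Finset.mul_sum]
    refine Finset.sum_congr rfl fun l _ => ?_
    change _ = ∑ _τ : Fin D, (l.1.2 : ℕ) * (k l.1.1).wt
    rw [Finset.sum_const, Finset.card_univ, Fintype.card_fin, smul_eq_mul]
  have hi2 : i = ∑ p, (k (blk (c p))).wt := by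
    rw [hi1, ← Finset.sum_fiberwise (s := univ) (g := c)]
    refine Finset.sum_congr rfl fun a _ => ?_
    rw [Finset.sum_congr rfl (g := fun _ => (k (blk a)).wt) fun p hp => by
      rw [(Finset.mem_filter.1 hp).2], Finset.sum_const, hcard, smul_eq_mul]
  set ν₀ : ℕ := D * ∑ l ∈ R, (k l.1).nu l.2 with hν₀
  have hν : ν₀ = ∑ a : R × Fin D, (k a.1.1.1).nu a.1.1.2 := by
    rw [hν₀, Fintype.sum_prod_type, ← Finset.sum_coe_sort, Finset.mul_sum]
    refine Finset.sum_congr rfl fun l _ => ?_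
    change _ = ∑ _τ : Fin D, (k l.1.1).nu l.1.2
    rw [Finset.sum_const, Finset.card_univ, Fintype.card_fin, smul_eq_mul]
  refine ⟨gAlt k c blk, ⟨?_, ?_, ?_⟩, ?_⟩
  · intro u hu y hy
    rw [hi2]
    exact Finset.sum_congr rfl fun p _ => by rw [hu.1 y hy p]
  · intro z hz u hu
    rw [tensorPower_eq]
    exact gAlt_stab (hs.blocks z hz) hu
  · intro z hz u hu hu0 β hβ
    rw [tensorPower_eq] at hβ
    obtain ⟨P, P', T, ord, h1, h2, h3, h4, h5, h6⟩ :=
      tri (Sigma.fst : Ind k → B) z.2 (hs.blocks z hz)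
    obtain ⟨y, hy1, hy2, hy3⟩ := gAlt_eigen h1 h2 h4 h5 hu hu0 hβ
    set α : Ind k → ℂ := fun l => T l l with hα
    have hbp : ∀ b, blockPoly z.2 b = ∏ x : {x : Ind k // x.1 = b}, (X - C (α x.1)) := by
      intro b
      rw [blockPoly_eq]
      exact h6 b
    have hord := hno z hz
    unfold IsOrdinary at hord
    push Not at hord
    obtain ⟨b, j, hb, F, hF, p, hp, hpz, hdiv⟩ := hord
    obtain ⟨p', f, hp', hf1, hf2, hzp⟩ := hs.bounded z hz
    have hpp : p = p' := by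
      rw [hzp] at hpz
      exact (Nat.prime_dvd_prime_iff_eq hp hp').1 (hp.dvd_of_dvd_pow hpz)
    subst hpp
    let l₀ : R := ⟨⟨b, ⟨j, hb.2.1⟩⟩, by
      rw [hR, breaks]
      exact Finset.mem_filter.2 ⟨mem_univ _, hb⟩⟩
    have hgap : ∀ S : Finset {x : Ind k // x.1 = l₀.1.1}, S.card = (l₀.1.2 : ℕ) →
        ∀ A : ValuationSubring ℂ, A.valuation (∏ x ∈ S, α x.1) ^ D ≤
          (A.valuation (z.1 : ℂ) ^ (k l₀.1.1).nu l₀.1.2) ^ D * A.valuation (z.1 : ℂ) := by
      intro S hS A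
      exact block_gap hk hs hz (α := fun x : {x : Ind k // x.1 = b} => α x.1) (hbp b) hzp hb hF
        hdiv hD2 (hf2.trans hDf) hS A
    have hβα : β = ∏ a, ∏ x ∈ lets c blk y a, α x.1 := by
      rw [hy1]
      exact prod_lets hy2 hy3 α
    have hval : ∀ A : ValuationSubring ℂ, A.valuation β ≤ A.valuation (z.1 : ℂ) ^ (ν₀ + 1) := by
      intro A
      rw [hβα]
      exact val_le hk hs hz (by omega) hbp l₀ hgap (fun a => lets c blk y a)
        (fun a => (lets_card hy2 hy3 a).trans (hcard a)) A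
    have hq0 : (z.1 : ℂ) ≠ 0 := by
      rw [hzp]; exact Nat.cast_ne_zero.2 (pow_ne_zero _ hp.ne_zero)
    have hint : IsIntegral ℤ (β / (z.1 : ℂ) ^ (ν₀ + 1)) := by
      rw [isIntegral_iff]
      intro A
      rw [map_div₀, map_pow]
      have h7 : 0 < A.valuation (z.1 : ℂ) ^ (ν₀ + 1) :=
        zero_lt_iff.2 (pow_ne_zero _ ((Valuation.ne_zero_iff _).2 hq0))
      rw [div_le_one₀ h7]
      exact hval A
    refine ⟨hint, ?_⟩
    have hnorm : ‖β‖ ^ 2 = (z.1 : ℝ) ^ i := by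
      rw [hy1, norm_prod, ← Finset.prod_pow, hi2, ← Finset.prod_pow_eq_pow_sum]
      refine Finset.prod_congr rfl fun p _ => ?_
      have h7 := (block_data hk hs hz (b := blk (c p)) (α := fun x => α x.1)
        (hbp (blk (c p)))).2.1 ⟨y p, hy2 p⟩
      exact h7
    have hνi : ν₀ + 1 ≤ i := by
      have h7 : ∀ a : R × Fin D, 2 * (k a.1.1.1).nu a.1.1.2 ≤ (a.1.1.2 : ℕ) * (k a.1.1.1).wt :=
        fun a => nu_le_half (hk _) a.1.1.2.is_lt.le
      have h8 : 2 * (k b).nu j + 1 ≤ j * (k b).wt := nu_lt_half (hk b) hb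
      have h9 : ∑ a : R × Fin D, 2 * (k a.1.1.1).nu a.1.1.2 <
          ∑ a : R × Fin D, (a.1.1.2 : ℕ) * (k a.1.1.1).wt := by
        refine Finset.sum_lt_sum (fun a _ => h7 a) ⟨(l₀, ⟨0, by omega⟩), mem_univ _, ?_⟩
        change 2 * (k b).nu j < j * (k b).wt
        omega
      rw [← hi1, ← Finset.mul_sum, ← hν] at h9
      omega
    have hconj : (z.1 : ℂ) ^ (i - (ν₀ + 1)) / β = (starRingEnd ℂ) (β / (z.1 : ℂ) ^ (ν₀ + 1)) := by
      have hβ0 : β ≠ 0 := by
        intro h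
        rw [h, norm_zero] at hnorm
        have : (z.1 : ℝ) ^ i ≠ 0 := pow_ne_zero _ (by
          rw [hzp]; exact Nat.cast_ne_zero.2 (pow_ne_zero _ hp.ne_zero))
        exact this (by rw [← hnorm]; norm_num)
      have h7 : β * (starRingEnd ℂ) β = (z.1 : ℂ) ^ i := by
        rw [Complex.mul_conj, Complex.normSq_eq_norm_sq, hnorm]
        push_cast
        rfl
      rw [map_div₀, map_pow, Complex.conj_natCast, div_eq_div_iff hβ0 (pow_ne_zero _ hq0), ← pow_add,
        Nat.sub_add_cancel hνi, ← h7, mul_comm]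
    rw [hconj]
    exact hint.map (starRingEnd ℂ).toIntAlgHom
  · obtain ⟨u, hu, hu1⟩ := gAlt_exists (k := k) (c := c) (blk := blk) (y₀ := fun p => yy (e.symm p))
      (fun p => rfl) (fun p q h1 h2 => e.symm.injective (yy_inj _ _ h1 h2))
    refine ⟨u, hu, _, by rw [hu1]; exact one_ne_zero, ?_⟩
    have h1 : ∑ p, sl (yy (e.symm p)) = ∑ a : R × Fin D, (k a.1.1.1).nu a.1.1.2 := by
      rw [Equiv.sum_comp e.symm (fun x : Pos => sl (yy x)), Fintype.sum_sigma]
      refine Finset.sum_congr rfl fun a _ => ?_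
      exact sum_slope (k a.1.1.1) a.1.1.2.is_lt.le
    rw [h1, ← hν]
    exact Nat.lt_succ_self _

end Pool.Agent.Helper35.GT
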